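import Pool.Agent.R963.GK.Defs

/-!
GK-9 (MP_499f6d_pr): log-concavity of `g(j;r)/A(r)` in `r`.
-/

namespace GK

lemma S_pos_aux {j : ℕ} (hj : 1 ≤ j) (r : ℝ) : 0 < S j r := by
  unfold S
  refine Finset.sum_pos (fun i hi => ?_) ⟨1, by simp [hj]⟩
  have : 1 ≤ i := (Finset.mem_Icc.mp hi).1
  have : (0 : ℝ) < i := by exact_mod_cast this
  positivity

lemma S_logconvex {j : ℕ} (hj : 1 ≤ j) {a b t u : ℝ} (ht : 0 ≤ t) (hu : 0 ≤ u)
    (htu : t + u = 1) : S j (t * a + u * b) ≤ S j a ^ t * S j b ^ u := by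
  have ha := S_pos_aux hj a
  have hb := S_pos_aux hj b
  have key : ∀ i ∈ Finset.Icc 1 j, (i : ℝ) ^ (t * a + u * b) ≤
      (S j a ^ t * S j b ^ u) * (t * ((i : ℝ) ^ a / S j a) + u * ((i : ℝ) ^ b / S j b)) := by
    intro i hi
    have hi1 : 1 ≤ i := (Finset.mem_Icc.mp hi).1
    have hi0 : (0 : ℝ) < i := by exact_mod_cast hi1
    have h := Real.geom_mean_le_arith_mean2_weighted ht hu
      (by positivity : 0 ≤ (i : ℝ) ^ a / S j a) (by positivity : 0 ≤ (i : ℝ) ^ b / S j b) htu
    rw [Real.div_rpow (by positivity) ha.le, Real.div_rpow (by positivity) hb.le,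
      ← Real.rpow_mul hi0.le, ← Real.rpow_mul hi0.le] at h
    have e : (i : ℝ) ^ (t * a + u * b) = (S j a ^ t * S j b ^ u) *
        ((i : ℝ) ^ (a * t) / S j a ^ t * ((i : ℝ) ^ (b * u) / S j b ^ u)) := by
      rw [Real.rpow_add hi0, mul_comm t a, mul_comm u b]
      have h1 : S j a ^ t ≠ 0 := (Real.rpow_pos_of_pos ha t).ne'
      have h2 : S j b ^ u ≠ 0 := (Real.rpow_pos_of_pos hb u).ne'
      field_simp
    rw [e]
    exact mul_le_mul_of_nonneg_left h (by positivity)
  calc S j (t * a + u * b) ≤ ∑ i ∈ Finset.Icc 1 j,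
        (S j a ^ t * S j b ^ u) * (t * ((i : ℝ) ^ a / S j a) + u * ((i : ℝ) ^ b / S j b)) :=
        Finset.sum_le_sum key
    _ = (S j a ^ t * S j b ^ u) * (t * (S j a / S j a) + u * (S j b / S j b)) := by
        rw [← Finset.mul_sum, Finset.sum_add_distrib, ← Finset.mul_sum, ← Finset.mul_sum,
          ← Finset.sum_div, ← Finset.sum_div]
        rfl
    _ = S j a ^ t * S j b ^ u := by
        rw [div_self ha.ne', div_self hb.ne', mul_one, mul_one, htu, mul_one]

lemma A_logconvex {a b t u : ℝ} (ha : 0 < a) (hb : 0 < b) (ht : 0 ≤ t) (hu : 0 ≤ u)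
    (htu : t + u = 1) : A (t * a + u * b) ≤ A a ^ t * A b ^ u := by
  set r := t * a + u * b with hr
  have hr0 : 0 < r := by
    rcases eq_or_lt_of_le ht with h | h
    · have : u = 1 := by linarith
      rw [hr, ← h, this]; linarith
    · have h1 : 0 < t * a := by positivity
      have h2 : 0 ≤ u * b := by positivity
      linarith
  have hA : ∀ x : ℝ, 0 < x → A x = 2 ^ x / ((x + 1) / x) ^ x := by
    intro x hx
    unfold A
    have : 2 * x / (x + 1) = 2 / ((x + 1) / x) := by field_simp
    rw [this, Real.div_rpow (by norm_num) (by positivity)]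
  rw [hA r hr0, hA a ha, hA b hb]
  have h := Real.geom_mean_le_arith_mean2_weighted
    (by positivity : 0 ≤ t * a / r) (by positivity : 0 ≤ u * b / r)
    (by positivity : 0 ≤ (a + 1) / a) (by positivity : 0 ≤ (b + 1) / b)
    (by rw [← add_div, ← hr, div_self hr0.ne'])
  have e : t * a / r * ((a + 1) / a) + u * b / r * ((b + 1) / b) = (r + 1) / r := by
    have : t * a / r * ((a + 1) / a) + u * b / r * ((b + 1) / b) =
        (t * (a + 1) + u * (b + 1)) / r := by field_simp
    rw [this]
    congr 1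
    rw [hr]
    linear_combination htu
  rw [e] at h
  have h' := Real.rpow_le_rpow (by positivity) h hr0.le
  rw [Real.mul_rpow (by positivity) (by positivity), ← Real.rpow_mul (by positivity),
    ← Real.rpow_mul (by positivity), div_mul_cancel₀ _ hr0.ne', div_mul_cancel₀ _ hr0.ne'] at h'
  have hpa : 0 < ((a + 1) / a) ^ (t * a) := by positivity
  have hpb : 0 < ((b + 1) / b) ^ (u * b) := by positivity
  have e2 : (2 ^ a / ((a + 1) / a) ^ a) ^ t * (2 ^ b / ((b + 1) / b) ^ b) ^ u =
      (2 : ℝ) ^ r / (((a + 1) / a) ^ (t * a) * ((b + 1) / b) ^ (u * b)) := by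
    have hX : 0 < (a + 1) / a := by positivity
    have hY : 0 < (b + 1) / b := by positivity
    generalize (a + 1) / a = X at hX
    generalize (b + 1) / b = Y at hY
    rw [Real.div_rpow (x := 2 ^ a) (by positivity) (by positivity),
      Real.div_rpow (x := 2 ^ b) (by positivity) (by positivity),
      ← Real.rpow_mul (by positivity), ← Real.rpow_mul (by positivity),
      ← Real.rpow_mul (by positivity), ← Real.rpow_mul (by positivity), hr,
      Real.rpow_add (by norm_num), mul_comm t a, mul_comm u b]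
    have h1 : X ^ (a * t) ≠ 0 := by positivity
    have h2 : Y ^ (b * u) ≠ 0 := by positivity
    field_simp
  rw [e2]
  exact div_le_div_of_nonneg_left (by positivity) (by positivity) h'

theorem conc {j : ℕ} (hj : 1 ≤ j) {a b r R : ℝ} (ha : 1 ≤ a) (har : a ≤ r) (hrb : r ≤ b)
    (hR : 0 < R) (h1 : R * A a ≤ g j a) (h2 : R * A b ≤ g j b) : R * A r ≤ g j r := by
  rcases eq_or_lt_of_le (har.trans hrb) with hab | hab
  · have : r = a := le_antisymm (hab ▸ hrb) har
    rw [this]; exact h1
  have hba : 0 < b - a := by linarith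
  set t := (b - r) / (b - a) with ht
  set u := (r - a) / (b - a) with hu
  have ht0 : 0 ≤ t := div_nonneg (by linarith) hba.le
  have hu0 : 0 ≤ u := div_nonneg (by linarith) hba.le
  have htu : t + u = 1 := by
    rw [ht, hu, ← add_div, div_eq_one_iff_eq hba.ne']; ring
  have hr : r = t * a + u * b := by
    rw [ht, hu]; field_simp; ring
  have hA0 : ∀ x : ℝ, 0 < x → 0 < A x := by
    intro x hx
    unfold A
    positivity
  have hj' : (1 : ℝ) ≤ j := by exact_mod_cast hj
  have hc : (0 : ℝ) < 2 * (j : ℝ) - 1 := by linarith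
  have hg : g j a ^ t * g j b ^ u ≤ g j r := by
    unfold g
    have hSa := S_pos_aux hj a
    have hSb := S_pos_aux hj b
    have hSr := S_pos_aux hj r
    rw [Real.div_rpow (by positivity) hSa.le, Real.div_rpow (by positivity) hSb.le,
      ← Real.rpow_mul hc.le, ← Real.rpow_mul hc.le, div_mul_div_comm, ← Real.rpow_add hc,
      mul_comm a t, mul_comm b u, ← hr]
    refine div_le_div_of_nonneg_left (by positivity) hSr ?_
    have := S_logconvex hj (a := a) (b := b) ht0 hu0 htu
    rwa [← hr] at this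
  have hAr : A r ≤ A a ^ t * A b ^ u := by
    have := A_logconvex (a := a) (b := b) (by linarith) (by linarith) ht0 hu0 htu
    rwa [← hr] at this
  have hAa := hA0 a (by linarith)
  have hAb := hA0 b (by linarith)
  calc R * A r ≤ R * (A a ^ t * A b ^ u) := mul_le_mul_of_nonneg_left hAr hR.le
    _ = (R * A a) ^ t * (R * A b) ^ u := by
        rw [Real.mul_rpow hR.le hAa.le, Real.mul_rpow hR.le hAb.le]
        have : R = R ^ t * R ^ u := by rw [← Real.rpow_add hR, htu, Real.rpow_one]
        nth_rewrite 1 [this]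
        ring
    _ ≤ g j a ^ t * g j b ^ u := by
        have e1 := Real.rpow_le_rpow (by positivity) h1 ht0
        have e2 := Real.rpow_le_rpow (by positivity) h2 hu0
        exact mul_le_mul e1 e2 (by positivity) ((by positivity : 0 ≤ (R * A a) ^ t).trans e1)
    _ ≤ g j r := hg

end GK
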