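import Mathlib

/-!
Definitions for MP_499f6d_pr (crossing points of `g(k;r)` and the maximisers for `s(r)`).
-/

open scoped ENNReal

namespace GK

/-- the power sum `S(k;r) = ∑_{i=1}^k i^r` -/
noncomputable def S (k : ℕ) (r : ℝ) : ℝ := ∑ i ∈ Finset.Icc 1 k, (i : ℝ) ^ r

/-- `g(k;r) = (2k-1)^r / S(k;r)` -/
noncomputable def g (k : ℕ) (r : ℝ) : ℝ := (2 * (k : ℝ) - 1) ^ r / S k r

/-- A target: a symmetric unimodal pmf on `ℤ` which is not the point mass at `0`. -/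
structure IsTarget (p : ℤ → ℝ) : Prop where
  nonneg : ∀ x, 0 ≤ p x
  sum_one : HasSum p 1
  symm : ∀ x, p (-x) = p x
  unimodal : ∀ x y : ℤ, |x| ≤ |y| → p y ≤ p x
  nondeg : p 0 ≠ 1

/-- A proposal step distribution: a symmetric pmf on `ℤ` vanishing at every even integer. -/
structure IsProposal (q : ℤ → ℝ) : Prop where
  nonneg : ∀ z, 0 ≤ q z
  sum_one : HasSum q 1
  symm : ∀ z, q (-z) = q z
  even : ∀ z, Even z → q z = 0

/-- the Metropolis-Hastings acceptance probability `min {1, p(y)/p(x)}` -/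
noncomputable def acc (p : ℤ → ℝ) (x y : ℤ) : ℝ := min 1 (p y / p x)

/-- `E |X₀|^r` for `X₀ ∼ p` -/
noncomputable def mom (p : ℤ → ℝ) (r : ℝ) : ℝ≥0∞ :=
  ∑' x : ℤ, ENNReal.ofReal (p x * |(x : ℝ)| ^ r)

/-- `E |X₁ - X₀|^r` for one step of the stationary chain: `X₀ = x ∼ p`, `Z = z ∼ q` independent,
`X₁ = x + z` with probability `acc p x (x+z)` and `X₁ = x` otherwise. -/
noncomputable def jump (p q : ℤ → ℝ) (r : ℝ) : ℝ≥0∞ :=
  ∑' x : ℤ, ∑' z : ℤ, ENNReal.ofReal (p x * q z *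
    (acc p x (x + z) * |((x + z : ℤ) : ℝ) - (x : ℝ)| ^ r
      + (1 - acc p x (x + z)) * |(x : ℝ) - (x : ℝ)| ^ r))

/-- `s(r)`: the supremum of `E|X₁-X₀|^r / E|X₀|^r` over all targets with `E|X₀|^r < ∞` and all
proposal step distributions. -/
noncomputable def s (r : ℝ) : ℝ≥0∞ :=
  ⨆ (p : ℤ → ℝ) (q : ℤ → ℝ) (_ : IsTarget p) (_ : mom p r < ∞) (_ : IsProposal q),
    jump p q r / mom p r

/-- `A(r) = (2r/(r+1))^r` -/
noncomputable def A (r : ℝ) : ℝ := (2 * r / (r + 1)) ^ r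

end GK
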