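import Mathlib
import Pool.Agent.R963.GK.Defs

/-!
GK-1: single crossing in `r` of `g(k;r)` and `g(k+1;r)`.
-/

open Finset

namespace GK

lemma S_succ (k : ℕ) (r : ℝ) : S (k + 1) r = S k r + ((k : ℝ) + 1) ^ r := by
  unfold S
  rw [Finset.sum_Icc_succ_top (by omega)]
  push_cast
  rfl

lemma S_pos {k : ℕ} (hk : 1 ≤ k) (r : ℝ) : 0 < S k r := by
  unfold S
  apply Finset.sum_pos
  · intro i hi
    have : 1 ≤ i := (Finset.mem_Icc.mp hi).1
    have : (0 : ℝ) < i := by exact_mod_cast this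
    positivity
  · exact ⟨1, by simp; omega⟩

lemma S_ge {k : ℕ} (hk : 1 ≤ k) (r : ℝ) : (k : ℝ) ^ r ≤ S k r := by
  unfold S
  exact Finset.single_le_sum (f := fun i : ℕ => (i : ℝ) ^ r)
    (fun i _ => Real.rpow_nonneg (Nat.cast_nonneg i) r) (by simp; omega)

/-- auxiliary: `a_j = 1 - j/(k+1)` -/
noncomputable def aa (k j : ℕ) : ℝ := ((k : ℝ) + 1 - j) / (k + 1)

/-- auxiliary: `b = (2k-1)/(2k+1)` -/
noncomputable def bb (k : ℕ) : ℝ := (2 * (k : ℝ) - 1) / (2 * k + 1)

lemma bb_pos {k : ℕ} (hk : 1 ≤ k) : 0 < bb k := by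
  have : (1 : ℝ) ≤ k := by exact_mod_cast hk
  unfold bb
  apply div_pos <;> linarith

lemma bb_lt_one (k : ℕ) : bb k < 1 := by
  have : (0 : ℝ) ≤ k := Nat.cast_nonneg k
  unfold bb
  rw [div_lt_one (by linarith)]
  linarith

lemma aa_pos {k j : ℕ} (hj : j ≤ k) : 0 < aa k j := by
  have : (j : ℝ) ≤ k := by exact_mod_cast hj
  have : (0 : ℝ) ≤ j := Nat.cast_nonneg j
  unfold aa
  apply div_pos <;> linarith

lemma bb_lt_aa_one {k : ℕ} (hk : 1 ≤ k) : bb k < aa k 1 := by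
  have : (1 : ℝ) ≤ k := by exact_mod_cast hk
  unfold aa bb
  rw [div_lt_div_iff₀ (by linarith) (by linarith)]
  push_cast
  nlinarith

lemma aa_le_pow {k : ℕ} (hk : 1 ≤ k) : ∀ j : ℕ, 2 ≤ j → j ≤ k → aa k j ≤ bb k ^ j := by
  intro j hj
  induction j, hj using Nat.le_induction with
  | base =>
    intro h2
    have hk1 : (1 : ℝ) ≤ k := by exact_mod_cast hk
    have hA : bb k ^ 2 - aa k 2 = 2 / ((k + 1) * (2 * k + 1) ^ 2) := by
      unfold aa bb
      have h1 : (k : ℝ) + 1 ≠ 0 := by positivity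
      have h2 : 2 * (k : ℝ) + 1 ≠ 0 := by positivity
      field_simp
      push_cast
      ring
    have : 0 ≤ 2 / (((k : ℝ) + 1) * (2 * k + 1) ^ 2) := by positivity
    linarith
  | succ j hj ih =>
    intro hjk
    have h1 := ih (by omega)
    have hb := bb_pos hk
    have hjr : (2 : ℝ) ≤ j := by exact_mod_cast hj
    have hk1 : (1 : ℝ) ≤ k := by exact_mod_cast hk
    calc aa k (j + 1) ≤ aa k j * bb k := by
          unfold aa bb
          rw [div_mul_div_comm, div_le_div_iff₀ (by linarith) (by nlinarith)]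
          push_cast
          have : ((k : ℝ) + 1 - (j + 1)) * (2 * k + 1) ≤ ((k : ℝ) + 1 - j) * (2 * k - 1) := by
            nlinarith
          have hk2 : (0 : ℝ) < k + 1 := by linarith
          nlinarith
      _ ≤ bb k ^ j * bb k := by gcongr
      _ = bb k ^ (j + 1) := by rw [pow_succ]

/-- `∑_{j=1}^k a_j^r = S(k;r) / (k+1)^r` -/
lemma sum_aa (k : ℕ) (r : ℝ) :
    ∑ j ∈ Finset.Icc 1 k, aa k j ^ r = S k r / ((k : ℝ) + 1) ^ r := by
  unfold S
  rw [Finset.sum_div]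
  refine Finset.sum_nbij' (fun j => k + 1 - j) (fun j => k + 1 - j) ?_ ?_ ?_ ?_ ?_
  · intro j hj
    simp only [Finset.mem_Icc] at hj ⊢
    omega
  · intro j hj
    simp only [Finset.mem_Icc] at hj ⊢
    omega
  · intro j hj
    simp only [Finset.mem_Icc] at hj
    omega
  · intro j hj
    simp only [Finset.mem_Icc] at hj
    omega
  · intro j hj
    simp only [Finset.mem_Icc] at hj
    have hjk : (j : ℝ) ≤ k := by exact_mod_cast hj.2
    have hk0 : (0 : ℝ) ≤ k := Nat.cast_nonneg k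
    unfold aa
    rw [Real.div_rpow (by linarith) (by linarith)]
    congr 2
    rw [Nat.cast_sub (by omega)]
    push_cast
    ring

/-- the function whose sign decides the comparison -/
noncomputable def FF (k : ℕ) (r : ℝ) : ℝ :=
  ∑ j ∈ Finset.Icc 1 k, (aa k j ^ r - (bb k ^ j) ^ r) - (bb k ^ (k + 1)) ^ r / (1 - bb k ^ r)

lemma geom_part {k : ℕ} (hk : 1 ≤ k) {r : ℝ} (hr : 0 < r) :
    ∑ j ∈ Finset.Icc 1 k, (bb k ^ j) ^ r + (bb k ^ (k + 1)) ^ r / (1 - bb k ^ r)
      = bb k ^ r / (1 - bb k ^ r) := by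
  have hb := bb_pos hk
  have hx1 : bb k ^ r < 1 := Real.rpow_lt_one hb.le (bb_lt_one k) hr
  set x := bb k ^ r with hx
  have h1 : ∀ j : ℕ, (bb k ^ j) ^ r = x ^ j := by
    intro j
    rw [hx, ← Real.rpow_natCast, ← Real.rpow_natCast, ← Real.rpow_mul hb.le, ← Real.rpow_mul hb.le,
      mul_comm]
  simp_rw [h1]
  have hne : 1 - x ≠ 0 := by linarith
  clear_value x
  clear h1 hx
  have key : ∀ n : ℕ, ∑ j ∈ Finset.Icc 1 n, x ^ j + x ^ (n + 1) / (1 - x) = x / (1 - x) := by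
    intro n
    induction n with
    | zero => simp
    | succ n ih =>
      rw [Finset.sum_Icc_succ_top (by omega), ← ih]
      field_simp
      ring
  exact key k

lemma FF_eq {k : ℕ} (hk : 1 ≤ k) {r : ℝ} (hr : 0 < r) :
    FF k r = S k r / ((k : ℝ) + 1) ^ r - bb k ^ r / (1 - bb k ^ r) := by
  rw [← geom_part hk hr, ← sum_aa]
  unfold FF
  rw [Finset.sum_sub_distrib]
  ring

lemma le_iff_FF {k : ℕ} (hk : 1 ≤ k) {r : ℝ} (hr : 0 < r) :
    g k r ≤ g (k + 1) r ↔ 0 ≤ FF k r := by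
  have hk1 : (1 : ℝ) ≤ k := by exact_mod_cast hk
  rw [FF_eq hk hr]
  have hb := bb_pos hk
  have hx1 : bb k ^ r < 1 := Real.rpow_lt_one hb.le (bb_lt_one k) hr
  have hS := S_pos hk r
  have hK : 0 < ((k : ℝ) + 1) ^ r := by positivity
  have hm : 0 < (2 * (k : ℝ) - 1) ^ r := Real.rpow_pos_of_pos (by linarith) r
  have hp : 0 < (2 * (k : ℝ) + 1) ^ r := Real.rpow_pos_of_pos (by linarith) r
  have hbe : bb k ^ r = (2 * (k : ℝ) - 1) ^ r / (2 * k + 1) ^ r := by
    unfold bb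
    rw [Real.div_rpow (by linarith) (by linarith)]
  have hlt : (2 * (k : ℝ) - 1) ^ r < (2 * k + 1) ^ r :=
    Real.rpow_lt_rpow (by linarith) (by linarith) hr
  unfold g
  rw [S_succ, hbe]
  push_cast
  have e1 : 2 * ((k : ℝ) + 1) - 1 = 2 * k + 1 := by ring
  rw [e1]
  generalize (2 * (k : ℝ) - 1) ^ r = m at *
  generalize (2 * (k : ℝ) + 1) ^ r = p at *
  generalize ((k : ℝ) + 1) ^ r = K at *
  generalize S k r = T at *
  have e2 : m / p / (1 - m / p) = m / (p - m) := by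
    have : p - m ≠ 0 := by linarith
    field_simp
  rw [e2, sub_nonneg, div_le_div_iff₀ hS (by linarith), div_le_div_iff₀ (by linarith) hK]
  constructor <;> intro h <;> nlinarith

lemma lt_of_FF {k : ℕ} (hk : 1 ≤ k) {r : ℝ} (hr : 0 < r) (h : 0 < FF k r) :
    g k r < g (k + 1) r := by
  have hk1 : (1 : ℝ) ≤ k := by exact_mod_cast hk
  rw [FF_eq hk hr] at h
  have hb := bb_pos hk
  have hx1 : bb k ^ r < 1 := Real.rpow_lt_one hb.le (bb_lt_one k) hr
  have hS := S_pos hk r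
  have hK : 0 < ((k : ℝ) + 1) ^ r := by positivity
  have hm : 0 < (2 * (k : ℝ) - 1) ^ r := Real.rpow_pos_of_pos (by linarith) r
  have hp : 0 < (2 * (k : ℝ) + 1) ^ r := Real.rpow_pos_of_pos (by linarith) r
  have hbe : bb k ^ r = (2 * (k : ℝ) - 1) ^ r / (2 * k + 1) ^ r := by
    unfold bb
    rw [Real.div_rpow (by linarith) (by linarith)]
  have hlt : (2 * (k : ℝ) - 1) ^ r < (2 * k + 1) ^ r :=
    Real.rpow_lt_rpow (by linarith) (by linarith) hr
  unfold g
  rw [S_succ]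
  rw [hbe] at h
  push_cast
  have e1 : 2 * ((k : ℝ) + 1) - 1 = 2 * k + 1 := by ring
  rw [e1]
  generalize (2 * (k : ℝ) - 1) ^ r = m at *
  generalize (2 * (k : ℝ) + 1) ^ r = p at *
  generalize ((k : ℝ) + 1) ^ r = K at *
  generalize S k r = T at *
  have e2 : m / p / (1 - m / p) = m / (p - m) := by
    have : p - m ≠ 0 := by linarith
    field_simp
  rw [e2, sub_pos, div_lt_div_iff₀ (by linarith) hK] at h
  rw [div_lt_div_iff₀ hS (by linarith)]
  nlinarith

/-- tangent line inequality for `x ↦ x^p` -/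
lemma tangent {u v p : ℝ} (hu : 0 ≤ u) (hv : 0 < v) (hp : 1 ≤ p) :
    p * v ^ (p - 1) * (u - v) ≤ u ^ p - v ^ p := by
  have h := one_add_mul_self_le_rpow_one_add (s := u / v - 1) (by
    have : 0 ≤ u / v := by positivity
    linarith) hp
  have h2 : (1 + (u / v - 1)) ^ p = u ^ p / v ^ p := by
    rw [show 1 + (u / v - 1) = u / v by ring, Real.div_rpow hu hv.le]
  rw [h2, le_div_iff₀ (by positivity)] at h
  have h3 : v ^ (p - 1) = v ^ p / v := by
    rw [Real.rpow_sub hv, Real.rpow_one]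
  rw [h3]
  have : p * (v ^ p / v) * (u - v) = p * (u / v - 1) * v ^ p := by
    field_simp
  rw [this]
  nlinarith

lemma FF_pos_of {k : ℕ} (hk : 1 ≤ k) {r r' : ℝ} (hr : 0 < r) (h : r < r') (hF : 0 ≤ FF k r) :
    0 < FF k r' := by
  have hb := bb_pos hk
  have hb1 := bb_lt_one k
  set d := r' - r with hd
  have hd0 : 0 < d := by rw [hd]; linarith
  set p := r' / r with hp
  have hp1 : 1 < p := by rw [hp, one_lt_div hr]; exact h
  have hrp : r * p = r' := by rw [hp]; field_simp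
  have hdp : r * (p - 1) = d := by rw [mul_sub, hrp, hd]; ring
  -- the individual terms
  have hterm : ∀ j ∈ Finset.Icc 1 k, p * (bb k ^ j) ^ d * (aa k j ^ r - (bb k ^ j) ^ r)
      ≤ aa k j ^ r' - (bb k ^ j) ^ r' := by
    intro j hj
    have hjk := (Finset.mem_Icc.mp hj).2
    have ha := aa_pos hjk
    have hbj : 0 < bb k ^ j := by positivity
    have := tangent (u := aa k j ^ r) (v := (bb k ^ j) ^ r) (p := p) (by positivity)
      (by positivity) hp1.le
    rw [← Real.rpow_mul ha.le, ← Real.rpow_mul hbj.le, ← Real.rpow_mul hbj.le, hrp, hdp] at this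
    exact this
  -- lower bound with `b^{2d}`
  have hterm2 : ∀ j ∈ Finset.Icc 2 k, p * (bb k ^ 2) ^ d * (aa k j ^ r - (bb k ^ j) ^ r)
      ≤ aa k j ^ r' - (bb k ^ j) ^ r' := by
    intro j hj
    have hj2 := (Finset.mem_Icc.mp hj).1
    have hjk := (Finset.mem_Icc.mp hj).2
    refine le_trans ?_ (hterm j (Finset.mem_Icc.mpr ⟨by omega, hjk⟩))
    have ha := aa_pos hjk
    have hle : aa k j ^ r ≤ (bb k ^ j) ^ r :=
      Real.rpow_le_rpow ha.le (aa_le_pow hk j hj2 hjk) hr.le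
    have hpow : (bb k ^ j) ^ d ≤ (bb k ^ 2) ^ d := by
      apply Real.rpow_le_rpow (by positivity) _ hd0.le
      exact pow_le_pow_of_le_one hb.le hb1.le hj2
    have h5 : p * (bb k ^ j) ^ d ≤ p * (bb k ^ 2) ^ d := by gcongr
    nlinarith
  -- remainder
  have hx1 : bb k ^ r < 1 := Real.rpow_lt_one hb.le hb1 hr
  have hx1' : bb k ^ r' < 1 := Real.rpow_lt_one hb.le hb1 (hr.trans h)
  have hrem : (bb k ^ (k + 1)) ^ r' / (1 - bb k ^ r')
      ≤ p * (bb k ^ 2) ^ d * ((bb k ^ (k + 1)) ^ r / (1 - bb k ^ r)) := by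
    have hbk : 0 < bb k ^ (k + 1) := by positivity
    have h1 : (bb k ^ (k + 1)) ^ r' = (bb k ^ (k + 1)) ^ d * (bb k ^ (k + 1)) ^ r := by
      rw [← Real.rpow_add hbk]
      congr 1
      rw [hd]; ring
    have h2 : (bb k ^ (k + 1)) ^ d ≤ (bb k ^ 2) ^ d := by
      apply Real.rpow_le_rpow (by positivity) _ hd0.le
      exact pow_le_pow_of_le_one hb.le hb1.le (by omega)
    have h3 : bb k ^ r' ≤ bb k ^ r :=
      Real.rpow_le_rpow_of_exponent_ge hb hb1.le h.le
    rw [h1, ← mul_div_assoc]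
    have h4 : (bb k ^ (k + 1)) ^ d ≤ p * (bb k ^ 2) ^ d := by
      have : 0 < (bb k ^ 2) ^ d := by positivity
      nlinarith
    have h6 : 0 < (bb k ^ (k + 1)) ^ r := by positivity
    apply div_le_div₀ (by positivity) (by gcongr) (by linarith) (by linarith)
  -- split off j = 1
  have hsplit : ∀ f : ℕ → ℝ, ∑ j ∈ Finset.Icc 1 k, f j = f 1 + ∑ j ∈ Finset.Icc 2 k, f j := by
    intro f
    rw [← Finset.sum_Ioc_add_eq_sum_Icc hk, add_comm]
    rfl
  have h1 := hterm 1 (Finset.mem_Icc.mpr ⟨le_refl 1, hk⟩)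
  have hsum := Finset.sum_le_sum hterm2
  rw [← Finset.mul_sum] at hsum
  unfold FF at hF ⊢
  rw [hsplit] at hF ⊢
  have ha1 : 0 < aa k 1 := aa_pos hk
  have hpos : 0 < aa k 1 ^ r - (bb k ^ 1) ^ r := by
    rw [pow_one]
    have := Real.rpow_lt_rpow hb.le (bb_lt_aa_one hk) hr
    linarith
  have hbd : (bb k ^ 2) ^ d < (bb k ^ 1) ^ d := by
    apply Real.rpow_lt_rpow (by positivity) _ hd0
    rw [pow_one, pow_two]
    nlinarith
  have hb2 : 0 < (bb k ^ 2) ^ d := by positivity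
  generalize (bb k ^ 2) ^ d = B2 at *
  generalize (bb k ^ 1) ^ d = B1 at *
  generalize aa k 1 ^ r - (bb k ^ 1) ^ r = D at *
  generalize aa k 1 ^ r' - (bb k ^ 1) ^ r' = D' at *
  generalize ∑ j ∈ Finset.Icc 2 k, (aa k j ^ r - (bb k ^ j) ^ r) = E at *
  generalize ∑ j ∈ Finset.Icc 2 k, (aa k j ^ r' - (bb k ^ j) ^ r') = E' at *
  generalize (bb k ^ (k + 1)) ^ r' / (1 - bb k ^ r') = R' at *
  generalize (bb k ^ (k + 1)) ^ r / (1 - bb k ^ r) = R at *
  have hpB : 0 < p * B2 := by positivity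
  have h7 : p * B2 * D < p * B1 * D := by
    have : B2 * (p * D) < B1 * (p * D) := by
      apply mul_lt_mul_of_pos_right hbd
      positivity
    nlinarith
  have h8 : 0 ≤ p * B2 * (D + E - R) := by positivity
  nlinarith

/-- for `r ≤ 0`, `g(k+1;r) < g(k;r)` -/
lemma lt_of_nonpos {k : ℕ} (hk : 1 ≤ k) {r : ℝ} (hr : r ≤ 0) : g (k + 1) r < g k r := by
  have hk1 : (1 : ℝ) ≤ k := by exact_mod_cast hk
  have hS := S_pos hk r
  have hK : 0 < ((k : ℝ) + 1) ^ r := by positivity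
  have hm : 0 < (2 * (k : ℝ) - 1) ^ r := Real.rpow_pos_of_pos (by linarith) r
  unfold g
  rw [S_succ]
  push_cast
  have e1 : 2 * ((k : ℝ) + 1) - 1 = 2 * k + 1 := by ring
  rw [e1]
  have hle : (2 * (k : ℝ) + 1) ^ r ≤ (2 * (k : ℝ) - 1) ^ r :=
    Real.rpow_le_rpow_of_nonpos (by linarith) (by linarith) hr
  calc (2 * (k : ℝ) + 1) ^ r / (S k r + ((k : ℝ) + 1) ^ r)
      ≤ (2 * (k : ℝ) - 1) ^ r / (S k r + ((k : ℝ) + 1) ^ r) := by gcongr
    _ < (2 * (k : ℝ) - 1) ^ r / S k r := by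
        apply div_lt_div_of_pos_left hm hS
        linarith

/-- **Single crossing**: once `g(k;·) ≤ g(k+1;·)` at `r`, the inequality is strict at every larger
exponent. -/
theorem cross {k : ℕ} (hk : 1 ≤ k) {r r' : ℝ} (h : r < r') (hg : g k r ≤ g (k + 1) r) :
    g k r' < g (k + 1) r' := by
  rcases le_or_gt r 0 with hr | hr
  · exact absurd hg (not_le.mpr (lt_of_nonpos hk hr))
  · exact lt_of_FF hk (hr.trans h) (FF_pos_of hk hr h ((le_iff_FF hk hr).mp hg))

lemma S_one (k : ℕ) : S k 1 = (k : ℝ) * (k + 1) / 2 := by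
  induction k with
  | zero => simp [S]
  | succ n ih =>
    rw [S_succ, ih, Real.rpow_one]
    push_cast
    ring

theorem at_one {k : ℕ} (hk : 1 ≤ k) : g (k + 1) 1 ≤ g k 1 := by
  have hk1 : (1 : ℝ) ≤ k := by exact_mod_cast hk
  unfold g
  rw [S_one, S_one, Real.rpow_one, Real.rpow_one]
  push_cast
  rw [div_le_div_iff₀ (by positivity) (by positivity)]
  have h1 : (0 : ℝ) ≤ (k + 1) * (k - 1) := by nlinarith
  nlinarith

theorem at_one_eq : g 1 1 = 1 ∧ g 2 1 = 1 := by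
  constructor
  · unfold g
    rw [S_one, Real.rpow_one]
    norm_num
  · unfold g
    rw [S_one, Real.rpow_one]
    norm_num

theorem exists_gt {k : ℕ} (hk : 1 ≤ k) : ∃ r : ℝ, 1 < r ∧ g k r < g (k + 1) r := by
  have hk1 : (1 : ℝ) ≤ k := by exact_mod_cast hk
  have hb := bb_pos hk
  have hb1 := bb_lt_one k
  have ha := aa_pos hk
  have hba := bb_lt_aa_one hk
  obtain ⟨n1, h1⟩ := exists_pow_lt_of_lt_one (show (0 : ℝ) < 1 / 2 by norm_num) hb1
  obtain ⟨n2, h2⟩ := exists_pow_lt_of_lt_one (show (0 : ℝ) < 1 / 2 by norm_num)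
    (show bb k / aa k 1 < 1 by rw [div_lt_one ha]; exact hba)
  set n := n1 + n2 + 2 with hn
  have h1' : bb k ^ n < 1 / 2 :=
    lt_of_le_of_lt (pow_le_pow_of_le_one hb.le hb1.le (by omega)) h1
  have h2' : (bb k / aa k 1) ^ n < 1 / 2 := by
    refine lt_of_le_of_lt (pow_le_pow_of_le_one (by positivity) ?_ (by omega)) h2
    exact ((div_lt_one ha).mpr hba).le
  refine ⟨(n : ℝ), ?_, ?_⟩
  · rw [hn]; push_cast
    have : (0 : ℝ) ≤ n1 := Nat.cast_nonneg _
    have : (0 : ℝ) ≤ n2 := Nat.cast_nonneg _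
    linarith
  have hS := S_pos hk (n : ℝ)
  have hSk := S_ge hk (n : ℝ)
  unfold g
  rw [S_succ]
  push_cast
  have e1 : 2 * ((k : ℝ) + 1) - 1 = 2 * k + 1 := by ring
  rw [e1]
  simp only [Real.rpow_natCast] at *
  -- `b^n + (b/a)^n < 1`
  have hA : bb k ^ n = (2 * (k : ℝ) - 1) ^ n / (2 * k + 1) ^ n := by
    unfold bb; rw [div_pow]
  have hB : (bb k / aa k 1) ^ n
      = ((2 * (k : ℝ) - 1) ^ n * ((k : ℝ) + 1) ^ n) / ((2 * k + 1) ^ n * (k : ℝ) ^ n) := by
    unfold bb aa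
    rw [← mul_pow, ← mul_pow, ← div_pow]
    congr 1
    push_cast
    have : (k : ℝ) + 1 - 1 = k := by ring
    rw [this]
    field_simp
  rw [hA] at h1'
  rw [hB] at h2'
  have hm : 0 < (2 * (k : ℝ) - 1) ^ n := pow_pos (by linarith) n
  have hp : 0 < (2 * (k : ℝ) + 1) ^ n := by positivity
  have hK : 0 < ((k : ℝ) + 1) ^ n := by positivity
  have hk0 : 0 < (k : ℝ) ^ n := by positivity
  rw [div_lt_iff₀ hp] at h1'
  rw [div_lt_iff₀ (by positivity)] at h2'
  rw [div_lt_div_iff₀ hS (by positivity)]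
  generalize (2 * (k : ℝ) - 1) ^ n = m at *
  generalize (2 * (k : ℝ) + 1) ^ n = p at *
  generalize ((k : ℝ) + 1) ^ n = K at *
  generalize (k : ℝ) ^ n = q at *
  have h3 : p * q ≤ p * S k n := by gcongr
  nlinarith

theorem continuous_S (k : ℕ) : Continuous (fun r => S k r) := by
  unfold S
  apply continuous_finsetSum
  intro i hi
  have : 1 ≤ i := (Finset.mem_Icc.mp hi).1
  have h0 : (0 : ℝ) < i := by exact_mod_cast this
  exact continuous_const.rpow continuous_id (fun x => Or.inl h0.ne')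

theorem continuous_g (k : ℕ) (hk : 1 ≤ k) : Continuous (fun r => g k r) := by
  unfold g
  have hk1 : (1 : ℝ) ≤ k := by exact_mod_cast hk
  apply Continuous.div
  · exact continuous_const.rpow continuous_id (fun x => Or.inl (by linarith))
  · exact continuous_S k
  · intro r
    exact (S_pos hk r).ne'

theorem exists_eq {k : ℕ} (hk : 1 ≤ k) : ∃! r : ℝ, g k r = g (k + 1) r := by
  obtain ⟨R, hR1, hR⟩ := exists_gt hk
  have hcont : ContinuousOn (fun r => g (k + 1) r - g k r) (Set.Icc 1 R) :=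
    ((continuous_g (k + 1) (by omega)).sub (continuous_g k hk)).continuousOn
  have h0 : (0 : ℝ) ∈ Set.Icc ((fun r => g (k + 1) r - g k r) 1) ((fun r => g (k + 1) r - g k r) R) := by
    constructor
    · have := at_one hk
      simp only
      linarith
    · simp only
      linarith
  obtain ⟨r, hr, hr0⟩ := intermediate_value_Icc hR1.le hcont h0
  refine ⟨r, ?_, ?_⟩
  · simp only at hr0 ⊢
    linarith
  · intro y hy
    simp only at hy hr0
    have hre : g k r = g (k + 1) r := by linarith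
    rcases lt_trichotomy y r with h | h | h
    · have := cross hk h hy.le
      linarith
    · exact h
    · have := cross hk h hre.le
      linarith

/-- the crossing point lies in `[1, ∞)` -/
theorem one_le_of_eq {k : ℕ} (hk : 1 ≤ k) {r : ℝ} (h : g k r = g (k + 1) r) : 1 ≤ r := by
  by_contra hlt
  rw [not_le] at hlt
  have := cross hk hlt h.le
  have := at_one hk
  linarith

end GK
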