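import Pool.Agent.R963.GK.Defs

/-!
The inequality for `r ∈ [1,2]` away from the majorized range, for MP_499f6d_pr.
-/

namespace GK

lemma e12_rpow_le_exp {b r : ℝ} (hb : 0 ≤ b) (hr : 0 ≤ r) : b ^ r ≤ Real.exp ((b - 1) * r) := by
  rw [Real.exp_mul]
  refine Real.rpow_le_rpow hb ?_ hr
  have := Real.add_one_le_exp (b - 1)
  linarith

lemma e12_amgm {r l : ℝ} (hr : 1 ≤ r) (hl0 : 0 ≤ l) (hl1 : l ≤ 1) :
    l * (1 - l) ^ r * (r + 1) ≤ (r / (r + 1)) ^ r := by
  have hr0 : 0 < r := by linarith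
  have hq : 0 < r / (r + 1) := by positivity
  have hb0 : 0 ≤ (1 - l) * (r + 1) / r := by
    have : 0 ≤ 1 - l := by linarith
    positivity
  have e1 : (1 - l) ^ r = (r / (r + 1)) ^ r * ((1 - l) * (r + 1) / r) ^ r := by
    rw [← Real.mul_rpow hq.le hb0]
    congr 1
    field_simp
  have h1 := e12_rpow_le_exp hb0 hr0.le
  have h2 : l * (r + 1) ≤ Real.exp (l * (r + 1) - 1) := by
    have := Real.add_one_le_exp (l * (r + 1) - 1)
    linarith
  have h3 : Real.exp (l * (r + 1) - 1) * Real.exp (((1 - l) * (r + 1) / r - 1) * r) = 1 := by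
    rw [← Real.exp_add]
    have : l * (r + 1) - 1 + ((1 - l) * (r + 1) / r - 1) * r = 0 := by
      field_simp
      ring
    rw [this, Real.exp_zero]
  have h4 : l * (r + 1) * ((1 - l) * (r + 1) / r) ^ r ≤ 1 :=
    le_trans (mul_le_mul h2 h1 (Real.rpow_nonneg hb0 r) (Real.exp_pos _).le) h3.le
  rw [e1]
  have h5 : 0 ≤ (r / (r + 1)) ^ r := by positivity
  calc l * ((r / (r + 1)) ^ r * ((1 - l) * (r + 1) / r) ^ r) * (r + 1)
      = (r / (r + 1)) ^ r * (l * (r + 1) * ((1 - l) * (r + 1) / r) ^ r) := by ring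
    _ ≤ (r / (r + 1)) ^ r * 1 := mul_le_mul_of_nonneg_left h4 h5
    _ = _ := mul_one _

/-- for `r ≤ 3/2` and `l ≤ 2/5` -/
lemma e12_small {r l : ℝ} (hr : 1 ≤ r) (hr2 : r ≤ 3 / 2) (hl0 : 0 ≤ l) (hl1 : l ≤ 2 / 5) :
    l * (1 - l) ^ r ≤ 2 / 5 * (3 / 5) ^ r := by
  have hb0 : 0 ≤ (1 - l) / (3 / 5) := by
    have : 0 ≤ 1 - l := by linarith
    positivity
  have e1 : (1 - l) ^ r = (3 / 5) ^ r * ((1 - l) / (3 / 5)) ^ r := by
    rw [← Real.mul_rpow (by norm_num) hb0]
    congr 1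
    field_simp
  have h1 := e12_rpow_le_exp (r := r) hb0 (by linarith)
  have h2 : l / (2 / 5) ≤ Real.exp (l / (2 / 5) - 1) := by
    have := Real.add_one_le_exp (l / (2 / 5) - 1)
    linarith
  have h3 : Real.exp (l / (2 / 5) - 1) * Real.exp (((1 - l) / (3 / 5) - 1) * r) ≤ 1 := by
    rw [← Real.exp_add]
    apply Real.exp_le_one_iff.mpr
    have : l / (2 / 5) - 1 + ((1 - l) / (3 / 5) - 1) * r
        = (2 / 5 - l) * (5 / 3) * (r - 3 / 2) := by ring
    rw [this]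
    exact mul_nonpos_of_nonneg_of_nonpos (by linarith) (by linarith)
  have h4 : l / (2 / 5) * ((1 - l) / (3 / 5)) ^ r ≤ 1 :=
    le_trans (mul_le_mul h2 h1 (Real.rpow_nonneg hb0 r) (Real.exp_pos _).le) h3
  rw [e1]
  have h5 : 0 ≤ ((3 : ℝ) / 5) ^ r := by positivity
  calc l * ((3 / 5) ^ r * ((1 - l) / (3 / 5)) ^ r)
      = (2 / 5 * (3 / 5) ^ r) * (l / (2 / 5) * ((1 - l) / (3 / 5)) ^ r) := by ring
    _ ≤ (2 / 5 * (3 / 5) ^ r) * 1 := mul_le_mul_of_nonneg_left h4 (by positivity)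
    _ = _ := mul_one _

lemma e12_log_lo : 0.9159 ≤ Real.log (5 / 2) := by
  have h1 : Real.log ((2 : ℝ) ^ 37) ≤ Real.log (((5 : ℝ) / 2) ^ 28) := by
    apply Real.log_le_log
    · positivity
    · norm_num
  rw [Real.log_pow, Real.log_pow] at h1
  have h2 := Real.log_two_gt_d9
  push_cast at h1
  linarith

lemma e12_log_hi : Real.log (5 / 2) ≤ 0.9168 := by
  have h1 : Real.log (((5 : ℝ) / 2) ^ 31) ≤ Real.log ((2 : ℝ) ^ 41) := by
    apply Real.log_le_log
    · positivity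
    · norm_num
  rw [Real.log_pow, Real.log_pow] at h1
  have h2 := Real.log_two_lt_d9
  push_cast at h1
  linarith

lemma e12_num1 {r : ℝ} (hr : 1 ≤ r) (hr2 : r ≤ 3 / 2) :
    2 / 5 * (r + 1) * (1 + 2 ^ r) ≤ 120 / 121 * (5 / 2) ^ r := by
  obtain ⟨u, rfl⟩ : ∃ u, r = 1 + u := ⟨r - 1, by ring⟩
  have hu0 : 0 ≤ u := by linarith
  have hu1 : u ≤ 1 / 2 := by linarith
  have e1 : (2 : ℝ) ^ (1 + u) = 2 * 2 ^ u := by
    rw [Real.rpow_add (by norm_num), Real.rpow_one]
  have e2 : ((5 : ℝ) / 2) ^ (1 + u) = 5 / 2 * (5 / 2) ^ u := by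
    rw [Real.rpow_add (by norm_num), Real.rpow_one]
  have h1 : (2 : ℝ) ^ u ≤ 1 + 0.8286 * u := by
    have h11 : (2 : ℝ) ^ u ≤ (1.4143 ^ (2 : ℝ)) ^ u := by
      apply Real.rpow_le_rpow (by norm_num) _ hu0
      rw [Real.rpow_two]
      norm_num
    rw [← Real.rpow_mul (by norm_num)] at h11
    have h12 := rpow_one_add_le_one_add_mul_self (s := 0.4143) (by norm_num)
      (p := 2 * u) (by linarith) (by linarith)
    have e3 : (1 : ℝ) + 0.4143 = 1.4143 := by norm_num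
    rw [e3] at h12
    linarith
  have h2 : 1 + 0.9159 * u + (0.9159 * u) ^ 2 / 2 ≤ ((5 : ℝ) / 2) ^ u := by
    rw [Real.rpow_def_of_pos (by norm_num)]
    have h21 : 0.9159 * u ≤ Real.log (5 / 2) * u := mul_le_mul_of_nonneg_right e12_log_lo hu0
    have h22 : 0 ≤ 0.9159 * u := by positivity
    have h23 := Real.quadratic_le_exp_of_nonneg (x := Real.log (5 / 2) * u) (by linarith)
    have h24 : (0.9159 * u) ^ 2 ≤ (Real.log (5 / 2) * u) ^ 2 := by gcongr
    linarith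
  rw [e1, e2]
  have h3 : 2 / 5 * (1 + u + 1) * (1 + 2 * 2 ^ u) ≤ 2 / 5 * (1 + u + 1) * (1 + 2 * (1 + 0.8286 * u)) := by
    have : 0 ≤ 2 / 5 * (1 + u + 1) := by positivity
    exact mul_le_mul_of_nonneg_left (by linarith) this
  refine le_trans h3 ?_
  have h4 : 120 / 121 * (5 / 2 * (1 + 0.9159 * u + (0.9159 * u) ^ 2 / 2))
      ≤ 120 / 121 * (5 / 2 * (5 / 2) ^ u) := by linarith
  refine le_trans ?_ h4
  nlinarith [sq_nonneg (u - 0.34)]

noncomputable def e12F (r : ℝ) : ℝ :=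
  r * (Real.log (2 / 3) + (Real.log r - Real.log (r + 1))) + Real.log (1 + 2 ^ r)

lemma e12F_deriv {r : ℝ} (hr : 0 < r) :
    HasDerivAt e12F (Real.log (2 / 3) + (Real.log r - Real.log (r + 1)) + 1 / (r + 1)
      + Real.log 2 * 2 ^ r / (1 + 2 ^ r)) r := by
  have h1 : HasDerivAt (fun r : ℝ => Real.log r) r⁻¹ r := Real.hasDerivAt_log hr.ne'
  have h2 : HasDerivAt (fun r : ℝ => Real.log (r + 1)) (1 / (r + 1)) r := by
    have := ((hasDerivAt_id r).add_const 1).log (by simp; linarith)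
    simpa using this
  have h3 : HasDerivAt (fun r : ℝ => Real.log (2 / 3) + (Real.log r - Real.log (r + 1)))
      (r⁻¹ - 1 / (r + 1)) r := (h1.sub h2).const_add _
  have h4 := (hasDerivAt_id r).mul h3
  have h5 : HasDerivAt (fun r : ℝ => (1 : ℝ) + 2 ^ r) (2 ^ r * Real.log 2) r := by
    have := ((hasDerivAt_id r).const_rpow (a := 2) (by norm_num)).const_add 1
    refine this.congr_deriv ?_
    simp only [id]
    ring
  have h6 := h5.log (by positivity)
  have h7 := h4.add h6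
  refine h7.congr_deriv ?_
  simp only [id]
  have : r + 1 ≠ 0 := by positivity
  field_simp
  ring

lemma e12_deriv_bound {r : ℝ} (hr : 3 / 2 ≤ r) :
    -0.008 ≤ Real.log (2 / 3) + (Real.log r - Real.log (r + 1)) + 1 / (r + 1)
      + Real.log 2 * 2 ^ r / (1 + 2 ^ r) := by
  have hr0 : 0 < r := by linarith
  have h1 : (2 * r - 3) / (5 * r) ≤ Real.log (5 * r / (3 * (r + 1))) := by
    have h11 := Real.one_sub_inv_le_log_of_pos (x := 5 * r / (3 * (r + 1))) (by positivity)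
    refine le_trans (le_of_eq ?_) h11
    field_simp
    ring
  have h2 : (2 * r - 3) / (5 * (r + 1)) ≤ (2 * r - 3) / (5 * r) := by
    apply div_le_div_of_nonneg_left (by linarith) (by positivity) (by linarith)
  have h3 : 2 / 5 - 1 / (r + 1) = (2 * r - 3) / (5 * (r + 1)) := by
    field_simp
    ring
  have h4 : Real.log (5 * r / (3 * (r + 1)))
      = Real.log (5 / 2) + Real.log (2 / 3) + (Real.log r - Real.log (r + 1)) := by
    have : 5 * r / (3 * (r + 1)) = (5 / 2) * (2 / 3) * (r / (r + 1)) := by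
      field_simp
    rw [this, Real.log_mul (by norm_num) (by positivity), Real.log_mul (by norm_num) (by norm_num),
      Real.log_div hr0.ne' (by positivity)]
  have h5 := e12_log_hi
  have h6 : 0.738 ≤ (2 : ℝ) ^ r / (1 + 2 ^ r) := by
    have h61 : (2.828 : ℝ) ≤ 2 ^ r := by
      have h62 : (2 : ℝ) ^ (3 / 2 : ℝ) ≤ 2 ^ r := Real.rpow_le_rpow_of_exponent_le (by norm_num) hr
      refine le_trans ?_ h62
      have h63 : (2.828 : ℝ) = (2.828 ^ (2 : ℝ)) ^ (1 / 2 : ℝ) := by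
        rw [← Real.rpow_mul (by norm_num)]
        norm_num
      have h64 : (2 : ℝ) ^ (3 / 2 : ℝ) = (2 ^ (3 : ℝ)) ^ (1 / 2 : ℝ) := by
        rw [← Real.rpow_mul (by norm_num)]
        norm_num
      rw [h63, h64]
      apply Real.rpow_le_rpow (by positivity) _ (by norm_num)
      norm_num
    rw [le_div_iff₀ (by positivity)]
    linarith
  have h7 : 0.6931 * 0.738 ≤ Real.log 2 * 2 ^ r / (1 + 2 ^ r) := by
    rw [mul_div_assoc]
    have := Real.log_two_gt_d9
    exact mul_le_mul (by linarith) h6 (by norm_num) (by linarith)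
  linarith

lemma e12_num2 {r : ℝ} (hr : 3 / 2 ≤ r) (hr2 : r ≤ 2) :
    (2 * r / (r + 1)) ^ r * (1 + 2 ^ r) ≤ 3 ^ r * (120 / 121) := by
  have hr0 : 0 < r := by linarith
  have hF2 : e12F 2 = Real.log (80 / 81) := by
    unfold e12F
    have e1 : (2 : ℝ) + 1 = 3 := by norm_num
    rw [e1, ← Real.log_div (by norm_num) (by norm_num)]
    have e2 : (2 : ℝ) * (Real.log (2 / 3) + Real.log (2 / 3)) = Real.log ((2 / 3) ^ 4) := by
      rw [Real.log_pow]
      push_cast
      ring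
    rw [e2, ← Real.log_mul (by norm_num) (by positivity)]
    congr 1
    rw [Real.rpow_two]
    norm_num
  have hF : e12F r ≤ Real.log (80 / 81) + 0.004 := by
    rcases eq_or_lt_of_le hr2 with h | h
    · rw [h, hF2]
      norm_num
    · have hcont : ContinuousOn e12F (Set.Icc r 2) := fun y hy =>
        (e12F_deriv (lt_of_lt_of_le hr0 hy.1)).continuousAt.continuousWithinAt
      obtain ⟨ξ, hξ, e1⟩ := exists_hasDerivAt_eq_slope e12F _ h hcont
        (fun y hy => e12F_deriv (lt_trans hr0 hy.1))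
      have h2 := e12_deriv_bound (r := ξ) (by linarith [hξ.1])
      rw [e1, hF2, le_div_iff₀ (by linarith)] at h2
      nlinarith
  have hlog : Real.log (80 / 81) + 0.004 ≤ Real.log (120 / 121) := by
    have h1 : Real.log (80 / 81) = - Real.log (81 / 80) := by
      rw [← Real.log_inv]
      norm_num
    have h2 : Real.log (120 / 121) = - Real.log (121 / 120) := by
      rw [← Real.log_inv]
      norm_num
    rw [h1, h2]
    have h3 : Real.log (81 / 80) = Real.log (121 / 120) + Real.log (243 / 242) := by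
      rw [← Real.log_mul (by norm_num) (by norm_num)]
      norm_num
    have h4 := Real.one_sub_inv_le_log_of_pos (x := 243 / 242) (by norm_num)
    rw [h3]
    norm_num at h4 ⊢
    linarith
  have hexp : Real.exp (e12F r) ≤ 120 / 121 := by
    rw [← Real.exp_log (show (0 : ℝ) < 120 / 121 by norm_num)]
    exact Real.exp_le_exp.mpr (le_trans hF hlog)
  have hexp2 : Real.exp (e12F r) = (2 * r / (3 * (r + 1))) ^ r * (1 + 2 ^ r) := by
    unfold e12F
    rw [Real.exp_add, Real.exp_log (by positivity)]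
    congr 1
    have e1 : Real.log (2 / 3) + (Real.log r - Real.log (r + 1))
        = Real.log (2 * r / (3 * (r + 1))) := by
      rw [← Real.log_div hr0.ne' (by positivity), ← Real.log_mul (by norm_num) (by positivity)]
      congr 1
      field_simp
    rw [e1, mul_comm, Real.rpow_def_of_pos (by positivity)]
  have e3 : (2 * r / (r + 1)) ^ r = 3 ^ r * (2 * r / (3 * (r + 1))) ^ r := by
    rw [← Real.mul_rpow (by norm_num) (by positivity)]
    congr 1
    field_simp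
  rw [e3, mul_assoc, ← hexp2]
  exact mul_le_mul_of_nonneg_left hexp (by positivity)

theorem e12 {r : ℝ} (hr : 1 ≤ r) (hr2 : r ≤ 2) {k m : ℕ} (hm : 2 ≤ m) (h5 : 5 * m ≤ 2 * k)
    (hL : ((k : ℝ) + 1 / 2) ^ (r + 1) / (r + 1) - r / 24 * ((k : ℝ) + 1 / 2) ^ (r - 1)
      - ((1 / 2 : ℝ) ^ (r + 1) / (r + 1) - r / 24 * (1 / 2 : ℝ) ^ (r - 1)) ≤ S k r) :
    (m : ℝ) * (2 * ((k : ℝ) - m) + 1) ^ r * (1 + 2 ^ r) ≤ 3 ^ r * S k r := by
  have hr0 : 0 < r := by linarith
  have hm' : (2 : ℝ) ≤ m := by exact_mod_cast hm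
  have h5' : 5 * (m : ℝ) ≤ 2 * k := by exact_mod_cast h5
  set x : ℝ := (k : ℝ) + 1 / 2 with hx
  have hx5 : 11 / 2 ≤ x := by linarith
  have hx0 : 0 < x := by linarith
  -- lower bound for S
  have hS : x ^ (r + 1) * (120 / 121) ≤ (r + 1) * S k r := by
    have e1 : x ^ (r + 1) = x ^ (r - 1) * x ^ 2 := by
      rw [← Real.rpow_natCast, ← Real.rpow_add hx0]
      congr 1
      push_cast
      ring
    have e2 : (1 / 2 : ℝ) ^ (r + 1) = (1 / 2 : ℝ) ^ (r - 1) * (1 / 4) := by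
      have : (1 / 4 : ℝ) = (1 / 2 : ℝ) ^ (2 : ℝ) := by
        rw [Real.rpow_two]
        norm_num
      rw [this, ← Real.rpow_add (by norm_num)]
      congr 1
      ring
    have h1 : 1 ≤ x ^ (r - 1) := Real.one_le_rpow (by linarith) (by linarith)
    have h2 : (1 / 2 : ℝ) ^ (r - 1) ≤ 1 :=
      Real.rpow_le_one (by norm_num) (by norm_num) (by linarith)
    have h3 : (r + 1) * (x ^ (r + 1) / (r + 1) - r / 24 * x ^ (r - 1)
      - ((1 / 2 : ℝ) ^ (r + 1) / (r + 1) - r / 24 * (1 / 2 : ℝ) ^ (r - 1)))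
        ≤ (r + 1) * S k r := mul_le_mul_of_nonneg_left hL (by linarith)
    have h4 : (r + 1) * (x ^ (r + 1) / (r + 1) - r / 24 * x ^ (r - 1)
      - ((1 / 2 : ℝ) ^ (r + 1) / (r + 1) - r / 24 * (1 / 2 : ℝ) ^ (r - 1)))
        = x ^ (r - 1) * x ^ 2 - r * (r + 1) / 24 * x ^ (r - 1)
          - (1 / 2 : ℝ) ^ (r - 1) * (1 / 4 - r * (r + 1) / 24) := by
      rw [e1, e2]
      have : r + 1 ≠ 0 := by positivity
      field_simp
    rw [h4] at h3
    have h5 : 0 ≤ 1 / 4 - r * (r + 1) / 24 := by nlinarith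
    have h6 : (1 / 2 : ℝ) ^ (r - 1) * (1 / 4 - r * (r + 1) / 24)
        ≤ x ^ (r - 1) * (1 / 4 - r * (r + 1) / 24) :=
      mul_le_mul_of_nonneg_right (h2.trans h1) h5
    have h7 : x ^ (r - 1) * (x ^ 2 * (120 / 121)) ≤ x ^ (r - 1) * (x ^ 2 - 1 / 4) := by
      apply mul_le_mul_of_nonneg_left _ (by linarith)
      nlinarith
    rw [e1]
    linarith
  -- rewrite the left side
  set l : ℝ := m / x with hl
  have hl0 : 0 ≤ l := by positivity
  have hl1 : l ≤ 2 / 5 := by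
    rw [hl, div_le_iff₀ hx0, hx]
    linarith
  have hmx : (m : ℝ) = l * x := by
    rw [hl]
    field_simp
  have e3 : 2 * ((k : ℝ) - m) + 1 = 2 * x * (1 - l) := by
    rw [hl, hx]
    have : (k : ℝ) + 1 / 2 ≠ 0 := by positivity
    field_simp
    ring
  have e4 : (m : ℝ) * (2 * ((k : ℝ) - m) + 1) ^ r * (1 + 2 ^ r)
      = x ^ (r + 1) * (l * (1 - l) ^ r * 2 ^ r * (1 + 2 ^ r)) := by
    rw [e3, Real.mul_rpow (by positivity) (by linarith), Real.mul_rpow (by norm_num) hx0.le,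
      Real.rpow_add hx0, Real.rpow_one]
    nth_rewrite 1 [hmx]
    ring
  rw [e4]
  have hxr : 0 < x ^ (r + 1) := Real.rpow_pos_of_pos hx0 _
  have hkey : l * (1 - l) ^ r * (r + 1) * 2 ^ r * (1 + 2 ^ r) ≤ 3 ^ r * (120 / 121) := by
    have h2r : (0 : ℝ) < 2 ^ r := by positivity
    rcases le_total r (3 / 2) with hc | hc
    · have h1 := e12_small hr hc hl0 hl1
      have h2 := e12_num1 hr hc
      have h3 : l * (1 - l) ^ r * (r + 1) * 2 ^ r * (1 + 2 ^ r)
          ≤ (2 / 5 * (3 / 5) ^ r) * (r + 1) * 2 ^ r * (1 + 2 ^ r) := by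
        gcongr
      refine le_trans h3 ?_
      have e5 : (3 / 5 : ℝ) ^ r * 2 ^ r = 3 ^ r * (2 / 5) ^ r := by
        rw [← Real.mul_rpow (by norm_num) (by norm_num),
          ← Real.mul_rpow (by norm_num) (by norm_num)]
        norm_num
      have e6 : (2 / 5 : ℝ) ^ r * (5 / 2) ^ r = 1 := by
        rw [← Real.mul_rpow (by norm_num) (by norm_num)]
        norm_num
      calc 2 / 5 * (3 / 5) ^ r * (r + 1) * 2 ^ r * (1 + 2 ^ r)
          = ((3 / 5) ^ r * 2 ^ r) * (2 / 5 * (r + 1) * (1 + 2 ^ r)) := by ring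
        _ = 3 ^ r * (2 / 5) ^ r * (2 / 5 * (r + 1) * (1 + 2 ^ r)) := by rw [e5]
        _ ≤ 3 ^ r * (2 / 5) ^ r * (120 / 121 * (5 / 2) ^ r) :=
            mul_le_mul_of_nonneg_left h2 (by positivity)
        _ = 3 ^ r * (120 / 121) * ((2 / 5) ^ r * (5 / 2) ^ r) := by ring
        _ = 3 ^ r * (120 / 121) := by rw [e6, mul_one]
    · have h1 := e12_amgm hr hl0 (by linarith)
      have h2 := e12_num2 hc hr2
      have h3 : l * (1 - l) ^ r * (r + 1) * 2 ^ r * (1 + 2 ^ r)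
          ≤ (r / (r + 1)) ^ r * 2 ^ r * (1 + 2 ^ r) := by
        gcongr
      refine le_trans h3 ?_
      have e5 : (r / (r + 1)) ^ r * 2 ^ r = (2 * r / (r + 1)) ^ r := by
        rw [← Real.mul_rpow (by positivity) (by norm_num)]
        congr 1
        ring
      rw [e5]
      exact h2
  have hr1 : 0 < r + 1 := by linarith
  -- conclude
  have h8 : (r + 1) * (x ^ (r + 1) * (l * (1 - l) ^ r * 2 ^ r * (1 + 2 ^ r)))
      ≤ (r + 1) * (3 ^ r * S k r) := by
    calc (r + 1) * (x ^ (r + 1) * (l * (1 - l) ^ r * 2 ^ r * (1 + 2 ^ r)))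
        = x ^ (r + 1) * (l * (1 - l) ^ r * (r + 1) * 2 ^ r * (1 + 2 ^ r)) := by ring
      _ ≤ x ^ (r + 1) * (3 ^ r * (120 / 121)) := mul_le_mul_of_nonneg_left hkey hxr.le
      _ = 3 ^ r * (x ^ (r + 1) * (120 / 121)) := by ring
      _ ≤ 3 ^ r * ((r + 1) * S k r) := mul_le_mul_of_nonneg_left hS (by positivity)
      _ = (r + 1) * (3 ^ r * S k r) := by ring
  exact le_of_mul_le_mul_left h8 hr1

end GK
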