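import Pool.Agent.R963.GK.Defs

/-!
Upper bound for the terms with `m ≥ 2`, `r ≥ 2`, for MP_499f6d_pr.
-/

namespace GK

lemma er_rpow_le_exp {b r : ℝ} (hb : 0 ≤ b) (hr : 0 ≤ r) : b ^ r ≤ Real.exp ((b - 1) * r) := by
  rw [Real.exp_mul]
  refine Real.rpow_le_rpow hb ?_ hr
  have := Real.add_one_le_exp (b - 1)
  linarith

lemma er_cubic_deriv (v : ℝ) :
    HasDerivAt (fun v : ℝ => (1 + v + v ^ 2 / 2 + v ^ 3 / 6) * Real.exp (-v))
      (-(v ^ 3 / 6) * Real.exp (-v)) v := by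
  have h1 : HasDerivAt (fun v : ℝ => 1 + v + v ^ 2 / 2 + v ^ 3 / 6)
      (1 + 2 * v / 2 + 3 * v ^ 2 / 6) v := by
    have h2 := ((hasDerivAt_pow 2 v).div_const 2)
    have h3 := ((hasDerivAt_pow 3 v).div_const 6)
    have h4 := (((hasDerivAt_id v).const_add 1).add h2).add h3
    refine h4.congr_deriv ?_
    norm_num
  have h5 : HasDerivAt (fun v : ℝ => Real.exp (-v)) (Real.exp (-v) * (-1)) v :=
    ((hasDerivAt_id v).neg).exp
  refine (h1.mul h5).congr_deriv ?_
  ring

/-- the cubic Taylor polynomial is below the exponential -/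
lemma er_cubic (v : ℝ) : 1 + v + v ^ 2 / 2 + v ^ 3 / 6 ≤ Real.exp v := by
  have hcont : Continuous (fun v : ℝ => (1 + v + v ^ 2 / 2 + v ^ 3 / 6) * Real.exp (-v)) :=
    continuous_iff_continuousAt.mpr (fun y => (er_cubic_deriv y).continuousAt)
  have h0 : (1 + (0 : ℝ) + 0 ^ 2 / 2 + 0 ^ 3 / 6) * Real.exp (-0) = 1 := by simp
  have hmain : (1 + v + v ^ 2 / 2 + v ^ 3 / 6) * Real.exp (-v) ≤ 1 := by
    rcases lt_trichotomy v 0 with h | h | h
    · obtain ⟨ξ, hξ, e⟩ := exists_hasDerivAt_eq_slope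
        (fun v : ℝ => (1 + v + v ^ 2 / 2 + v ^ 3 / 6) * Real.exp (-v)) _ h hcont.continuousOn
        (fun y _ => er_cubic_deriv y)
      rw [h0] at e
      have h1 : 0 ≤ -(ξ ^ 3 / 6) * Real.exp (-ξ) := by
        have : ξ ^ 3 ≤ 0 := by
          have : ξ ^ 3 = ξ * ξ ^ 2 := by ring
          rw [this]
          exact mul_nonpos_of_nonpos_of_nonneg hξ.2.le (sq_nonneg _)
        exact mul_nonneg (by linarith) (Real.exp_pos _).le
      rw [e, le_div_iff₀ (by linarith)] at h1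
      linarith
    · subst h
      simp
    · obtain ⟨ξ, hξ, e⟩ := exists_hasDerivAt_eq_slope
        (fun v : ℝ => (1 + v + v ^ 2 / 2 + v ^ 3 / 6) * Real.exp (-v)) _ h hcont.continuousOn
        (fun y _ => er_cubic_deriv y)
      rw [h0] at e
      have h1 : -(ξ ^ 3 / 6) * Real.exp (-ξ) ≤ 0 := by
        have : 0 ≤ ξ ^ 3 := pow_nonneg hξ.1.le 3
        exact mul_nonpos_of_nonpos_of_nonneg (by linarith) (Real.exp_pos _).le
      rw [e, div_le_iff₀ (by linarith)] at h1
      linarith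
  have h2 := mul_le_mul_of_nonneg_right hmain (Real.exp_pos v).le
  rw [mul_assoc, ← Real.exp_add] at h2
  simpa using h2

lemma er_poly_a {v : ℝ} (h1 : -1 ≤ v) (h2 : v ≤ 2.1) :
    1 + v ≤ 1.008 * (1 - 0.0073634 * (1 + v) ^ 2) * (1 + v + v ^ 2 / 2 + v ^ 3 / 6) := by
  have e1 : 0 ≤ 0.0005776 - 0.0142671 * v + 0.2 * v ^ 2 := by
    nlinarith [sq_nonneg (v - 0.0356)]
  have e2 : 0 ≤ 0.278 + 0.1519 * v - 0.00619 * v ^ 2 - 0.00124 * v ^ 3 := by
    have a1 : 0 ≤ (v + 1) * (2.1 - v) := mul_nonneg (by linarith) (by linarith)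
    have a2 : 0 ≤ (v + 1) * (2.1 - v) * (v + 1) := mul_nonneg a1 (by linarith)
    nlinarith
  have e3 := mul_nonneg (sq_nonneg v) e2
  have hv4 : 0 ≤ v ^ 4 := by positivity
  rcases le_total 0 v with hv | hv
  · have : 0 ≤ v ^ 5 := by positivity
    have : 0 ≤ v ^ 3 := by positivity
    nlinarith
  · have : v ^ 5 ≤ 0 := by
      have : v ^ 5 = v * v ^ 4 := by ring
      rw [this]
      exact mul_nonpos_of_nonpos_of_nonneg hv hv4
    have : v ^ 3 ≤ 0 := by
      have : v ^ 3 = v * v ^ 2 := by ring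
      rw [this]
      exact mul_nonpos_of_nonpos_of_nonneg hv (sq_nonneg _)
    nlinarith

lemma er_poly_b {v : ℝ} (h1 : -1 ≤ v) (h2 : v ≤ 7) :
    1 + v ≤ 1.0115 * (1 - (1 + v) ^ 2 / 92) * (1 + v + v ^ 2 / 2 + v ^ 3 / 6) := by
  have e1 : 0 ≤ 0.000505 - 0.021485 * v + 0.26 * v ^ 2 := by
    nlinarith [sq_nonneg (v - 0.0413)]
  have e2 : 0 ≤ 0.2072 + 0.14476 * v - 0.009163 * v ^ 2 - 0.0018326 * v ^ 3 := by
    have a1 : 0 ≤ (v + 1) * (7 - v) := mul_nonneg (by linarith) (by linarith)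
    have a2 : 0 ≤ (v + 1) * (7 - v) * (v + 10) := mul_nonneg a1 (by linarith)
    nlinarith
  have e3 := mul_nonneg (sq_nonneg v) e2
  have hv4 : 0 ≤ v ^ 4 := by positivity
  rcases le_total 0 v with hv | hv
  · have : 0 ≤ v ^ 5 := by positivity
    have : 0 ≤ v ^ 3 := by positivity
    nlinarith
  · have : v ^ 5 ≤ 0 := by
      have : v ^ 5 = v * v ^ 4 := by ring
      rw [this]
      exact mul_nonpos_of_nonpos_of_nonneg hv hv4
    have : v ^ 3 ≤ 0 := by
      have : v ^ 3 = v * v ^ 2 := by ring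
      rw [this]
      exact mul_nonpos_of_nonpos_of_nonneg hv (sq_nonneg _)
    nlinarith

lemma er_key_a {z δ : ℝ} (hz0 : 0 < z) (hz : z ≤ 3.1) (hδ : δ ≤ 0.0073634 * z ^ 2) :
    z ≤ 1.008 * (1 - δ) * Real.exp (z - 1) := by
  have hp := er_poly_a (v := z - 1) (by linarith) (by linarith)
  have hcub := er_cubic (z - 1)
  have e1 : 1 + (z - 1) = z := by ring
  rw [e1] at hp
  have hz2 : z ^ 2 ≤ 9.61 := by nlinarith
  have hpos : 0 ≤ 1 - 0.0073634 * z ^ 2 := by linarith
  calc z ≤ 1.008 * (1 - 0.0073634 * z ^ 2)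
        * (1 + (z - 1) + (z - 1) ^ 2 / 2 + (z - 1) ^ 3 / 6) := by
        rw [e1]
        exact hp
    _ ≤ 1.008 * (1 - 0.0073634 * z ^ 2) * Real.exp (z - 1) :=
        mul_le_mul_of_nonneg_left hcub (by positivity)
    _ ≤ 1.008 * (1 - δ) * Real.exp (z - 1) := by
        apply mul_le_mul_of_nonneg_right _ (Real.exp_pos _).le
        linarith

lemma er_key_b {z δ : ℝ} (hz0 : 0 < z) (hδ1 : δ ≤ z ^ 2 / 92) (hδ2 : δ ≤ 16 / 23) :
    z ≤ 1.0115 * (1 - δ) * Real.exp (z - 1) := by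
  rcases le_total z 8 with hz8 | hz8
  · have hp := er_poly_b (v := z - 1) (by linarith) (by linarith)
    have hcub := er_cubic (z - 1)
    have e1 : 1 + (z - 1) = z := by ring
    rw [e1] at hp
    have hz2 : z ^ 2 ≤ 64 := by nlinarith
    have hpos : 0 ≤ 1 - z ^ 2 / 92 := by linarith
    calc z ≤ 1.0115 * (1 - z ^ 2 / 92)
          * (1 + (z - 1) + (z - 1) ^ 2 / 2 + (z - 1) ^ 3 / 6) := by
          rw [e1]
          exact hp
      _ ≤ 1.0115 * (1 - z ^ 2 / 92) * Real.exp (z - 1) :=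
          mul_le_mul_of_nonneg_left hcub (by positivity)
      _ ≤ 1.0115 * (1 - δ) * Real.exp (z - 1) := by
          apply mul_le_mul_of_nonneg_right _ (Real.exp_pos _).le
          linarith
  · have hq := Real.quadratic_le_exp_of_nonneg (x := z - 1) (by linarith)
    have h1 : 0.3 * Real.exp (z - 1) ≤ 1.0115 * (1 - δ) * Real.exp (z - 1) := by
      apply mul_le_mul_of_nonneg_right _ (Real.exp_pos _).le
      linarith
    refine le_trans ?_ h1
    nlinarith

theorem er {r : ℝ} (hr : 2 ≤ r) {k m : ℕ} (hm : 2 ≤ m) (hmk : m ≤ k) {R : ℝ}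
    (hR : (R = 1.008 ∧ r ≤ 2.1) ∨ R = 1.0115)
    (hL : ((k : ℝ) + 1 / 2) ^ (r + 1) / (r + 1) - r / 23 * ((k : ℝ) + 1 / 2) ^ (r - 1) ≤ S k r) :
    (m : ℝ) * (2 * ((k : ℝ) - m) + 1) ^ r ≤ (2 * (k : ℝ) - 1) ^ r ∨
      (m : ℝ) * (2 * ((k : ℝ) - m) + 1) ^ r ≤ R * A r * S k r := by
  have hr0 : 0 < r := by linarith
  have hm' : (2 : ℝ) ≤ m := by exact_mod_cast hm
  have hmk' : (m : ℝ) ≤ k := by exact_mod_cast hmk
  set x : ℝ := (k : ℝ) + 1 / 2 with hx
  have hx2 : 5 / 2 ≤ x := by linarith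
  have hx0 : 0 < x := by linarith
  have hmx : (m : ℝ) < x := by linarith
  rcases lt_or_ge (4 * x) (r + 1) with hc | hc
  · left
    have hx1 : 0 < x - 1 := by linarith
    have hb0 : 0 ≤ (x - m) / (x - 1) := div_nonneg (by linarith) hx1.le
    have e1 : 2 * ((k : ℝ) - m) + 1 = 2 * (x - 1) * ((x - m) / (x - 1)) := by
      field_simp
      rw [hx]
      ring
    have e2 : 2 * (k : ℝ) - 1 = 2 * (x - 1) := by
      rw [hx]
      ring
    rw [e1, e2, Real.mul_rpow (by linarith) hb0]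
    have h1 := er_rpow_le_exp hb0 hr0.le
    have h2 : ((x - m) / (x - 1) - 1) * r ≤ -(4 * ((m : ℝ) - 1)) := by
      have e3 : ((x - m) / (x - 1) - 1) * r = -(((m : ℝ) - 1) * (r / (x - 1))) := by
        field_simp
        ring
      rw [e3]
      have h3 : 4 ≤ r / (x - 1) := by
        rw [le_div_iff₀ hx1]
        linarith
      have h4 : ((m : ℝ) - 1) * 4 ≤ ((m : ℝ) - 1) * (r / (x - 1)) :=
        mul_le_mul_of_nonneg_left h3 (by linarith)
      linarith
    have h5 : ((x - m) / (x - 1)) ^ r ≤ Real.exp (-(4 * ((m : ℝ) - 1))) :=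
      h1.trans (Real.exp_le_exp.mpr h2)
    have h6 : (m : ℝ) * Real.exp (-(4 * ((m : ℝ) - 1))) ≤ 1 := by
      rw [Real.exp_neg, ← div_eq_mul_inv, div_le_one (Real.exp_pos _)]
      have := Real.add_one_le_exp (4 * ((m : ℝ) - 1))
      linarith
    have h7 : 0 < (2 * (x - 1)) ^ r := Real.rpow_pos_of_pos (by linarith) r
    calc (m : ℝ) * ((2 * (x - 1)) ^ r * ((x - m) / (x - 1)) ^ r)
        = (2 * (x - 1)) ^ r * (m * ((x - m) / (x - 1)) ^ r) := by ring
      _ ≤ (2 * (x - 1)) ^ r * (m * Real.exp (-(4 * ((m : ℝ) - 1)))) := by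
          apply mul_le_mul_of_nonneg_left _ h7.le
          exact mul_le_mul_of_nonneg_left h5 (by linarith)
      _ ≤ (2 * (x - 1)) ^ r * 1 := mul_le_mul_of_nonneg_left h6 h7.le
      _ = _ := mul_one _
  · right
    set z : ℝ := m * (r + 1) / x with hz
    set b : ℝ := (r + 1 - z) / r with hb
    set δ : ℝ := r * (r + 1) / (23 * x ^ 2) with hδ
    have hr1 : 0 < r + 1 := by linarith
    have hz0 : 0 < z := by positivity
    have hzr : z ≤ r + 1 := by
      rw [hz, div_le_iff₀ hx0]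
      nlinarith
    have hb0 : 0 ≤ b := div_nonneg (by linarith) hr0.le
    have hbr : b ^ r ≤ Real.exp (1 - z) := by
      have h1 := er_rpow_le_exp hb0 hr0.le
      have e1 : (b - 1) * r = 1 - z := by
        rw [hb]
        field_simp
        ring
      rwa [e1] at h1
    -- bounds on δ
    have hδz : δ = z ^ 2 * (r / (r + 1)) / (23 * (m : ℝ) ^ 2) := by
      rw [hδ, hz]
      field_simp
    have hm4 : (4 : ℝ) ≤ (m : ℝ) ^ 2 := by nlinarith
    have hδ0 : 0 ≤ δ := by positivity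
    have hrr : r / (r + 1) ≤ 1 := by
      rw [div_le_one hr1]
      linarith
    have hδ1 : δ ≤ z ^ 2 / 92 := by
      rw [hδz]
      calc z ^ 2 * (r / (r + 1)) / (23 * (m : ℝ) ^ 2) ≤ z ^ 2 * 1 / (23 * 4) := by
            gcongr
        _ = z ^ 2 / 92 := by ring
    have hδ2 : δ ≤ 16 / 23 := by
      rw [hδ, div_le_div_iff₀ (by positivity) (by norm_num)]
      have : (r + 1) * (r + 1) ≤ (4 * x) * (4 * x) := mul_le_mul hc hc hr1.le (by linarith)
      nlinarith
    -- the key inequality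
    have hkey : z * Real.exp (1 - z) ≤ R * (1 - δ) := by
      have hz' : z ≤ R * (1 - δ) * Real.exp (z - 1) := by
        rcases hR with ⟨hR, hr2⟩ | hR
        · have hθ : r / (r + 1) ≤ 2.1 / 3.1 := by
            rw [div_le_div_iff₀ hr1 (by norm_num)]
            linarith
          have hδ3 : δ ≤ 0.0073634 * z ^ 2 := by
            rw [hδz]
            calc z ^ 2 * (r / (r + 1)) / (23 * (m : ℝ) ^ 2) ≤ z ^ 2 * (2.1 / 3.1) / (23 * 4) := by
                  gcongr
              _ ≤ 0.0073634 * z ^ 2 := by nlinarith [sq_nonneg z]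
          rw [hR]
          exact er_key_a hz0 (by linarith) hδ3
        · rw [hR]
          exact er_key_b hz0 hδ1 hδ2
      have h2 := mul_le_mul_of_nonneg_right hz' (Real.exp_pos (1 - z)).le
      rw [mul_assoc (R * (1 - δ)), ← Real.exp_add] at h2
      have e2 : z - 1 + (1 - z) = 0 := by ring
      rw [e2, Real.exp_zero, mul_one] at h2
      exact h2
    have hR0 : 0 ≤ R := by
      rcases hR with ⟨hR, _⟩ | hR <;> rw [hR] <;> norm_num
    -- lower bound for S
    have e1 : x ^ (r + 1) = x ^ (r - 1) * x ^ 2 := by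
      rw [← Real.rpow_natCast, ← Real.rpow_add hx0]
      congr 1
      push_cast
      ring
    have hS : x ^ (r + 1) / (r + 1) * (1 - δ) ≤ S k r := by
      refine le_trans (le_of_eq ?_) hL
      rw [hδ, e1]
      field_simp
    -- rewriting
    have e3 : 2 * ((k : ℝ) - m) + 1 = 2 * r / (r + 1) * x * b := by
      rw [hb, hz]
      field_simp
      rw [hx]
      ring
    have e4 : (m : ℝ) = z * x / (r + 1) := by
      rw [hz]
      field_simp
    have hAdef : A r = (2 * r / (r + 1)) ^ r := rfl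
    have hA : 0 < A r := by
      rw [hAdef]
      positivity
    have e5 : (2 * ((k : ℝ) - m) + 1) ^ r = A r * x ^ r * b ^ r := by
      rw [e3, Real.mul_rpow (by positivity) hb0, Real.mul_rpow (by positivity) hx0.le, hAdef]
    have e6 : x ^ (r + 1) = x ^ r * x := by
      rw [Real.rpow_add hx0, Real.rpow_one]
    have hxr : 0 < x ^ r := Real.rpow_pos_of_pos hx0 r
    calc (m : ℝ) * (2 * ((k : ℝ) - m) + 1) ^ r
        = A r * (x ^ r * x / (r + 1)) * (z * b ^ r) := by
          rw [e5]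
          nth_rewrite 1 [e4]
          ring
      _ ≤ A r * (x ^ r * x / (r + 1)) * (z * Real.exp (1 - z)) := by
          apply mul_le_mul_of_nonneg_left _ (by positivity)
          exact mul_le_mul_of_nonneg_left hbr hz0.le
      _ ≤ A r * (x ^ r * x / (r + 1)) * (R * (1 - δ)) :=
          mul_le_mul_of_nonneg_left hkey (by positivity)
      _ = R * A r * (x ^ (r + 1) / (r + 1) * (1 - δ)) := by
          rw [e6]
          ring
      _ ≤ R * A r * S k r := mul_le_mul_of_nonneg_left hS (by positivity)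

end GK
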