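import Pool.Agent.R963.GK.Defs

/-!
Endpoint evaluations for MP_499f6d_pr.
-/

set_option autoImplicit false

namespace GK

open Finset

lemma pw_lo20 {x q : ℝ} (hx : 0 ≤ x) (h : q ^ 20 ≤ x ^ 41) : q ≤ x ^ (41 / 20 : ℝ) := by
  have e : (x ^ (41 / 20 : ℝ)) ^ 20 = x ^ 41 := by
    rw [← Real.rpow_natCast, ← Real.rpow_mul hx, ← Real.rpow_natCast]; norm_num
  rw [← e] at h
  exact le_of_pow_le_pow_left₀ (by norm_num) (Real.rpow_nonneg hx _) h

lemma pw_hi20 {x q : ℝ} (hx : 0 ≤ x) (hq : 0 ≤ q) (h : x ^ 41 ≤ q ^ 20) : x ^ (41 / 20 : ℝ) ≤ q := by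
  have e : (x ^ (41 / 20 : ℝ)) ^ 20 = x ^ 41 := by
    rw [← Real.rpow_natCast, ← Real.rpow_mul hx, ← Real.rpow_natCast]; norm_num
  rw [← e] at h
  exact le_of_pow_le_pow_left₀ (by norm_num) hq h

lemma pw_lo10 {x q : ℝ} (hx : 0 ≤ x) (h : q ^ 10 ≤ x ^ 21) : q ≤ x ^ (21 / 10 : ℝ) := by
  have e : (x ^ (21 / 10 : ℝ)) ^ 10 = x ^ 21 := by
    rw [← Real.rpow_natCast, ← Real.rpow_mul hx, ← Real.rpow_natCast]; norm_num
  rw [← e] at h
  exact le_of_pow_le_pow_left₀ (by norm_num) (Real.rpow_nonneg hx _) h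

lemma pw_hi10 {x q : ℝ} (hx : 0 ≤ x) (hq : 0 ≤ q) (h : x ^ 21 ≤ q ^ 10) : x ^ (21 / 10 : ℝ) ≤ q := by
  have e : (x ^ (21 / 10 : ℝ)) ^ 10 = x ^ 21 := by
    rw [← Real.rpow_natCast, ← Real.rpow_mul hx, ← Real.rpow_natCast]; norm_num
  rw [← e] at h
  exact le_of_pow_le_pow_left₀ (by norm_num) hq h

lemma S_two (r : ℝ) : S 2 r = 1 + (2 : ℝ) ^ r := by
  unfold S
  rw [show Finset.Icc 1 2 = {1, 2} from rfl, Finset.sum_pair (by norm_num)]
  norm_num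

lemma S_three (r : ℝ) : S 3 r = 1 + (2 : ℝ) ^ r + (3 : ℝ) ^ r := by
  unfold S
  rw [show Finset.Icc 1 3 = {1, 2, 3} from rfl, Finset.sum_insert (by decide),
    Finset.sum_pair (by norm_num)]
  norm_num
  ring

theorem end2 : 1.008 * A 2 ≤ g 2 2 := by
  unfold A g
  rw [S_two]
  norm_num [Real.rpow_two, Real.rpow_ofNat]

lemma fin_aux {c a α S' σ w : ℝ} (hc : 0 ≤ c) (_ha : 0 ≤ a) (h1 : a ≤ α) (hS : 0 < S') (h2 : S' ≤ σ)
    (h3 : c * α * σ ≤ w) : c * a ≤ w / S' := by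
  rw [le_div_iff₀ hS]
  calc c * a * S' ≤ c * α * σ := by
        apply mul_le_mul (mul_le_mul_of_nonneg_left h1 hc) h2 hS.le
        exact mul_nonneg hc (_ha.trans h1)
    _ ≤ w := h3

theorem end2' : 1.008 * A (41 / 20) ≤ g 2 (41 / 20) := by
  unfold A g
  rw [S_two]
  have h1 : (2 * (41 / 20) / (41 / 20 + 1) : ℝ) ^ (41 / 20 : ℝ) ≤ 1834 / 1000 := by
    apply pw_hi20 (by norm_num) (by norm_num)
    norm_num
  have h2 : (2 : ℝ) ^ (41 / 20 : ℝ) ≤ 41411 / 10000 := by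
    apply pw_hi20 (by norm_num) (by norm_num)
    norm_num
  have h3 : (9508 / 1000 : ℝ) ≤ (3 : ℝ) ^ (41 / 20 : ℝ) := by
    apply pw_lo20 (by norm_num)
    norm_num
  have e : (2 * ((2 : ℕ) : ℝ) - 1) = 3 := by norm_num
  rw [e]
  refine fin_aux (by norm_num) (by positivity) h1 (by positivity) (add_le_add_right h2 1)
    (le_trans (by norm_num) h3)

theorem end3 : 1.008 * A (41 / 20) ≤ g 3 (41 / 20) := by
  unfold A g
  rw [S_three]
  have h1 : (2 * (41 / 20) / (41 / 20 + 1) : ℝ) ^ (41 / 20 : ℝ) ≤ 1834 / 1000 := by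
    apply pw_hi20 (by norm_num) (by norm_num)
    norm_num
  have h2 : (2 : ℝ) ^ (41 / 20 : ℝ) ≤ 41411 / 10000 := by
    apply pw_hi20 (by norm_num) (by norm_num)
    norm_num
  have h3 : (3 : ℝ) ^ (41 / 20 : ℝ) ≤ 95083 / 10000 := by
    apply pw_hi20 (by norm_num) (by norm_num)
    norm_num
  have h4 : (270949 / 10000 : ℝ) ≤ (5 : ℝ) ^ (41 / 20 : ℝ) := by
    apply pw_lo20 (by norm_num)
    norm_num
  have e : (2 * ((3 : ℕ) : ℝ) - 1) = 5 := by norm_num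
  rw [e]
  refine fin_aux (by norm_num) (by positivity) h1 (by positivity)
    (add_le_add (add_le_add_right h2 1) h3) (le_trans (by norm_num) h4)

theorem end3' : 1.0115 * A (21 / 10) ≤ g 3 (21 / 10) := by
  unfold A g
  rw [S_three]
  have h1 : (2 * (21 / 10) / (21 / 10 + 1) : ℝ) ^ (21 / 10 : ℝ) ≤ 18922 / 10000 := by
    apply pw_hi10 (by norm_num) (by norm_num)
    norm_num
  have h2 : (2 : ℝ) ^ (21 / 10 : ℝ) ≤ 42871 / 10000 := by
    apply pw_hi10 (by norm_num) (by norm_num)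
    norm_num
  have h3 : (3 : ℝ) ^ (21 / 10 : ℝ) ≤ 100452 / 10000 := by
    apply pw_hi10 (by norm_num) (by norm_num)
    norm_num
  have h4 : (29365 / 1000 : ℝ) ≤ (5 : ℝ) ^ (21 / 10 : ℝ) := by
    apply pw_lo10 (by norm_num)
    norm_num
  have e : (2 * ((3 : ℕ) : ℝ) - 1) = 5 := by norm_num
  rw [e]
  refine fin_aux (by norm_num) (by positivity) h1 (by positivity)
    (add_le_add (add_le_add_right h2 1) h3) (le_trans (by norm_num) h4)

theorem end3'' : 1.0115 * A 3 ≤ g 3 3 := by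
  unfold A g
  rw [S_three]
  norm_num [Real.rpow_ofNat]

/-! ### The integer end points -/

lemma cubic {x : ℝ} (hx : 0 ≤ x) (n : ℕ) :
    1 + n * x + n * (n - 1) / 2 * x ^ 2 + n * (n - 1) * (n - 2) / 6 * x ^ 3 ≤ (1 + x) ^ n := by
  induction n with
  | zero => simp
  | succ n ih =>
    have h1 := mul_le_mul_of_nonneg_right ih (by linarith : (0 : ℝ) ≤ 1 + x)
    rw [pow_succ]
    refine le_trans ?_ h1
    have h2 : (0 : ℝ) ≤ n * (n - 1) * (n - 2) := by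
      rcases n with _ | _ | n
      · simp
      · simp
      · push_cast
        have : (0 : ℝ) ≤ n := Nat.cast_nonneg n
        have e : ((n : ℝ) + 1 + 1) * ((n : ℝ) + 1 + 1 - 1) * ((n : ℝ) + 1 + 1 - 2) =
          (n + 2) * (n + 1) * n := by ring
        rw [e]; positivity
    have h3 : (0 : ℝ) ≤ n * (n - 1) * (n - 2) / 6 * x ^ 4 := by positivity
    push_cast
    nlinarith [h3]

lemma geo_aux {q : ℝ} (hq0 : 0 ≤ q) (hq1 : q < 1) (K : ℕ) :
    ∑ i ∈ Icc 1 K, q ^ (K - i) ≤ 1 / (1 - q) := by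
  induction K with
  | zero => simp; linarith
  | succ K ih =>
    rw [Finset.sum_Icc_succ_top (by omega), Nat.sub_self, pow_zero]
    have e : ∑ i ∈ Icc 1 K, q ^ (K + 1 - i) = q * ∑ i ∈ Icc 1 K, q ^ (K - i) := by
      rw [Finset.mul_sum]
      refine Finset.sum_congr rfl fun i hi => ?_
      have := (Finset.mem_Icc.1 hi).2
      rw [show K + 1 - i = (K - i) + 1 by omega, pow_succ, mul_comm]
    rw [e]
    have h1 : 0 < 1 - q := by linarith
    calc q * ∑ i ∈ Icc 1 K, q ^ (K - i) + 1 ≤ q * (1 / (1 - q)) + 1 := by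
          have := mul_le_mul_of_nonneg_left ih hq0
          linarith
      _ = 1 / (1 - q) := by field_simp; ring

/-- power sums against the geometric series -/
lemma geo {K M : ℕ} (hK : 1 ≤ K) (hM : 1 ≤ M) :
    ∑ i ∈ Icc 1 K, (i : ℝ) ^ M ≤ (K : ℝ) ^ M * (1 / (1 - Real.exp (-((M : ℝ) / K)))) := by
  have hK0 : (0 : ℝ) < K := by exact_mod_cast hK
  have hM0 : (0 : ℝ) < M := by exact_mod_cast hM
  set q := Real.exp (-((M : ℝ) / K)) with hq
  have hq1 : q < 1 := by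
    rw [hq, Real.exp_lt_one_iff]
    have : 0 < (M : ℝ) / K := by positivity
    linarith
  refine le_trans ?_ (mul_le_mul_of_nonneg_left (geo_aux (Real.exp_pos _).le hq1 K) (by positivity))
  rw [Finset.mul_sum]
  refine Finset.sum_le_sum fun i hi => ?_
  have hi1 := (Finset.mem_Icc.1 hi).2
  have h1 : (i : ℝ) / K ≤ Real.exp (-(((K - i : ℕ) : ℝ) / K)) := by
    have := Real.add_one_le_exp (-(((K - i : ℕ) : ℝ) / K))
    refine le_trans (le_of_eq ?_) this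
    rw [Nat.cast_sub hi1]
    field_simp
    ring
  have h2 : ((i : ℝ) / K) ^ M ≤ q ^ (K - i) := by
    refine (pow_le_pow_left₀ (by positivity) h1 M).trans (le_of_eq ?_)
    rw [hq, ← Real.exp_nat_mul, ← Real.exp_nat_mul]
    congr 1
    field_simp
  rw [div_pow, div_le_iff₀ (by positivity)] at h2
  rw [mul_comm]; exact h2

lemma small1 : ∀ n < 31, 3 ≤ n →
    10115 * ((2 * n) ^ n * ∑ i ∈ Icc 1 (n + 1), i ^ n) ≤ 10000 * ((2 * n + 1) * (n + 1)) ^ n := by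
  decide +kernel

lemma small2 : ∀ N < 32, 4 ≤ N →
    10115 * ((2 * N) ^ N * ∑ i ∈ Icc 1 N, i ^ N) ≤ 10000 * ((2 * N - 1) * (N + 1)) ^ N := by
  decide +kernel

lemma first_ineq {n : ℕ} (hn : 3 ≤ n) :
    1.0115 * ((2 * (n : ℝ)) ^ n * ∑ i ∈ Icc 1 (n + 1), (i : ℝ) ^ n) ≤
      ((2 * (n : ℝ) + 1) * (n + 1)) ^ n := by
  rcases lt_or_ge n 31 with h | h
  · have h1 := small1 n h hn
    have h2 : (10115 : ℝ) * ((2 * (n : ℝ)) ^ n * ∑ i ∈ Icc 1 (n + 1), (i : ℝ) ^ n) ≤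
        10000 * ((2 * (n : ℝ) + 1) * (n + 1)) ^ n := by exact_mod_cast h1
    linarith
  · have hn0 : (31 : ℝ) ≤ n := by exact_mod_cast h
    have hnp : (0 : ℝ) < n := by linarith
    have hg := geo (K := n + 1) (M := n) (by omega) (by omega)
    set q := Real.exp (-((n : ℝ) / ((n + 1 : ℕ) : ℝ))) with hq
    have hq1 : q ≤ 0.3815 := by
      rw [hq, Real.exp_neg]
      have h1 : (2.7182818283 : ℝ) * (31 / 32) ≤ Real.exp ((n : ℝ) / ((n + 1 : ℕ) : ℝ)) := by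
        have e : (n : ℝ) / ((n + 1 : ℕ) : ℝ) = 1 + (-(1 / ((n : ℝ) + 1))) := by
          push_cast; field_simp; ring
        rw [e, Real.exp_add]
        have h2 := Real.exp_one_gt_d9
        have h3 := Real.add_one_le_exp (-(1 / ((n : ℝ) + 1)))
        have h4 : 1 / ((n : ℝ) + 1) ≤ 1 / 32 :=
          one_div_le_one_div_of_le (by norm_num) (by linarith)
        exact mul_le_mul h2.le (by linarith) (by norm_num) (Real.exp_pos _).le
      rw [inv_le_comm₀ (Real.exp_pos _) (by norm_num)]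
      refine le_trans ?_ h1
      norm_num
    have hc := cubic (x := 1 / (2 * (n : ℝ))) (by positivity) n
    have e : 1 + (n : ℝ) * (1 / (2 * (n : ℝ))) + n * (n - 1) / 2 * (1 / (2 * (n : ℝ))) ^ 2 +
        n * (n - 1) * (n - 2) / 6 * (1 / (2 * (n : ℝ))) ^ 3 =
        3 / 2 + (1 - 1 / (n : ℝ)) / 8 + (1 - 1 / (n : ℝ)) * (1 - 2 * (1 / (n : ℝ))) / 48 := by
      field_simp; ring
    rw [e] at hc
    have ht : 1 / (n : ℝ) ≤ 1 / 31 := one_div_le_one_div_of_le (by norm_num) hn0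
    have h5 : (30 / 31 : ℝ) * (29 / 31) ≤ (1 - 1 / (n : ℝ)) * (1 - 2 * (1 / (n : ℝ))) :=
      mul_le_mul (by linarith) (by linarith) (by norm_num) (by linarith)
    have h6 : 1.0115 * (1 / (1 - q)) ≤ (1 + 1 / (2 * (n : ℝ))) ^ n := by
      refine le_trans ?_ hc
      have h7 : 1 / (1 - q) ≤ 1 / 0.6185 :=
        one_div_le_one_div_of_le (by norm_num) (by linarith)
      norm_num at h7 h5 ht ⊢
      linarith
    have e2 : ((2 * (n : ℝ) + 1) * (n + 1)) ^ n =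
        (2 * (n : ℝ)) ^ n * (((n + 1 : ℕ) : ℝ) ^ n * (1 + 1 / (2 * (n : ℝ))) ^ n) := by
      rw [← mul_pow, ← mul_pow]
      congr 1
      push_cast
      field_simp
    rw [e2]
    calc 1.0115 * ((2 * (n : ℝ)) ^ n * ∑ i ∈ Icc 1 (n + 1), (i : ℝ) ^ n)
        = (2 * (n : ℝ)) ^ n * (1.0115 * ∑ i ∈ Icc 1 (n + 1), (i : ℝ) ^ n) := by ring
      _ ≤ (2 * (n : ℝ)) ^ n * (1.0115 * (((n + 1 : ℕ) : ℝ) ^ n * (1 / (1 - q)))) := by
          refine mul_le_mul_of_nonneg_left ?_ (by positivity)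
          exact mul_le_mul_of_nonneg_left hg (by norm_num)
      _ = (2 * (n : ℝ)) ^ n * (((n + 1 : ℕ) : ℝ) ^ n * (1.0115 * (1 / (1 - q)))) := by ring
      _ ≤ _ := by
          refine mul_le_mul_of_nonneg_left ?_ (by positivity)
          exact mul_le_mul_of_nonneg_left h6 (by positivity)

lemma second_ineq {n : ℕ} (hn : 4 ≤ n) :
    1.0115 * ((2 * (n : ℝ)) ^ n * ∑ i ∈ Icc 1 n, (i : ℝ) ^ n) ≤
      ((2 * (n : ℝ) - 1) * (n + 1)) ^ n := by
  rcases lt_or_ge n 32 with h | h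
  · have h1 := small2 n h hn
    have e : ((2 * n - 1 : ℕ) : ℝ) = 2 * (n : ℝ) - 1 := by
      rw [Nat.cast_sub (by omega)]; push_cast; ring
    have h2 : (10115 : ℝ) * ((2 * (n : ℝ)) ^ n * ∑ i ∈ Icc 1 n, (i : ℝ) ^ n) ≤
        10000 * (((2 * n - 1 : ℕ) : ℝ) * (n + 1)) ^ n := by exact_mod_cast h1
    rw [e] at h2
    linarith
  · have hn0 : (32 : ℝ) ≤ n := by exact_mod_cast h
    have hnp : (0 : ℝ) < n := by linarith
    have hg := geo (K := n) (M := n) (by omega) (by omega)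
    rw [div_self hnp.ne'] at hg
    set q := Real.exp (-1) with hq
    have hq1 : q ≤ 0.36788 := by
      rw [hq, Real.exp_neg, inv_le_comm₀ (Real.exp_pos _) (by norm_num)]
      refine le_trans ?_ Real.exp_one_gt_d9.le
      norm_num
    have hx0 : 0 ≤ ((n : ℝ) - 1) / (2 * n ^ 2) := by
      have : (0 : ℝ) ≤ n - 1 := by linarith
      positivity
    have hc := cubic (x := ((n : ℝ) - 1) / (2 * n ^ 2)) hx0 n
    have e : 1 + (n : ℝ) * (((n : ℝ) - 1) / (2 * n ^ 2)) +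
        n * (n - 1) / 2 * (((n : ℝ) - 1) / (2 * n ^ 2)) ^ 2 +
        n * (n - 1) * (n - 2) / 6 * (((n : ℝ) - 1) / (2 * n ^ 2)) ^ 3 =
        1 + (1 - 1 / (n : ℝ)) / 2 + (1 - 1 / (n : ℝ)) ^ 3 / 8 +
          (1 - 1 / (n : ℝ)) ^ 4 * (1 - 2 * (1 / (n : ℝ))) / 48 := by
      field_simp; ring
    rw [e] at hc
    have ht : 1 / (n : ℝ) ≤ 1 / 32 := one_div_le_one_div_of_le (by norm_num) hn0
    have h3 : (31 / 32 : ℝ) ^ 3 ≤ (1 - 1 / (n : ℝ)) ^ 3 :=
      pow_le_pow_left₀ (by norm_num) (by linarith) 3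
    have h4 : (31 / 32 : ℝ) ^ 4 ≤ (1 - 1 / (n : ℝ)) ^ 4 :=
      pow_le_pow_left₀ (by norm_num) (by linarith) 4
    have h5 : (31 / 32 : ℝ) ^ 4 * (30 / 32) ≤ (1 - 1 / (n : ℝ)) ^ 4 * (1 - 2 * (1 / (n : ℝ))) :=
      mul_le_mul h4 (by linarith) (by norm_num) (le_trans (by norm_num) h4)
    have h6 : 1.0115 * (1 / (1 - q)) ≤ (1 + ((n : ℝ) - 1) / (2 * n ^ 2)) ^ n := by
      refine le_trans ?_ hc
      have h7 : 1 / (1 - q) ≤ 1 / 0.63212 :=
        one_div_le_one_div_of_le (by norm_num) (by linarith)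
      norm_num at h7 h5 h3 ht ⊢
      linarith
    have e2 : ((2 * (n : ℝ) - 1) * (n + 1)) ^ n =
        (2 * (n : ℝ)) ^ n * ((n : ℝ) ^ n * (1 + ((n : ℝ) - 1) / (2 * n ^ 2)) ^ n) := by
      rw [← mul_pow, ← mul_pow]
      congr 1
      field_simp
      ring
    rw [e2]
    calc 1.0115 * ((2 * (n : ℝ)) ^ n * ∑ i ∈ Icc 1 n, (i : ℝ) ^ n)
        = (2 * (n : ℝ)) ^ n * (1.0115 * ∑ i ∈ Icc 1 n, (i : ℝ) ^ n) := by ring
      _ ≤ (2 * (n : ℝ)) ^ n * (1.0115 * ((n : ℝ) ^ n * (1 / (1 - q)))) := by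
          refine mul_le_mul_of_nonneg_left ?_ (by positivity)
          exact mul_le_mul_of_nonneg_left hg (by norm_num)
      _ = (2 * (n : ℝ)) ^ n * ((n : ℝ) ^ n * (1.0115 * (1 / (1 - q)))) := by ring
      _ ≤ _ := by
          refine mul_le_mul_of_nonneg_left ?_ (by positivity)
          exact mul_le_mul_of_nonneg_left h6 (by positivity)

lemma S_nat (k n : ℕ) : S k (n : ℝ) = ∑ i ∈ Icc 1 k, (i : ℝ) ^ n := by
  unfold S
  exact Finset.sum_congr rfl fun i _ => Real.rpow_natCast _ _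

lemma S_nat_pos {k n : ℕ} (hk : 1 ≤ k) : 0 < ∑ i ∈ Icc 1 k, (i : ℝ) ^ n := by
  refine Finset.sum_pos (fun i hi => ?_) ⟨1, Finset.mem_Icc.2 ⟨le_rfl, hk⟩⟩
  have : (0 : ℝ) < i := by exact_mod_cast (Finset.mem_Icc.1 hi).1
  positivity

theorem endn {n : ℕ} (hn : 3 ≤ n) : 1.0115 * A (n:ℝ) ≤ g (n+1) (n:ℝ) ∧
    1.0115 * A ((n:ℝ)+1) ≤ g (n+1) ((n:ℝ)+1) := by
  have hn0 : (0 : ℝ) < n := by
    have : 0 < n := by omega
    exact_mod_cast this
  constructor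
  · unfold A g
    rw [S_nat, Real.rpow_natCast, Real.rpow_natCast, le_div_iff₀ (S_nat_pos (by omega)), div_pow]
    have h := first_ineq hn
    rw [mul_pow (2 * (n : ℝ) + 1)] at h
    have e : 2 * ((n + 1 : ℕ) : ℝ) - 1 = 2 * (n : ℝ) + 1 := by push_cast; ring
    rw [e]
    have e2 : 1.0115 * ((2 * (n : ℝ)) ^ n / ((n : ℝ) + 1) ^ n) * ∑ i ∈ Icc 1 (n + 1), (i : ℝ) ^ n =
        (1.0115 * ((2 * (n : ℝ)) ^ n * ∑ i ∈ Icc 1 (n + 1), (i : ℝ) ^ n)) / ((n : ℝ) + 1) ^ n := by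
      ring
    rw [e2, div_le_iff₀ (by positivity)]
    exact h
  · have ec : (n : ℝ) + 1 = ((n + 1 : ℕ) : ℝ) := by push_cast; ring
    rw [ec]
    unfold A g
    rw [S_nat, Real.rpow_natCast, Real.rpow_natCast, le_div_iff₀ (S_nat_pos (by omega)), div_pow]
    have h := second_ineq (n := n + 1) (by omega)
    rw [mul_pow (2 * ((n + 1 : ℕ) : ℝ) - 1)] at h
    have e2 : 1.0115 * ((2 * ((n + 1 : ℕ) : ℝ)) ^ (n + 1) / (((n + 1 : ℕ) : ℝ) + 1) ^ (n + 1)) *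
          ∑ i ∈ Icc 1 (n + 1), (i : ℝ) ^ (n + 1) =
        (1.0115 * ((2 * ((n + 1 : ℕ) : ℝ)) ^ (n + 1) * ∑ i ∈ Icc 1 (n + 1), (i : ℝ) ^ (n + 1))) /
          (((n + 1 : ℕ) : ℝ) + 1) ^ (n + 1) := by
      ring
    rw [e2, div_le_iff₀ (by positivity)]
    exact h

end GK
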