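import Pool.Agent.R963.GK.Defs

/-!
# GK-3: asymptotics of the crossing points (MP_499f6d_pr)

For `r = ρ k` the sign of `g(k+1;r) - g(k;r)` is, for large `k`, the sign of `ρ - log 3`.
-/

set_option autoImplicit false

namespace GK

open Filter Topology

theorem S_pos3 {k : ℕ} (hk : 1 ≤ k) (r : ℝ) : 0 < S k r := by
  unfold S
  apply Finset.sum_pos
  · intro i hi
    rw [Finset.mem_Icc] at hi
    have : (0 : ℝ) < i := by exact_mod_cast hi.1
    exact Real.rpow_pos_of_pos this _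
  · exact ⟨1, Finset.mem_Icc.2 ⟨le_rfl, hk⟩⟩

theorem S_succ3 (k : ℕ) (r : ℝ) : S (k + 1) r = S k r + ((k : ℝ) + 1) ^ r := by
  unfold S
  rw [← Finset.insert_Icc_right_eq_Icc_add_one (by omega), Finset.sum_insert (by simp), add_comm]
  push_cast
  rfl

/-- `X = ((2k+1)/(2k-1))^r - 1` -/
noncomputable def X3 (k : ℕ) (r : ℝ) : ℝ := ((2 * (k : ℝ) + 1) / (2 * (k : ℝ) - 1)) ^ r - 1

/-- `Y = S(k;r)/(k+1)^r` -/
noncomputable def Y3 (k : ℕ) (r : ℝ) : ℝ := S k r / ((k : ℝ) + 1) ^ r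

theorem XY_eq {k : ℕ} (hk : 1 ≤ k) (r : ℝ) :
    X3 k r * Y3 k r * ((2 * (k : ℝ) - 1) ^ r * ((k : ℝ) + 1) ^ r) =
      ((2 * (k : ℝ) + 1) ^ r - (2 * (k : ℝ) - 1) ^ r) * S k r := by
  have hk' : (1 : ℝ) ≤ k := by exact_mod_cast hk
  have h1 : (0 : ℝ) < 2 * (k : ℝ) - 1 := by linarith
  have h2 : (0 : ℝ) < (k : ℝ) + 1 := by linarith
  have h3 := Real.rpow_pos_of_pos h1 r
  have h4 := Real.rpow_pos_of_pos h2 r
  unfold X3 Y3
  rw [Real.div_rpow (by linarith) h1.le]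
  field_simp

theorem g_lt_iff {k : ℕ} (hk : 1 ≤ k) (r : ℝ) : g k r < g (k + 1) r ↔ 1 < X3 k r * Y3 k r := by
  have hk' : (1 : ℝ) ≤ k := by exact_mod_cast hk
  have h1 : (0 : ℝ) < 2 * (k : ℝ) - 1 := by linarith
  have h2 : (0 : ℝ) < (k : ℝ) + 1 := by linarith
  have h3 := Real.rpow_pos_of_pos h1 r
  have h4 := Real.rpow_pos_of_pos h2 r
  have h5 := S_pos3 hk r
  have h6 := S_pos3 (show 1 ≤ k + 1 by omega) r
  have h7 : 0 < (2 * (k : ℝ) - 1) ^ r * ((k : ℝ) + 1) ^ r := mul_pos h3 h4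
  have h8 := XY_eq hk r
  unfold g
  have h9 : 1 < X3 k r * Y3 k r ↔ (2 * (k : ℝ) - 1) ^ r * ((k : ℝ) + 1) ^ r <
      X3 k r * Y3 k r * ((2 * (k : ℝ) - 1) ^ r * ((k : ℝ) + 1) ^ r) :=
    (lt_mul_iff_one_lt_left h7).symm
  rw [h9, div_lt_div_iff₀ h5 h6, S_succ3,
    show 2 * ((k + 1 : ℕ) : ℝ) - 1 = 2 * (k : ℝ) + 1 by push_cast; ring, h8]
  constructor <;> intro h <;> linarith

theorem g_gt_iff {k : ℕ} (hk : 1 ≤ k) (r : ℝ) : g (k + 1) r < g k r ↔ X3 k r * Y3 k r < 1 := by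
  have hk' : (1 : ℝ) ≤ k := by exact_mod_cast hk
  have h1 : (0 : ℝ) < 2 * (k : ℝ) - 1 := by linarith
  have h2 : (0 : ℝ) < (k : ℝ) + 1 := by linarith
  have h3 := Real.rpow_pos_of_pos h1 r
  have h4 := Real.rpow_pos_of_pos h2 r
  have h5 := S_pos3 hk r
  have h6 := S_pos3 (show 1 ≤ k + 1 by omega) r
  have h7 : 0 < (2 * (k : ℝ) - 1) ^ r * ((k : ℝ) + 1) ^ r := mul_pos h3 h4
  have h8 := XY_eq hk r
  unfold g
  have h9 : X3 k r * Y3 k r < 1 ↔
      X3 k r * Y3 k r * ((2 * (k : ℝ) - 1) ^ r * ((k : ℝ) + 1) ^ r) <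
        (2 * (k : ℝ) - 1) ^ r * ((k : ℝ) + 1) ^ r :=
    (mul_lt_iff_lt_one_left h7).symm
  rw [h9, div_lt_div_iff₀ h6 h5, S_succ3,
    show 2 * ((k + 1 : ℕ) : ℝ) - 1 = 2 * (k : ℝ) + 1 by push_cast; ring, h8]
  constructor <;> intro h <;> linarith

/-! ### Limits -/

theorem lim_zero_of {d : ℕ → ℝ} {v : ℝ} (h : Tendsto (fun k : ℕ => (k : ℝ) * d k) atTop (𝓝 v)) :
    Tendsto d atTop (𝓝 0) := by
  have h1 : Tendsto (fun k : ℕ => ((k : ℝ))⁻¹ * ((k : ℝ) * d k)) atTop (𝓝 (0 * v)) :=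
    (tendsto_inv_atTop_nhds_zero_nat (𝕜 := ℝ)).mul h
  rw [zero_mul] at h1
  refine h1.congr' ?_
  filter_upwards [eventually_gt_atTop 0] with k hk
  have : (k : ℝ) ≠ 0 := by exact_mod_cast hk.ne'
  field_simp

theorem lim_exp {d : ℕ → ℝ} {v : ℝ} (x : ℝ)
    (h : Tendsto (fun k : ℕ => (k : ℝ) * d k) atTop (𝓝 v)) :
    Tendsto (fun k : ℕ => (k : ℝ) * (Real.exp (x + d k) - Real.exp x)) atTop
      (𝓝 (v * Real.exp x)) := by
  have h1 := (Real.hasDerivAt_exp x).hasFDerivAt.hasFDerivWithinAt (s := Set.univ)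
  have h2 := HasFDerivWithinAt.lim h1 (l := atTop) (c := fun k : ℕ => (k : ℝ)) (d := d) (v := v)
    (lim_zero_of h) (by simp) (by simpa using h)
  simpa using h2

theorem lim_frac (j : ℝ) : Tendsto (fun k : ℕ => (k : ℝ) * (j / ((k : ℝ) + 1))) atTop (𝓝 j) := by
  have h1 : Tendsto (fun k : ℕ => j * ((k : ℝ) / ((k : ℝ) + 1))) atTop (𝓝 (j * 1)) :=
    (tendsto_natCast_div_add_atTop (1 : ℝ)).const_mul j
  rw [mul_one] at h1
  refine h1.congr fun k => ?_
  ring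

theorem log_taylor {x : ℝ} (h : |x| < 1) :
    |x + x ^ 2 / 2 + Real.log (1 - x)| ≤ |x| ^ 3 / (1 - |x|) := by
  have h1 := Real.abs_log_sub_add_sum_range_le h 2
  simp only [Finset.sum_range_succ, Finset.range_zero, Finset.sum_empty, zero_add, pow_one,
    Nat.cast_zero, Nat.cast_one, div_one] at h1
  norm_num at h1
  exact h1

/-- the asymptotics of `-k log (1 - j/(k+1))` -/
theorem lim_t (j : ℝ) : Tendsto (fun k : ℕ => (k : ℝ) *
    (-(k : ℝ) * Real.log (1 - j / ((k : ℝ) + 1)) - j)) atTop (𝓝 (j ^ 2 / 2 - j)) := by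
  have hx := lim_frac j
  have hx0 : Tendsto (fun k : ℕ => j / ((k : ℝ) + 1)) atTop (𝓝 0) := lim_zero_of hx
  have hax0 : Tendsto (fun k : ℕ => |j / ((k : ℝ) + 1)|) atTop (𝓝 0) := by
    simpa using hx0.abs
  -- the error term
  have hE : Tendsto (fun k : ℕ => (k : ℝ) ^ 2 * (j / ((k : ℝ) + 1) + (j / ((k : ℝ) + 1)) ^ 2 / 2 +
      Real.log (1 - j / ((k : ℝ) + 1)))) atTop (𝓝 0) := by
    apply squeeze_zero_norm' (a := fun k : ℕ => ((k : ℝ) * (j / ((k : ℝ) + 1))) ^ 2 *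
      (|j / ((k : ℝ) + 1)| / (1 - |j / ((k : ℝ) + 1)|)))
    · filter_upwards [hax0.eventually (gt_mem_nhds (show (0 : ℝ) < 1 by norm_num))] with k hk
      rw [Real.norm_eq_abs, abs_mul, abs_of_nonneg (by positivity : (0 : ℝ) ≤ (k : ℝ) ^ 2)]
      refine (mul_le_mul_of_nonneg_left (log_taylor hk) (by positivity)).trans (le_of_eq ?_)
      rw [mul_pow, ← sq_abs (j / ((k : ℝ) + 1))]
      ring
    · have h1 : Tendsto (fun k : ℕ => ((k : ℝ) * (j / ((k : ℝ) + 1))) ^ 2 *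
        (|j / ((k : ℝ) + 1)| / (1 - |j / ((k : ℝ) + 1)|))) atTop (𝓝 (j ^ 2 * (0 / (1 - 0)))) :=
        (hx.pow 2).mul (hax0.div (tendsto_const_nhds.sub hax0) (by norm_num))
      simpa using h1
  have h2 : Tendsto (fun k : ℕ => -((k : ℝ) * (j / ((k : ℝ) + 1))) +
      ((k : ℝ) * (j / ((k : ℝ) + 1))) ^ 2 / 2 -
      (k : ℝ) ^ 2 * (j / ((k : ℝ) + 1) + (j / ((k : ℝ) + 1)) ^ 2 / 2 +
      Real.log (1 - j / ((k : ℝ) + 1)))) atTop (𝓝 (-j + j ^ 2 / 2 - 0)) :=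
    (hx.neg.add ((hx.pow 2).div_const 2)).sub hE
  have h3 : -j + j ^ 2 / 2 - 0 = j ^ 2 / 2 - j := by ring
  rw [h3] at h2
  refine h2.congr fun k => ?_
  have hk : ((k : ℝ) + 1) ≠ 0 := by positivity
  have h4 : (k : ℝ) * ((k : ℝ) * (j / ((k : ℝ) + 1)) - j) = -((k : ℝ) * (j / ((k : ℝ) + 1))) := by
    field_simp
    ring
  linear_combination -h4

/-- the asymptotics of `k log ((2k+1)/(2k-1))` -/
theorem lim_L : Tendsto (fun k : ℕ => (k : ℝ) *
    ((k : ℝ) * Real.log ((2 * (k : ℝ) + 1) / (2 * (k : ℝ) - 1)) - 1)) atTop (𝓝 0) := by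
  have hy0 : Tendsto (fun k : ℕ => (1 : ℝ) / (2 * k)) atTop (𝓝 0) := by
    have h1 : Tendsto (fun k : ℕ => (1 / 2 : ℝ) * ((k : ℝ))⁻¹) atTop (𝓝 ((1 / 2) * 0)) :=
      (tendsto_inv_atTop_nhds_zero_nat (𝕜 := ℝ)).const_mul _
    rw [mul_zero] at h1
    refine h1.congr fun k => ?_
    rw [one_div, one_div, mul_inv]
  apply squeeze_zero_norm' (a := fun k : ℕ => (1 / 2 : ℝ) *
    ((1 / (2 * (k : ℝ))) / (1 - 1 / (2 * (k : ℝ)))))
  · filter_upwards [eventually_gt_atTop 0] with k hk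
    have hk1 : (1 : ℝ) ≤ k := by exact_mod_cast hk
    have hk0 : (0 : ℝ) < k := by linarith
    obtain ⟨y, hy⟩ : ∃ y : ℝ, y = 1 / (2 * (k : ℝ)) := ⟨_, rfl⟩
    have hyp : 0 < y := by rw [hy]; positivity
    have hy1 : y < 1 := by
      rw [hy, div_lt_one (by positivity)]; linarith
    have hya : |y| = y := abs_of_pos hyp
    have hyn : |-y| = y := by rw [abs_neg, hya]
    have hky : (k : ℝ) * y = 1 / 2 := by rw [hy]; field_simp
    have h1 := log_taylor (x := y) (by rw [hya]; exact hy1)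
    have h2 := log_taylor (x := -y) (by rw [hyn]; exact hy1)
    rw [hya] at h1
    rw [hyn] at h2
    have h3 : Real.log ((2 * (k : ℝ) + 1) / (2 * (k : ℝ) - 1)) =
        Real.log (1 - -y) - Real.log (1 - y) := by
      rw [← Real.log_div (by linarith) (by linarith)]
      congr 1
      rw [hy]
      have : 2 * (k : ℝ) - 1 ≠ 0 := by
        have : 0 < 2 * (k : ℝ) - 1 := by linarith
        exact this.ne'
      field_simp
      ring
    rw [h3, ← hy, Real.norm_eq_abs]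
    have h4 : (k : ℝ) * ((k : ℝ) * (Real.log (1 - -y) - Real.log (1 - y)) - 1) =
        (k : ℝ) ^ 2 * ((-y + (-y) ^ 2 / 2 + Real.log (1 - -y)) -
          (y + y ^ 2 / 2 + Real.log (1 - y))) := by
      linear_combination (2 * (k : ℝ)) * hky
    rw [h4, abs_mul, abs_of_nonneg (by positivity : (0 : ℝ) ≤ (k : ℝ) ^ 2)]
    have h5 := abs_sub (-y + (-y) ^ 2 / 2 + Real.log (1 - -y)) (y + y ^ 2 / 2 + Real.log (1 - y))
    have h6 : (k : ℝ) ^ 2 * (y ^ 3 / (1 - y) + y ^ 3 / (1 - y)) = 1 / 2 * (y / (1 - y)) := by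
      have : (k : ℝ) ^ 2 * (y ^ 3 / (1 - y) + y ^ 3 / (1 - y)) =
        2 * ((k : ℝ) * y) ^ 2 * (y / (1 - y)) := by ring
      rw [this, hky]
      ring
    rw [← h6]
    exact mul_le_mul_of_nonneg_left (h5.trans (add_le_add h2 h1)) (by positivity)
  · have h1 : Tendsto (fun k : ℕ => (1 / 2 : ℝ) *
        ((1 / (2 * (k : ℝ))) / (1 - 1 / (2 * (k : ℝ))))) atTop (𝓝 ((1 / 2) * (0 / (1 - 0)))) :=
      (hy0.div (tendsto_const_nhds.sub hy0) (by norm_num)).const_mul _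
    simpa using h1

theorem lim_X (ρ : ℝ) : Tendsto (fun k : ℕ => (k : ℝ) * (X3 k (ρ * k) - (Real.exp ρ - 1))) atTop
    (𝓝 0) := by
  have h1 : Tendsto (fun k : ℕ => (k : ℝ) * (ρ * ((k : ℝ) * Real.log ((2 * (k : ℝ) + 1) /
      (2 * (k : ℝ) - 1)) - 1))) atTop (𝓝 (ρ * 0)) := by
    refine (lim_L.const_mul ρ).congr fun k => ?_
    ring
  rw [mul_zero] at h1
  have h2 := lim_exp ρ h1
  rw [zero_mul] at h2
  refine h2.congr' ?_
  filter_upwards [eventually_gt_atTop 0] with k hk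
  have hk1 : (1 : ℝ) ≤ k := by exact_mod_cast hk
  have h3 : (0 : ℝ) < (2 * (k : ℝ) + 1) / (2 * (k : ℝ) - 1) :=
    div_pos (by linarith) (by linarith)
  unfold X3
  rw [Real.rpow_def_of_pos h3]
  have h4 : ρ + ρ * ((k : ℝ) * Real.log ((2 * (k : ℝ) + 1) / (2 * (k : ℝ) - 1)) - 1) =
      Real.log ((2 * (k : ℝ) + 1) / (2 * (k : ℝ) - 1)) * (ρ * k) := by ring
  rw [h4]
  ring

/-! ### The power sum -/

/-- the terms, `j = i + 1` -/
noncomputable def F3 (ρ : ℝ) (k i : ℕ) : ℝ :=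
  if i < k then (1 - ((i : ℝ) + 1) / ((k : ℝ) + 1)) ^ (ρ * k) else 0

theorem Y3_eq (ρ : ℝ) (k : ℕ) : Y3 k (ρ * k) = ∑' i, F3 ρ k i := by
  have h1 : ∑' i, F3 ρ k i = ∑ i ∈ Finset.range k, F3 ρ k i := by
    apply tsum_eq_sum
    intro i hi
    rw [Finset.mem_range] at hi
    unfold F3
    rw [if_neg hi]
  rw [h1, ← Finset.sum_range_reflect]
  unfold Y3 S
  rw [Finset.sum_div]
  refine Finset.sum_nbij' (fun i => i - 1) (fun i => i + 1) ?_ ?_ ?_ ?_ ?_
  · intro i hi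
    rw [Finset.mem_Icc] at hi
    rw [Finset.mem_range]
    omega
  · intro i hi
    rw [Finset.mem_range] at hi
    rw [Finset.mem_Icc]
    omega
  · intro i hi
    rw [Finset.mem_Icc] at hi
    omega
  · intro i _
    rfl
  · intro i hi
    rw [Finset.mem_Icc] at hi
    unfold F3
    rw [if_pos (by omega), ← Real.div_rpow (by positivity) (by positivity)]
    congr 1
    have h2 : ((k - 1 - (i - 1) : ℕ) : ℝ) = k - i := by
      rw [show k - 1 - (i - 1) = k - i by omega, Nat.cast_sub hi.2]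
    rw [h2]
    field_simp
    ring

theorem exp_diff {a b c : ℝ} (ha : c ≤ a) (hb : c ≤ b) :
    |Real.exp (-a) - Real.exp (-b)| ≤ |a - b| * Real.exp (-c) := by
  wlog h : a ≤ b with H
  · have := H hb ha (le_of_not_ge h)
    rw [abs_sub_comm (Real.exp (-a)), abs_sub_comm a]
    exact this
  · have h1 : Real.exp (-b) = Real.exp (-a) * Real.exp (-(b - a)) := by
      rw [← Real.exp_add]; congr 1; ring
    have h2 : 1 - (b - a) ≤ Real.exp (-(b - a)) := by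
      have := Real.add_one_le_exp (-(b - a)); linarith
    have h3 : Real.exp (-b) ≤ Real.exp (-a) := Real.exp_le_exp.2 (by linarith)
    have h4 : Real.exp (-a) ≤ Real.exp (-c) := Real.exp_le_exp.2 (by linarith)
    rw [abs_of_nonneg (by linarith), abs_sub_comm, abs_of_nonneg (by linarith)]
    have h5 : 0 < Real.exp (-a) := Real.exp_pos _
    calc Real.exp (-a) - Real.exp (-b) = Real.exp (-a) * (1 - Real.exp (-(b - a))) := by
          rw [h1]; ring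
      _ ≤ Real.exp (-a) * (b - a) := mul_le_mul_of_nonneg_left (by linarith) h5.le
      _ ≤ Real.exp (-c) * (b - a) := mul_le_mul_of_nonneg_right h4 (by linarith)
      _ = (b - a) * Real.exp (-c) := by ring

theorem F3_exp {ρ : ℝ} {k i : ℕ} (hi : i < k) :
    F3 ρ k i = Real.exp (-(ρ * (-(k : ℝ) * Real.log (1 - ((i : ℝ) + 1) / ((k : ℝ) + 1))))) := by
  have hik : (i : ℝ) + 1 < (k : ℝ) + 1 := by
    have : (i : ℝ) < k := by exact_mod_cast hi
    linarith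
  have h1 : (0 : ℝ) < 1 - ((i : ℝ) + 1) / ((k : ℝ) + 1) := by
    have : ((i : ℝ) + 1) / ((k : ℝ) + 1) < 1 := by
      rw [div_lt_one (by positivity)]; exact hik
    linarith
  unfold F3
  rw [if_pos hi, Real.rpow_def_of_pos h1]
  congr 1
  ring

/-- the domination -/
theorem dom3 {ρ : ℝ} (hρ : 0 < ρ) {k i : ℕ} (hk : 1 ≤ k) :
    |(k : ℝ) * (F3 ρ k i - Real.exp (-(ρ * ((i : ℝ) + 1))))| ≤
      (2 * ρ * ((i : ℝ) + 1) ^ 2 + 2 * ((i : ℝ) + 1)) * Real.exp (-(ρ * (((i : ℝ) + 1) / 2))) := by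
  have hk1 : (1 : ℝ) ≤ k := by exact_mod_cast hk
  have hk0 : (0 : ℝ) < k := by linarith
  obtain ⟨j, hj⟩ : ∃ j : ℝ, j = (i : ℝ) + 1 := ⟨_, rfl⟩
  have hj1 : 1 ≤ j := by
    rw [hj]
    have : (0 : ℝ) ≤ i := Nat.cast_nonneg i
    linarith
  have hj0 : 0 < j := by linarith
  have hE0 : 0 < Real.exp (-(ρ * (j / 2))) := Real.exp_pos _
  have hEj : Real.exp (-(ρ * j)) ≤ Real.exp (-(ρ * (j / 2))) :=
    Real.exp_le_exp.2 (by nlinarith)
  have hEj0 : 0 < Real.exp (-(ρ * j)) := Real.exp_pos _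
  rw [← hj, abs_mul, abs_of_pos hk0]
  by_cases hi : i < k
  · have hjk : j ≤ k := by
      rw [hj]
      have : i + 1 ≤ k := hi
      exact_mod_cast this
    rw [F3_exp hi, ← hj]
    obtain ⟨x, hx⟩ : ∃ x : ℝ, x = j / ((k : ℝ) + 1) := ⟨_, rfl⟩
    have hx0 : 0 < x := by rw [hx]; positivity
    have hx1 : x < 1 := by rw [hx, div_lt_one (by positivity)]; linarith
    obtain ⟨t, ht⟩ : ∃ t : ℝ, t = -(k : ℝ) * Real.log (1 - x) := ⟨_, rfl⟩
    rw [← hx, ← ht]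
    have hlog1 : Real.log (1 - x) ≤ -x := by
      have := Real.log_le_sub_one_of_pos (show 0 < 1 - x by linarith); linarith
    have hkx : (k : ℝ) * x ≤ t := by
      rw [ht]; nlinarith
    have hkxj : (k : ℝ) * x = j - x := by
      rw [hx]; field_simp; ring
    have hxj : x ≤ j / 2 := by
      rw [hx, div_le_div_iff₀ (by positivity) (by norm_num)]; nlinarith
    have htj : j / 2 ≤ t := by linarith
    have htE : Real.exp (-(ρ * t)) ≤ Real.exp (-(ρ * (j / 2))) :=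
      Real.exp_le_exp.2 (by nlinarith)
    have htE0 : 0 < Real.exp (-(ρ * t)) := Real.exp_pos _
    rcases le_or_gt (2 * j) k with hjk2 | hjk2
    · -- `2 j ≤ k`
      have hlog2 : -Real.log (1 - x) ≤ x / (1 - x) := by
        have h1 := Real.one_sub_inv_le_log_of_pos (show 0 < 1 - x by linarith)
        have h2 : 1 - (1 - x)⁻¹ = -(x / (1 - x)) := by
          have : 1 - x ≠ 0 := by linarith
          field_simp
          ring
        linarith
      have hup : t - j ≤ 2 * j ^ 2 / k := by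
        have h1 : t ≤ (k : ℝ) * (x / (1 - x)) := by
          rw [ht]; nlinarith
        have h2 : x / (1 - x) = j / ((k : ℝ) + 1 - j) := by
          have h3 : (k : ℝ) + 1 - j ≠ 0 := by linarith
          have h4 : 1 - x ≠ 0 := by linarith
          rw [div_eq_div_iff h4 h3, hx]
          field_simp
        have h3 : (0 : ℝ) < (k : ℝ) + 1 - j := by linarith
        have h4 : (k : ℝ) * (j / ((k : ℝ) + 1 - j)) - j ≤ 2 * j ^ 2 / k := by
          have h5 : (k : ℝ) * (j / ((k : ℝ) + 1 - j)) - j = (j * (j - 1)) / ((k : ℝ) + 1 - j) := by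
            field_simp
            ring
          rw [h5, div_le_div_iff₀ h3 hk0]
          have h6 : (k : ℝ) ≤ 2 * ((k : ℝ) + 1 - j) := by linarith
          have h7 : j * (j - 1) ≤ j ^ 2 := by nlinarith
          calc j * (j - 1) * (k : ℝ) ≤ j ^ 2 * k := mul_le_mul_of_nonneg_right h7 hk0.le
            _ ≤ j ^ 2 * (2 * ((k : ℝ) + 1 - j)) := mul_le_mul_of_nonneg_left h6 (by positivity)
            _ = 2 * j ^ 2 * ((k : ℝ) + 1 - j) := by ring
        rw [h2] at h1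
        linarith
      have hlo : -(2 * j ^ 2 / k) ≤ t - j := by
        have h1 : x ≤ 2 * j ^ 2 / k := by
          rw [hx, div_le_div_iff₀ (by positivity) hk0]
          nlinarith [mul_pos hj0 hk0, mul_nonneg hj0.le (mul_nonneg (by linarith : (0 : ℝ) ≤ j - 1) hk0.le)]
        linarith
      have habs : |ρ * t - ρ * j| ≤ ρ * (2 * j ^ 2 / k) := by
        rw [← mul_sub, abs_mul, abs_of_pos hρ]
        exact mul_le_mul_of_nonneg_left (abs_le.2 ⟨hlo, hup⟩) hρ.le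
      have h1 := exp_diff (a := ρ * t) (b := ρ * j) (c := ρ * (j / 2)) (by nlinarith) (by nlinarith)
      calc (k : ℝ) * |Real.exp (-(ρ * t)) - Real.exp (-(ρ * j))|
          ≤ (k : ℝ) * (|ρ * t - ρ * j| * Real.exp (-(ρ * (j / 2)))) :=
            mul_le_mul_of_nonneg_left h1 hk0.le
        _ ≤ (k : ℝ) * (ρ * (2 * j ^ 2 / k) * Real.exp (-(ρ * (j / 2)))) :=
            mul_le_mul_of_nonneg_left (mul_le_mul_of_nonneg_right habs hE0.le) hk0.le
        _ = (2 * ρ * j ^ 2) * Real.exp (-(ρ * (j / 2))) := by field_simp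
        _ ≤ _ := mul_le_mul_of_nonneg_right (by linarith) hE0.le
    · have h1 : |Real.exp (-(ρ * t)) - Real.exp (-(ρ * j))| ≤ Real.exp (-(ρ * (j / 2))) := by
        rw [abs_le]; constructor <;> linarith
      calc (k : ℝ) * |Real.exp (-(ρ * t)) - Real.exp (-(ρ * j))|
          ≤ (2 * j) * Real.exp (-(ρ * (j / 2))) :=
            mul_le_mul hjk2.le h1 (abs_nonneg _) (by linarith)
        _ ≤ _ := mul_le_mul_of_nonneg_right (by nlinarith [mul_pos hρ (mul_pos hj0 hj0)]) hE0.le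
  · have hkj : (k : ℝ) ≤ j := by
      rw [hj]
      have : k ≤ i + 1 := by omega
      exact_mod_cast this
    unfold F3
    rw [if_neg hi, zero_sub, abs_neg, abs_of_pos hEj0]
    calc (k : ℝ) * Real.exp (-(ρ * j)) ≤ j * Real.exp (-(ρ * (j / 2))) :=
          mul_le_mul hkj hEj hEj0.le hj0.le
      _ ≤ _ := mul_le_mul_of_nonneg_right (by nlinarith [mul_pos hρ (mul_pos hj0 hj0)]) hE0.le

/-- the pointwise limit -/
theorem lim_F (ρ : ℝ) (i : ℕ) : Tendsto (fun k : ℕ => (k : ℝ) *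
    (F3 ρ k i - Real.exp (-(ρ * ((i : ℝ) + 1))))) atTop
    (𝓝 (-(ρ * (((i : ℝ) + 1) ^ 2 / 2 - ((i : ℝ) + 1))) * Real.exp (-(ρ * ((i : ℝ) + 1))))) := by
  have h1 := lim_t ((i : ℝ) + 1)
  have h2 : Tendsto (fun k : ℕ => (k : ℝ) * (-(ρ * (-(k : ℝ) *
      Real.log (1 - ((i : ℝ) + 1) / ((k : ℝ) + 1)) - ((i : ℝ) + 1))))) atTop
      (𝓝 (-(ρ * (((i : ℝ) + 1) ^ 2 / 2 - ((i : ℝ) + 1))))) := by
    have := (h1.const_mul ρ).neg
    refine this.congr fun k => ?_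
    ring
  have h3 := lim_exp (-(ρ * ((i : ℝ) + 1))) h2
  refine h3.congr' ?_
  filter_upwards [eventually_gt_atTop i] with k hk
  rw [F3_exp hk]
  congr 3
  ring

theorem sum3 {q : ℝ} (hq0 : 0 < q) (hq1 : q < 1) (ρ : ℝ) :
    ∑' i : ℕ, (-(ρ * (((i : ℝ) + 1) ^ 2 / 2 - ((i : ℝ) + 1))) * q ^ (i + 1)) =
      ρ * q * (1 - 3 * q) / (2 * (1 - q) ^ 3) := by
  have hn : ‖q‖ < 1 := by rw [Real.norm_eq_abs, abs_of_pos hq0]; exact hq1
  have h2 := hasSum_choose_mul_geometric_of_norm_lt_one 2 hn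
  have h1 := hasSum_choose_mul_geometric_of_norm_lt_one 1 hn
  have h3 := ((h2.sub (h1.mul_left (3 / 2))).mul_left (-(ρ * q))).tsum_eq
  have hne : 1 - q ≠ 0 := by linarith
  have h4 : -(ρ * q) * (1 / (1 - q) ^ (2 + 1) - 3 / 2 * (1 / (1 - q) ^ (1 + 1))) =
      ρ * q * (1 - 3 * q) / (2 * (1 - q) ^ 3) := by
    field_simp
    ring
  rw [← h4, ← h3]
  apply tsum_congr
  intro i
  have h5 : (((i + 2).choose 2 : ℕ) : ℝ) = ((i : ℝ) + 2) * ((i : ℝ) + 1) / 2 := by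
    rw [Nat.cast_choose_two]
    push_cast
    ring
  rw [h5, Nat.choose_one_right, pow_succ]
  push_cast
  ring

theorem summable_dom {ρ : ℝ} (hρ : 0 < ρ) : Summable (fun i : ℕ =>
    (2 * ρ * ((i : ℝ) + 1) ^ 2 + 2 * ((i : ℝ) + 1)) * Real.exp (-(ρ * (((i : ℝ) + 1) / 2)))) := by
  have hq1 : Real.exp (-(ρ / 2)) < 1 := by
    rw [Real.exp_lt_one_iff]; linarith
  have hn : ‖Real.exp (-(ρ / 2))‖ < 1 := by
    rw [Real.norm_eq_abs, abs_of_pos (Real.exp_pos _)]; exact hq1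
  have h2 := summable_pow_mul_geometric_of_norm_lt_one 2 hn
  have h1 := summable_pow_mul_geometric_of_norm_lt_one 1 hn
  have h3 := ((h2.mul_left (2 * ρ)).add (h1.mul_left 2))
  have h4 := (summable_nat_add_iff 1).2 h3
  refine h4.congr fun i => ?_
  have h5 : Real.exp (-(ρ / 2)) ^ (i + 1) = Real.exp (-(ρ * (((i : ℝ) + 1) / 2))) := by
    rw [← Real.exp_nat_mul]
    congr 1
    push_cast
    ring
  rw [h5]
  push_cast
  ring

/-- The first order term. -/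
theorem lim_Y {ρ : ℝ} (hρ : 0 < ρ) : Tendsto (fun k : ℕ => (k : ℝ) *
    (Y3 k (ρ * k) - Real.exp (-ρ) / (1 - Real.exp (-ρ)))) atTop
    (𝓝 (ρ * Real.exp (-ρ) * (1 - 3 * Real.exp (-ρ)) / (2 * (1 - Real.exp (-ρ)) ^ 3))) := by
  obtain ⟨q, hq⟩ : ∃ q, q = Real.exp (-ρ) := ⟨_, rfl⟩
  have hq0 : 0 < q := by rw [hq]; exact Real.exp_pos _
  have hq1 : q < 1 := by rw [hq, Real.exp_lt_one_iff]; linarith
  have hqi : ∀ i : ℕ, Real.exp (-(ρ * ((i : ℝ) + 1))) = q ^ (i + 1) := by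
    intro i
    rw [hq, ← Real.exp_nat_mul]
    congr 1
    push_cast
    ring
  have hT := tendsto_tsum_of_dominated_convergence (𝓕 := atTop)
    (f := fun (k : ℕ) (i : ℕ) => (k : ℝ) * (F3 ρ k i - Real.exp (-(ρ * ((i : ℝ) + 1)))))
    (g := fun i : ℕ => -(ρ * (((i : ℝ) + 1) ^ 2 / 2 - ((i : ℝ) + 1))) *
      Real.exp (-(ρ * ((i : ℝ) + 1)))) (summable_dom hρ) (fun i => lim_F ρ i) (by
      filter_upwards [eventually_ge_atTop 1] with k hk i
      rw [Real.norm_eq_abs]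
      exact dom3 hρ hk)
  simp only [hqi] at hT
  rw [sum3 hq0 hq1] at hT
  rw [← hq]
  refine hT.congr fun k => ?_
  rw [Y3_eq, tsum_mul_left]
  congr 1
  have hsF : Summable (fun i => F3 ρ k i) := by
    apply summable_of_ne_finset_zero (s := Finset.range k)
    intro i hi
    rw [Finset.mem_range] at hi
    unfold F3
    rw [if_neg hi]
  have hgeo := hasSum_geometric_of_lt_one hq0.le hq1
  have hgeo' := hgeo.mul_left q
  have hfun : (fun i : ℕ => q * q ^ i) = fun i : ℕ => q ^ (i + 1) := by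
    funext i; rw [pow_succ']
  rw [hfun] at hgeo'
  rw [hsF.tsum_sub hgeo'.summable, hgeo'.tsum_eq, div_eq_mul_inv]

theorem lim_XY {ρ : ℝ} (hρ : 0 < ρ) : Tendsto (fun k : ℕ => (k : ℝ) *
    (X3 k (ρ * k) * Y3 k (ρ * k) - 1)) atTop
    (𝓝 ((Real.exp ρ - 1) *
      (ρ * Real.exp (-ρ) * (1 - 3 * Real.exp (-ρ)) / (2 * (1 - Real.exp (-ρ)) ^ 3)))) := by
  have hX := lim_X ρ
  have hY := lim_Y hρ
  have hX0 : Tendsto (fun k : ℕ => X3 k (ρ * k)) atTop (𝓝 (Real.exp ρ - 1)) := by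
    have h1 := (lim_zero_of hX).add_const (Real.exp ρ - 1)
    rw [zero_add] at h1
    refine h1.congr fun k => ?_
    ring
  have hq1 : Real.exp (-ρ) < 1 := by rw [Real.exp_lt_one_iff]; linarith
  have hne : 1 - Real.exp (-ρ) ≠ 0 := by linarith
  have hXY : (Real.exp ρ - 1) * (Real.exp (-ρ) / (1 - Real.exp (-ρ))) = 1 := by
    rw [mul_div_assoc', div_eq_one_iff_eq hne, sub_mul, ← Real.exp_add]
    simp
  have h1 := (hX0.mul hY).add (hX.mul_const (Real.exp (-ρ) / (1 - Real.exp (-ρ))))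
  rw [zero_mul, add_zero] at h1
  refine h1.congr fun k => ?_
  linear_combination (-(k : ℝ)) * hXY

theorem asym_hi {ρ : ℝ} (h : Real.log 3 < ρ) :
    ∀ᶠ k : ℕ in Filter.atTop, g k (ρ * k) < g (k + 1) (ρ * k) := by
  have hρ : 0 < ρ := lt_trans (Real.log_pos (by norm_num)) h
  have hq0 := Real.exp_pos (-ρ)
  have hq1 : Real.exp (-ρ) < 1 := by rw [Real.exp_lt_one_iff]; linarith
  have hq3 : Real.exp (-ρ) < 1 / 3 := by
    rw [← Real.exp_log (show (0 : ℝ) < 1 / 3 by norm_num), Real.exp_lt_exp, one_div, Real.log_inv]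
    linarith
  have he : 0 < Real.exp ρ - 1 := by
    have := Real.one_lt_exp_iff.2 hρ; linarith
  have hc : 0 < (Real.exp ρ - 1) *
      (ρ * Real.exp (-ρ) * (1 - 3 * Real.exp (-ρ)) / (2 * (1 - Real.exp (-ρ)) ^ 3)) := by
    apply mul_pos he
    apply div_pos (mul_pos (mul_pos hρ hq0) (by linarith))
    have : 0 < 1 - Real.exp (-ρ) := by linarith
    positivity
  filter_upwards [(lim_XY hρ).eventually (lt_mem_nhds hc), eventually_ge_atTop 1] with k hk hk1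
  rw [g_lt_iff hk1]
  have hk0 : (0 : ℝ) < k := by exact_mod_cast hk1
  have := (mul_pos_iff_of_pos_left hk0).1 hk
  linarith

theorem asym_lo {ρ : ℝ} (h0 : 0 < ρ) (h : ρ < Real.log 3) :
    ∀ᶠ k : ℕ in Filter.atTop, g (k + 1) (ρ * k) < g k (ρ * k) := by
  have hq0 := Real.exp_pos (-ρ)
  have hq1 : Real.exp (-ρ) < 1 := by rw [Real.exp_lt_one_iff]; linarith
  have hq3 : 1 / 3 < Real.exp (-ρ) := by
    rw [← Real.exp_log (show (0 : ℝ) < 1 / 3 by norm_num), Real.exp_lt_exp, one_div, Real.log_inv]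
    linarith
  have he : 0 < Real.exp ρ - 1 := by
    have := Real.one_lt_exp_iff.2 h0; linarith
  have hc : (Real.exp ρ - 1) *
      (ρ * Real.exp (-ρ) * (1 - 3 * Real.exp (-ρ)) / (2 * (1 - Real.exp (-ρ)) ^ 3)) < 0 := by
    apply mul_neg_of_pos_of_neg he
    apply div_neg_of_neg_of_pos (mul_neg_of_pos_of_neg (mul_pos h0 hq0) (by linarith))
    have : 0 < 1 - Real.exp (-ρ) := by linarith
    positivity
  filter_upwards [(lim_XY h0).eventually (gt_mem_nhds hc), eventually_ge_atTop 1] with k hk hk1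
  rw [g_gt_iff hk1]
  have hk0 : (0 : ℝ) < k := by exact_mod_cast hk1
  by_contra hcon
  push Not at hcon
  have : 0 ≤ (k : ℝ) * (X3 k (ρ * k) * Y3 k (ρ * k) - 1) :=
    mul_nonneg hk0.le (by linarith)
  linarith

end GK
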