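import Pool.Agent.R963.GK.Defs

/-!
GK-6 (MP_499f6d_pr): lower bounds for the power sum `S(k;r)`, real `r`.
-/

open Set

namespace GK

/-- `P = (1+w)^r + (1-w)^r - 2` -/
noncomputable def lP (r w : ℝ) : ℝ := (1 + w) ^ r + (1 - w) ^ r - 2
/-- first derivative -/
noncomputable def lQ (r w : ℝ) : ℝ := r * ((1 + w) ^ (r - 1) - (1 - w) ^ (r - 1))
/-- second derivative -/
noncomputable def lT (r w : ℝ) : ℝ := r * (r - 1) * ((1 + w) ^ (r - 2) + (1 - w) ^ (r - 2))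
/-- third derivative -/
noncomputable def lU (r w : ℝ) : ℝ :=
  r * (r - 1) * (r - 2) * ((1 + w) ^ (r - 3) - (1 - w) ^ (r - 3))
/-- the difference function -/
noncomputable def lPsi (κ r w : ℝ) : ℝ :=
  2 * w - ((1 + w) ^ (r + 1) - (1 - w) ^ (r + 1)) / (r + 1) + 4 * κ * (w ^ 2 * lQ r w)

lemma hd_plus (p : ℝ) {w : ℝ} (hw : w ∈ Icc (0 : ℝ) (1 / 2)) :
    HasDerivAt (fun w : ℝ => (1 + w) ^ p) (p * (1 + w) ^ (p - 1)) w := by
  have h1 : HasDerivAt (fun w : ℝ => 1 + w) 1 w := by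
    simpa using (hasDerivAt_id w).const_add 1
  have h := h1.rpow_const (p := p) (Or.inl (by have := hw.1; linarith))
  simpa using h

lemma hd_minus (p : ℝ) {w : ℝ} (hw : w ∈ Icc (0 : ℝ) (1 / 2)) :
    HasDerivAt (fun w : ℝ => (1 - w) ^ p) (-(p * (1 - w) ^ (p - 1))) w := by
  have h1 : HasDerivAt (fun w : ℝ => 1 - w) (-1) w := by
    simpa using (hasDerivAt_id w).const_sub 1
  have h := h1.rpow_const (p := p) (Or.inl (by have := hw.2; linarith))
  have e : -(p * (1 - w) ^ (p - 1)) = -1 * p * (1 - w) ^ (p - 1) := by ring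
  rw [e]
  exact h

lemma hd_P (r : ℝ) {w : ℝ} (hw : w ∈ Icc (0 : ℝ) (1 / 2)) :
    HasDerivAt (lP r) (lQ r w) w := by
  have h := ((hd_plus r hw).add (hd_minus r hw)).sub_const 2
  have e : lQ r w = r * (1 + w) ^ (r - 1) + -(r * (1 - w) ^ (r - 1)) := by unfold lQ; ring
  rw [e]
  exact h

lemma hd_Q (r : ℝ) {w : ℝ} (hw : w ∈ Icc (0 : ℝ) (1 / 2)) :
    HasDerivAt (lQ r) (lT r w) w := by
  have h := ((hd_plus (r - 1) hw).sub (hd_minus (r - 1) hw)).const_mul r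
  have e : lT r w = r * ((r - 1) * (1 + w) ^ (r - 1 - 1) - -((r - 1) * (1 - w) ^ (r - 1 - 1))) := by
    unfold lT
    have : r - 1 - 1 = r - 2 := by ring
    rw [this]; ring
  rw [e]
  exact h

lemma hd_T (r : ℝ) {w : ℝ} (hw : w ∈ Icc (0 : ℝ) (1 / 2)) :
    HasDerivAt (lT r) (lU r w) w := by
  have h := ((hd_plus (r - 2) hw).add (hd_minus (r - 2) hw)).const_mul (r * (r - 1))
  have e : lU r w = r * (r - 1) *
      ((r - 2) * (1 + w) ^ (r - 2 - 1) + -((r - 2) * (1 - w) ^ (r - 2 - 1))) := by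
    unfold lU
    have : r - 2 - 1 = r - 3 := by ring
    rw [this]; ring
  rw [e]
  exact h

lemma hd_Psi (κ : ℝ) {r : ℝ} (hr : 0 < r) {w : ℝ} (hw : w ∈ Icc (0 : ℝ) (1 / 2)) :
    HasDerivAt (lPsi κ r) (-lP r w + 8 * κ * (w * lQ r w) + 4 * κ * (w ^ 2 * lT r w)) w := by
  have h1 : HasDerivAt (fun w : ℝ => 2 * w) 2 w := by
    simpa using (hasDerivAt_id w).const_mul 2
  have h2 := ((hd_plus (r + 1) hw).sub (hd_minus (r + 1) hw)).div_const (r + 1)
  have h3 : HasDerivAt (fun w : ℝ => w ^ 2) (2 * w) w := by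
    simpa using hasDerivAt_pow 2 w
  have h4 := (h3.mul (hd_Q r hw)).const_mul (4 * κ)
  have h := (h1.sub h2).add h4
  have e : -lP r w + 8 * κ * (w * lQ r w) + 4 * κ * (w ^ 2 * lT r w) =
      2 - ((r + 1) * (1 + w) ^ (r + 1 - 1) - -((r + 1) * (1 - w) ^ (r + 1 - 1))) / (r + 1) +
        4 * κ * (2 * w * lQ r w + w ^ 2 * lT r w) := by
    unfold lP
    have h0 : r + 1 - 1 = r := by ring
    have h00 : r + 1 ≠ 0 := by positivity
    rw [h0]
    field_simp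
    ring
  rw [e]
  exact h

lemma mono_aux {F F' : ℝ → ℝ} (hd : ∀ w ∈ Icc (0 : ℝ) (1 / 2), HasDerivAt F (F' w) w)
    (hp : ∀ w ∈ Icc (0 : ℝ) (1 / 2), 0 ≤ F' w) : MonotoneOn F (Icc (0 : ℝ) (1 / 2)) := by
  refine monotoneOn_of_deriv_nonneg (convex_Icc _ _)
    (fun w hw => (hd w hw).continuousAt.continuousWithinAt)
    (fun w hw => ?_) (fun w hw => ?_)
  · rw [interior_Icc] at hw
    exact (hd w (Ioo_subset_Icc_self hw)).differentiableAt.differentiableWithinAt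
  · rw [interior_Icc] at hw
    rw [(hd w (Ioo_subset_Icc_self hw)).deriv]
    exact hp w (Ioo_subset_Icc_self hw)

lemma nonneg_aux {F F' : ℝ → ℝ} (h0 : 0 ≤ F 0)
    (hd : ∀ w ∈ Icc (0 : ℝ) (1 / 2), HasDerivAt F (F' w) w)
    (hp : ∀ w ∈ Icc (0 : ℝ) (1 / 2), 0 ≤ F' w) : ∀ w ∈ Icc (0 : ℝ) (1 / 2), 0 ≤ F w := by
  intro w hw
  exact h0.trans (mono_aux hd hp (left_mem_Icc.mpr (by norm_num)) hw hw.1)

lemma Psi_zero (κ r : ℝ) : lPsi κ r 0 = 0 := by
  simp [lPsi]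

/-- Case `κ = 1/24`. -/
lemma Psi_nonneg24 {r : ℝ} (h : (1 ≤ r ∧ r ≤ 2) ∨ 3 ≤ r) :
    ∀ w ∈ Icc (0 : ℝ) (1 / 2), 0 ≤ lPsi (1 / 24) r w := by
  have hr0 : 0 < r := by
    rcases h with h | h
    · linarith [h.1]
    · linarith
  have hU : ∀ w ∈ Icc (0 : ℝ) (1 / 2), 0 ≤ lU r w := by
    intro w hw
    have hw0 := hw.1
    have hw1 := hw.2
    unfold lU
    rcases h with h | h
    · have e1 : (1 + w) ^ (r - 3) ≤ (1 - w) ^ (r - 3) :=
        Real.rpow_le_rpow_of_nonpos (by linarith) (by linarith) (by linarith [h.2])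
      have e2 : r * (r - 1) * (r - 2) ≤ 0 :=
        mul_nonpos_of_nonneg_of_nonpos (mul_nonneg hr0.le (by linarith [h.1])) (by linarith [h.2])
      exact mul_nonneg_of_nonpos_of_nonpos e2 (by linarith)
    · have e1 : (1 - w) ^ (r - 3) ≤ (1 + w) ^ (r - 3) :=
        Real.rpow_le_rpow (by linarith) (by linarith) (by linarith)
      have e2 : 0 ≤ r * (r - 1) * (r - 2) :=
        mul_nonneg (mul_nonneg hr0.le (by linarith)) (by linarith)
      exact mul_nonneg e2 (by linarith)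
  have hQT : ∀ w ∈ Icc (0 : ℝ) (1 / 2), 0 ≤ w * lT r w - lQ r w := by
    refine nonneg_aux (F := fun w => w * lT r w - lQ r w) (F' := fun w => w * lU r w) ?_ ?_ ?_
    · simp [lQ]
    · intro w hw
      have h1 := ((hasDerivAt_id w).mul (hd_T r hw)).sub (hd_Q r hw)
      have e : w * lU r w = 1 * lT r w + id w * lU r w - lT r w := by simp
      rw [e]
      exact h1
    · intro w hw
      exact mul_nonneg hw.1 (hU w hw)
  have hPQ : ∀ w ∈ Icc (0 : ℝ) (1 / 2), 0 ≤ w * lQ r w / 2 - lP r w := by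
    refine nonneg_aux (F := fun w => w * lQ r w / 2 - lP r w)
      (F' := fun w => (w * lT r w - lQ r w) / 2) ?_ ?_ ?_
    · simp [lP]; norm_num
    · intro w hw
      have h1 := (((hasDerivAt_id w).mul (hd_Q r hw)).div_const 2).sub (hd_P r hw)
      have e : (w * lT r w - lQ r w) / 2 = (1 * lQ r w + id w * lT r w) / 2 - lQ r w := by
        simp; ring
      rw [e]
      exact h1
    · intro w hw
      have := hQT w hw
      linarith
  refine nonneg_aux (F' := fun w => -lP r w + 8 * (1 / 24) * (w * lQ r w) +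
    4 * (1 / 24) * (w ^ 2 * lT r w)) (Psi_zero _ _).ge (fun w hw => hd_Psi _ hr0 hw) ?_
  intro w hw
  have h1 := hPQ w hw
  have h2 := mul_nonneg hw.1 (hQT w hw)
  have e : -lP r w + 8 * (1 / 24) * (w * lQ r w) + 4 * (1 / 24) * (w ^ 2 * lT r w) =
    (w * lQ r w / 2 - lP r w) + 1 / 6 * (w * (w * lT r w - lQ r w)) := by ring
  rw [e]
  linarith

lemma num_aux {s : ℝ} (hs0 : 0 ≤ s) (hs1 : s ≤ 1) :
    23 / 12 ≤ (3 / 2 : ℝ) ^ s + (1 / 2 : ℝ) ^ s := by
  have ha1 : (2 / 5 : ℝ) ≤ Real.log (3 / 2) := by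
    have h1 : Real.exp 2 ≤ (3 / 2 : ℝ) ^ 5 := by
      have h2 : Real.exp 2 = Real.exp 1 ^ 2 := by
        rw [← Real.exp_nat_mul]; norm_num
      rw [h2]
      have h3 := Real.exp_one_lt_d9
      have h4 := Real.exp_pos 1
      calc Real.exp 1 ^ 2 ≤ (2.7182818286 : ℝ) ^ 2 := by gcongr
        _ ≤ (3 / 2 : ℝ) ^ 5 := by norm_num
    have h5 := Real.log_le_log (Real.exp_pos 2) h1
    rw [Real.log_exp, Real.log_pow] at h5
    push_cast at h5
    linarith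
  have ha2 : Real.log (3 / 2) ≤ 42 / 100 := by
    rw [Real.log_le_iff_le_exp (by norm_num)]
    have := Real.quadratic_le_exp_of_nonneg (x := (42 / 100 : ℝ)) (by norm_num)
    refine le_trans ?_ this
    norm_num
  have hb1 := Real.log_two_gt_d9
  have hb2 := Real.log_two_lt_d9
  have hA : (1.2247 : ℝ) ≤ Real.sqrt (3 / 2) := Real.le_sqrt_of_sq_le (by norm_num)
  have hB : (0.7071 : ℝ) ≤ Real.sqrt (1 / 2) := Real.le_sqrt_of_sq_le (by norm_num)
  have key : ∀ x : ℝ, 0 < x → Real.sqrt x * (1 + (s - 1 / 2) * Real.log x) ≤ x ^ s := by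
    intro x hx
    have e : x ^ s = Real.sqrt x * Real.exp ((s - 1 / 2) * Real.log x) := by
      rw [Real.sqrt_eq_rpow, Real.rpow_def_of_pos hx, Real.rpow_def_of_pos hx, ← Real.exp_add]
      congr 1; ring
    rw [e]
    have := Real.add_one_le_exp ((s - 1 / 2) * Real.log x)
    exact mul_le_mul_of_nonneg_left (by linarith) (Real.sqrt_nonneg x)
  have h1 := key (3 / 2) (by norm_num)
  have h2 := key (1 / 2) (by norm_num)
  have e3 : Real.log (1 / 2) = -Real.log 2 := by rw [one_div, Real.log_inv]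
  rw [e3] at h2
  set a := Real.log (3 / 2) with ha
  set b := Real.log 2 with hb
  set X := Real.sqrt (3 / 2) with hX
  set Y := Real.sqrt (1 / 2) with hY
  have f1 : (1.2247 : ℝ) * (1 + (s - 1 / 2) * a) ≤ X * (1 + (s - 1 / 2) * a) := by
    refine mul_le_mul_of_nonneg_right hA ?_
    nlinarith
  have f2 : (0.7071 : ℝ) * (1 + (s - 1 / 2) * -b) ≤ Y * (1 + (s - 1 / 2) * -b) := by
    refine mul_le_mul_of_nonneg_right hB ?_
    nlinarith
  have f3 : (23 / 12 : ℝ) ≤ 1.2247 * (1 + (s - 1 / 2) * a) + 0.7071 * (1 + (s - 1 / 2) * -b) := by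
    have g1 : (23 / 12 : ℝ) ≤ 1.2247 * (1 + (0 - 1 / 2) * a) + 0.7071 * (1 + (0 - 1 / 2) * -b) := by
      nlinarith
    have g2 : (23 / 12 : ℝ) ≤ 1.2247 * (1 + (1 - 1 / 2) * a) + 0.7071 * (1 + (1 - 1 / 2) * -b) := by
      nlinarith
    nlinarith [mul_le_mul_of_nonneg_left g1 (by linarith : 0 ≤ 1 - s),
      mul_le_mul_of_nonneg_left g2 hs0]
  linarith

/-- Case `κ = 1/23`. -/
lemma Psi_nonneg23 {r : ℝ} (h2 : 2 ≤ r) (h3 : r ≤ 3) :
    ∀ w ∈ Icc (0 : ℝ) (1 / 2), 0 ≤ lPsi (1 / 23) r w := by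
  have hr0 : 0 < r := by linarith
  have hU : ∀ w ∈ Icc (0 : ℝ) (1 / 2), 0 ≤ -lU r w := by
    intro w hw
    have hw0 := hw.1
    have hw1 := hw.2
    unfold lU
    have e1 : (1 + w) ^ (r - 3) ≤ (1 - w) ^ (r - 3) :=
      Real.rpow_le_rpow_of_nonpos (by linarith) (by linarith) (by linarith)
    have e2 : 0 ≤ r * (r - 1) * (r - 2) :=
      mul_nonneg (mul_nonneg hr0.le (by linarith)) (by linarith)
    have e3 : 0 ≤ (1 - w) ^ (r - 3) - (1 + w) ^ (r - 3) := by linarith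
    nlinarith [mul_nonneg e2 e3]
  have hTm : MonotoneOn (fun w => -lT r w) (Icc (0 : ℝ) (1 / 2)) :=
    mono_aux (F' := fun w => -lU r w) (fun w hw => (hd_T r hw).neg) hU
  have hT0 : ∀ w ∈ Icc (0 : ℝ) (1 / 2), lT r w ≤ 2 * (r * (r - 1)) := by
    intro w hw
    have h1 := hTm (left_mem_Icc.mpr (by norm_num)) hw hw.1
    simp only at h1
    have h2 : lT r 0 = 2 * (r * (r - 1)) := by
      unfold lT; simp; ring
    linarith
  have hT1 : ∀ w ∈ Icc (0 : ℝ) (1 / 2), 23 / 12 * (r * (r - 1)) ≤ lT r w := by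
    intro w hw
    have h1 := hTm hw (right_mem_Icc.mpr (by norm_num)) hw.2
    simp only at h1
    have h4 : 23 / 12 * (r * (r - 1)) ≤ lT r (1 / 2) := by
      unfold lT
      have e := num_aux (s := r - 2) (by linarith) (by linarith)
      have e5 : (1 : ℝ) + 1 / 2 = 3 / 2 := by norm_num
      have e6 : (1 : ℝ) - 1 / 2 = 1 / 2 := by norm_num
      rw [e5, e6, mul_comm (23 / 12 : ℝ)]
      exact mul_le_mul_of_nonneg_left e (mul_nonneg hr0.le (by linarith))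
    linarith
  have hQT : ∀ w ∈ Icc (0 : ℝ) (1 / 2), 0 ≤ lQ r w - w * lT r w := by
    refine nonneg_aux (F := fun w => lQ r w - w * lT r w) (F' := fun w => w * (-lU r w)) ?_ ?_ ?_
    · simp [lQ]
    · intro w hw
      have h1 := (hd_Q r hw).sub ((hasDerivAt_id w).mul (hd_T r hw))
      have e : w * (-lU r w) = lT r w - (1 * lT r w + id w * lU r w) := by simp
      rw [e]
      exact h1
    · intro w hw
      exact mul_nonneg hw.1 (hU w hw)
  have hQ2 : ∀ w ∈ Icc (0 : ℝ) (1 / 2), 0 ≤ 2 * (r * (r - 1)) * w - lQ r w := by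
    refine nonneg_aux (F := fun w => 2 * (r * (r - 1)) * w - lQ r w)
      (F' := fun w => 2 * (r * (r - 1)) - lT r w) ?_ ?_ ?_
    · simp [lQ]
    · intro w hw
      have h1 := ((hasDerivAt_id w).const_mul (2 * (r * (r - 1)))).sub (hd_Q r hw)
      rw [mul_one] at h1
      exact h1
    · intro w hw
      have := hT0 w hw
      linarith
  have hP2 : ∀ w ∈ Icc (0 : ℝ) (1 / 2), 0 ≤ (r * (r - 1)) * w ^ 2 - lP r w := by
    refine nonneg_aux (F := fun w => (r * (r - 1)) * w ^ 2 - lP r w)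
      (F' := fun w => 2 * (r * (r - 1)) * w - lQ r w) ?_ ?_ hQ2
    · simp [lP]; norm_num
    · intro w hw
      have h0 : HasDerivAt (fun w : ℝ => w ^ 2) (2 * w) w := by
        simpa using hasDerivAt_pow 2 w
      have h1 := (h0.const_mul (r * (r - 1))).sub (hd_P r hw)
      have e : 2 * (r * (r - 1)) * w - lQ r w = r * (r - 1) * (2 * w) - lQ r w := by ring
      rw [e]
      exact h1
  refine nonneg_aux (F' := fun w => -lP r w + 8 * (1 / 23) * (w * lQ r w) +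
    4 * (1 / 23) * (w ^ 2 * lT r w)) (Psi_zero _ _).ge (fun w hw => hd_Psi _ hr0 hw) ?_
  intro w hw
  have g1 := hP2 w hw
  have g2 := mul_nonneg hw.1 (hQT w hw)
  have g3 := mul_le_mul_of_nonneg_left (hT1 w hw) (sq_nonneg w)
  have e : -lP r w + 8 * (1 / 23) * (w * lQ r w) + 4 * (1 / 23) * (w ^ 2 * lT r w) =
    ((r * (r - 1)) * w ^ 2 - lP r w) + 8 / 23 * (w * (lQ r w - w * lT r w)) +
      12 / 23 * (w ^ 2 * lT r w - w ^ 2 * (23 / 12 * (r * (r - 1)))) := by ring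
  rw [e]
  have g4 : 0 ≤ w ^ 2 * lT r w - w ^ 2 * (23 / 12 * (r * (r - 1))) := by linarith
  linarith

/-- the induction step -/
lemma step_aux {κ r : ℝ} (hr : 0 < r)
    (hPsi : ∀ w ∈ Icc (0 : ℝ) (1 / 2), 0 ≤ lPsi κ r w) {t : ℝ} (ht : 1 ≤ t) :
    (t + 1 / 2) ^ (r + 1) / (r + 1) - κ * r * (t + 1 / 2) ^ (r - 1) -
      ((t - 1 / 2) ^ (r + 1) / (r + 1) - κ * r * (t - 1 / 2) ^ (r - 1)) ≤ t ^ r := by
  have ht0 : 0 < t := by linarith
  set w : ℝ := 1 / (2 * t) with hw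
  have hw0 : 0 < w := by positivity
  have hw1 : w ≤ 1 / 2 := by
    rw [hw, div_le_div_iff₀ (by positivity) (by norm_num)]
    linarith
  have h := hPsi w ⟨hw0.le, hw1⟩
  have e1 : t + 1 / 2 = t * (1 + w) := by rw [hw]; field_simp
  have e2 : t - 1 / 2 = t * (1 - w) := by rw [hw]; field_simp
  have hm : 0 ≤ 1 - w := by linarith
  rw [e1, e2, Real.mul_rpow ht0.le (by positivity), Real.mul_rpow ht0.le (by positivity),
    Real.mul_rpow ht0.le hm, Real.mul_rpow ht0.le hm]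
  have e3 : t ^ r = t ^ (r + 1) * (2 * w) := by
    rw [Real.rpow_add_one ht0.ne', hw]; field_simp
  have e4 : t ^ (r - 1) = t ^ (r + 1) * (4 * w ^ 2) := by
    have : r + 1 = (r - 1) + 2 := by ring
    rw [this, Real.rpow_add ht0, hw]
    have h2 : t ^ (2 : ℝ) = t ^ 2 := by exact_mod_cast Real.rpow_natCast t 2
    rw [h2]
    field_simp
    ring
  rw [e3, e4]
  have e5 : t ^ (r + 1) * (2 * w) - (t ^ (r + 1) * (1 + w) ^ (r + 1) / (r + 1) -
      κ * r * (t ^ (r + 1) * (4 * w ^ 2) * (1 + w) ^ (r - 1)) -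
      (t ^ (r + 1) * (1 - w) ^ (r + 1) / (r + 1) -
      κ * r * (t ^ (r + 1) * (4 * w ^ 2) * (1 - w) ^ (r - 1)))) =
      t ^ (r + 1) * lPsi κ r w := by
    unfold lPsi lQ
    ring
  have h6 : 0 ≤ t ^ (r + 1) * lPsi κ r w := mul_nonneg (by positivity) h
  linarith

lemma sum_aux {κ r : ℝ} (hr : 0 < r)
    (hPsi : ∀ w ∈ Icc (0 : ℝ) (1 / 2), 0 ≤ lPsi κ r w) (k : ℕ) :
    ((k : ℝ) + 1 / 2) ^ (r + 1) / (r + 1) - κ * r * ((k : ℝ) + 1 / 2) ^ (r - 1) -
      ((1 / 2 : ℝ) ^ (r + 1) / (r + 1) - κ * r * (1 / 2 : ℝ) ^ (r - 1)) ≤ S k r := by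
  induction k with
  | zero => simp [S]
  | succ k ih =>
    have hS : S (k + 1) r = S k r + ((k + 1 : ℕ) : ℝ) ^ r := by
      unfold S
      rw [Finset.sum_Icc_succ_top (by omega)]
    have h := step_aux hr hPsi (t := ((k + 1 : ℕ) : ℝ)) (by push_cast; linarith [Nat.cast_nonneg (α := ℝ) k])
    have e : ((k + 1 : ℕ) : ℝ) - 1 / 2 = (k : ℝ) + 1 / 2 := by push_cast; ring
    rw [e] at h
    rw [hS]
    linarith

theorem low13 {r : ℝ} (h : (1 ≤ r ∧ r ≤ 2) ∨ 3 ≤ r) (k : ℕ) :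
    ((k : ℝ) + 1 / 2) ^ (r + 1) / (r + 1) - r / 24 * ((k : ℝ) + 1 / 2) ^ (r - 1) -
      ((1 / 2 : ℝ) ^ (r + 1) / (r + 1) - r / 24 * (1 / 2 : ℝ) ^ (r - 1)) ≤ S k r := by
  have hr0 : 0 < r := by
    rcases h with h | h
    · linarith [h.1]
    · linarith
  have h1 := sum_aux hr0 (Psi_nonneg24 h) k
  have e : (1 / 24 : ℝ) * r = r / 24 := by ring
  rw [e] at h1
  exact h1

lemma half_aux (r : ℝ) : (1 / 2 : ℝ) ^ (r + 1) = (1 / 2 : ℝ) ^ (r - 1) * (1 / 4) := by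
  have : r + 1 = (r - 1) + 2 := by ring
  rw [this, Real.rpow_add (by norm_num)]
  congr 1
  have h2 : (1 / 2 : ℝ) ^ (2 : ℝ) = (1 / 2 : ℝ) ^ 2 := by exact_mod_cast Real.rpow_natCast (1 / 2) 2
  rw [h2]; norm_num

theorem low2 {r : ℝ} (h : 2 ≤ r) (k : ℕ) :
    ((k : ℝ) + 1 / 2) ^ (r + 1) / (r + 1) - r / 23 * ((k : ℝ) + 1 / 2) ^ (r - 1) ≤ S k r := by
  have hr0 : 0 < r := by linarith
  have hp : 0 < (1 / 2 : ℝ) ^ (r - 1) := by positivity
  have hx : 0 < ((k : ℝ) + 1 / 2) ^ (r - 1) := by positivity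
  rcases le_total r 3 with h3 | h3
  · have h1 := sum_aux hr0 (Psi_nonneg23 h h3) k
    have e : (1 / 23 : ℝ) * r = r / 23 := by ring
    rw [e, half_aux r] at h1
    have h4 : (1 / 2 : ℝ) ^ (r - 1) * (1 / 4) / (r + 1) - r / 23 * (1 / 2 : ℝ) ^ (r - 1) ≤ 0 := by
      have : (1 / 2 : ℝ) ^ (r - 1) * (1 / 4) / (r + 1) - r / 23 * (1 / 2 : ℝ) ^ (r - 1) =
        (1 / 2 : ℝ) ^ (r - 1) * ((1 / 4) / (r + 1) - r / 23) := by ring
      rw [this]
      refine mul_nonpos_of_nonneg_of_nonpos hp.le ?_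
      rw [sub_nonpos, div_le_div_iff₀ (by positivity) (by norm_num)]
      nlinarith
    linarith
  · have h1 := low13 (Or.inr h3) k
    rw [half_aux r] at h1
    have h4 : (1 / 2 : ℝ) ^ (r - 1) * (1 / 4) / (r + 1) - r / 24 * (1 / 2 : ℝ) ^ (r - 1) ≤ 0 := by
      have : (1 / 2 : ℝ) ^ (r - 1) * (1 / 4) / (r + 1) - r / 24 * (1 / 2 : ℝ) ^ (r - 1) =
        (1 / 2 : ℝ) ^ (r - 1) * ((1 / 4) / (r + 1) - r / 24) := by ring
      rw [this]
      refine mul_nonpos_of_nonneg_of_nonpos hp.le ?_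
      rw [sub_nonpos, div_le_div_iff₀ (by positivity) (by norm_num)]
      nlinarith
    have h5 : r / 24 * ((k : ℝ) + 1 / 2) ^ (r - 1) ≤ r / 23 * ((k : ℝ) + 1 / 2) ^ (r - 1) := by
      refine mul_le_mul_of_nonneg_right ?_ hx.le
      linarith
    linarith

end GK
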