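import Pool.Agent.R963.GK.Defs

/-!
The majorization inequality (tangent lines) for MP_499f6d_pr.
-/

namespace GK

lemma maj_tangent {r X x : ℝ} (hr : 1 ≤ r) (hX : 0 < X) (hx : 0 ≤ x) :
    X ^ r + (r * X ^ r / X) * (x - X) ≤ x ^ r := by
  have h1 : -1 ≤ x / X - 1 := by
    have : 0 ≤ x / X := div_nonneg hx hX.le
    linarith
  have h2 := one_add_mul_self_le_rpow_one_add h1 hr
  have h3 : 1 + (x / X - 1) = x / X := by ring
  rw [h3, Real.div_rpow hx hX.le] at h2
  have hXr : 0 < X ^ r := Real.rpow_pos_of_pos hX r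
  rw [le_div_iff₀ hXr] at h2
  refine le_trans (le_of_eq ?_) h2
  field_simp

lemma maj_lin (a n : ℕ) (u c b : ℝ) :
    ∑ i ∈ Finset.range n, (u + c * (3 * (((a + i : ℕ) : ℝ) + 1) - b))
      = n * u + c * (3 * n * a + 3 * n * (n + 1) / 2 - n * b) := by
  induction n with
  | zero => simp
  | succ n ih =>
    rw [Finset.sum_range_succ, ih]
    push_cast
    ring

lemma maj_block {r : ℝ} (hr : 1 ≤ r) (a n : ℕ) {X : ℝ} (hX : 0 < X) :
    n * X ^ r + (r * X ^ r / X) * (3 * n * a + 3 * n * (n + 1) / 2 - n * X)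
      ≤ ∑ i ∈ Finset.range n, (3 * (((a + i : ℕ) : ℝ) + 1)) ^ r := by
  rw [← maj_lin]
  refine Finset.sum_le_sum (fun i _ => ?_)
  exact maj_tangent hr hX (by positivity)

lemma maj_S (k : ℕ) (r : ℝ) :
    3 ^ r * S k r = ∑ i ∈ Finset.range k, (3 * ((i : ℝ) + 1)) ^ r := by
  unfold S
  rw [Finset.mul_sum]
  have : Finset.Icc 1 k = Finset.Ico 1 (k + 1) := by
    ext i
    simp only [Finset.mem_Icc, Finset.mem_Ico]
    omega
  rw [this, Finset.sum_Ico_eq_sum_range]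
  refine Finset.sum_congr (by simp) (fun i _ => ?_)
  rw [Real.mul_rpow (by norm_num) (by positivity)]
  push_cast
  ring_nf

theorem maj {k m : ℕ} (hm : 1 ≤ m) (hmk : m ≤ k) (h5 : 2 * k + 1 ≤ 5 * m) {r : ℝ} (hr : 1 ≤ r) :
    (m : ℝ) * (2 * ((k : ℝ) - m) + 1) ^ r * (1 + 2 ^ r) ≤ 3 ^ r * S k r := by
  obtain ⟨y, rfl⟩ : ∃ y, k = y + m := ⟨k - m, by omega⟩
  rw [maj_S, Finset.sum_range_add]
  have hk : (2 * (((y + m : ℕ) : ℝ) - m) + 1) = 2 * (y : ℝ) + 1 := by
    push_cast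
    ring
  rw [hk]
  set N : ℝ := 2 * (y : ℝ) + 1 with hN
  have hy0 : (0 : ℝ) ≤ y := Nat.cast_nonneg y
  have hm1 : (1 : ℝ) ≤ m := by exact_mod_cast hm
  have hNpos : 0 < N := by positivity
  have h5' : 2 * (y : ℝ) + 1 ≤ 3 * m := by
    have : 2 * y + 1 ≤ 3 * m := by omega
    exact_mod_cast this
  have hNr : 0 < N ^ r := Real.rpow_pos_of_pos hNpos r
  have h2r : (2 * N) ^ r = 2 ^ r * N ^ r := Real.mul_rpow (by norm_num) hNpos.le
  -- the top block
  have hB := maj_block hr y m (X := 2 * N) (by positivity)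
  -- slopes
  set c1 : ℝ := r * N ^ r / N with hc1
  set c2 : ℝ := r * (2 * N) ^ r / (2 * N) with hc2
  have hc1N : c1 * N = r * N ^ r := by
    rw [hc1]
    field_simp
  have h2r' : (2 : ℝ) ≤ 2 ^ r := by
    calc (2 : ℝ) = 2 ^ (1 : ℝ) := (Real.rpow_one 2).symm
      _ ≤ 2 ^ r := Real.rpow_le_rpow_of_exponent_le (by norm_num) hr
  have hc12 : c1 ≤ c2 := by
    have : c2 = c1 * (2 ^ r / 2) := by
      rw [hc1, hc2, h2r]
      field_simp
    rw [this]
    have hc1p : 0 ≤ c1 := by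
      rw [hc1]
      positivity
    have : 1 ≤ (2 : ℝ) ^ r / 2 := by linarith
    nlinarith
  set e : ℝ := m * (3 * m - 2 * y - 1) / 2 with he
  have he0 : 0 ≤ e := by
    rw [he]
    have : 0 ≤ 3 * (m : ℝ) - 2 * y - 1 := by linarith
    positivity
  have hB' : (m : ℝ) * (2 * N) ^ r + c2 * e
      ≤ ∑ i ∈ Finset.range m, (3 * (((y + i : ℕ) : ℝ) + 1)) ^ r := by
    refine le_trans (le_of_eq ?_) hB
    rw [he, hN]
    ring
  -- the bottom block
  have hA : (m : ℝ) * N ^ r - c1 * e ≤ ∑ i ∈ Finset.range y, (3 * ((i : ℝ) + 1)) ^ r := by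
    rcases le_or_gt m y with hmy | hmy
    · obtain ⟨z, rfl⟩ : ∃ z, y = z + m := ⟨y - m, by omega⟩
      rw [Finset.sum_range_add]
      have h1 := maj_block hr z m (X := N) hNpos
      have h2 : 0 ≤ ∑ i ∈ Finset.range z, (3 * ((i : ℝ) + 1)) ^ r :=
        Finset.sum_nonneg (fun i _ => by positivity)
      have h3 : (m : ℝ) * N ^ r - c1 * e = (m : ℝ) * N ^ r + (r * N ^ r / N) *
          (3 * m * z + 3 * m * (m + 1) / 2 - m * N) := by
        rw [← hc1, he, hN]
        push_cast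
        ring
      rw [h3]
      linarith
    · have h1 := maj_block hr 0 y (X := N) hNpos
      simp only [Nat.zero_add] at h1
      rw [← hc1] at h1
      have hym : (y : ℝ) + 1 ≤ m := by exact_mod_cast hmy
      have h4 : ((m : ℝ) - y) * (N ^ r - c1 * N) ≤ 0 := by
        rw [hc1N]
        have : N ^ r - r * N ^ r ≤ 0 := by nlinarith
        exact mul_nonpos_of_nonneg_of_nonpos (by linarith) this
      have hc1p : 0 ≤ c1 := by
        rw [hc1]
        positivity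
      have h5 : 0 ≤ c1 * ((3 / 2) * ((m : ℝ) - y) * ((m : ℝ) - y - 1)) := by
        have h51 : 0 ≤ (m : ℝ) - y := by linarith
        have h52 : 0 ≤ (m : ℝ) - y - 1 := by linarith
        positivity
      have h6 : (m : ℝ) * N ^ r - c1 * e = ((y : ℝ) * N ^ r + c1 *
          (3 * y * ((0 : ℕ) : ℝ) + 3 * y * (y + 1) / 2 - y * N))
          + ((m : ℝ) - y) * (N ^ r - c1 * N)
          - c1 * ((3 / 2) * ((m : ℝ) - y) * ((m : ℝ) - y - 1)) := by
        rw [he, hN]
        push_cast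
        ring
      rw [h6]
      linarith
  have hc : c1 * e ≤ c2 * e := mul_le_mul_of_nonneg_right hc12 he0
  have hfin : (m : ℝ) * N ^ r * (1 + 2 ^ r) = (m : ℝ) * N ^ r + (m : ℝ) * (2 * N) ^ r := by
    rw [h2r]
    ring
  rw [hfin]
  linarith

end GK
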