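import Pool.Agent.R963.GK.Defs

/-!
Unimodality in `k` of `g(k;r)` for MP_499f6d_pr.
-/

namespace GK

noncomputable def uniu (r y : ℝ) : ℝ := (1 - y / 2) ^ r - (1 - 3 * y / 2) ^ r

noncomputable def uniD (r : ℝ) (j : ℕ) : ℝ := ((j : ℝ) + 1 / 2) ^ r - ((j : ℝ) - 1 / 2) ^ r

noncomputable def uniU (r : ℝ) (j : ℕ) : ℝ := ((j : ℝ) + 1) ^ r / uniD r j

noncomputable def uniW (r : ℝ) (j : ℕ) : ℝ := S j r - ((j : ℝ) - 1 / 2) ^ r * uniU r j

lemma uniu_deriv {r : ℝ} (hr : 1 ≤ r) (y : ℝ) :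
    HasDerivAt (uniu r) (r / 2 * (3 * (1 - 3 * y / 2) ^ (r - 1) - (1 - y / 2) ^ (r - 1))) y := by
  have h1 : HasDerivAt (fun y : ℝ => 1 - y / 2) (-(1 / 2)) y := by
    simpa using ((hasDerivAt_id y).div_const 2).const_sub 1
  have h2 : HasDerivAt (fun y : ℝ => 1 - 3 * y / 2) (-(3 * 1 / 2)) y := by
    exact (((hasDerivAt_id y).const_mul 3).div_const 2).const_sub 1
  have h3 := h1.rpow_const (p := r) (Or.inr hr)
  have h4 := h2.rpow_const (p := r) (Or.inr hr)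
  have h5 := h3.sub h4
  refine h5.congr_deriv ?_
  ring

/-- once the derivative is nonpositive it is negative afterwards -/
lemma uniu_sign {r ξ η : ℝ} (hr : 1 ≤ r) (h0 : 0 ≤ ξ) (h : ξ < η) (h1 : η ≤ 1 / 2)
    (hs : r / 2 * (3 * (1 - 3 * ξ / 2) ^ (r - 1) - (1 - ξ / 2) ^ (r - 1)) ≤ 0) :
    r / 2 * (3 * (1 - 3 * η / 2) ^ (r - 1) - (1 - η / 2) ^ (r - 1)) < 0 := by
  have hr0 : 0 < r / 2 := by linarith
  have hs' : 3 * (1 - 3 * ξ / 2) ^ (r - 1) ≤ (1 - ξ / 2) ^ (r - 1) := by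
    by_contra hc
    rw [not_le] at hc
    have := mul_pos hr0 (sub_pos.mpr hc)
    linarith
  rcases eq_or_lt_of_le hr with hr1 | hr1
  · rw [← hr1] at hs'
    norm_num at hs'
  · have hr1' : 0 < r - 1 := by linarith
    have a1 : 0 < 1 - 3 * ξ / 2 := by linarith
    have a2 : 0 < 1 - ξ / 2 := by linarith
    have a3 : 0 < 1 - 3 * η / 2 := by linarith
    have a4 : 0 < 1 - η / 2 := by linarith
    have key : (1 - 3 * η / 2) * (1 - ξ / 2) < (1 - η / 2) * (1 - 3 * ξ / 2) := by nlinarith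
    have key2 : ((1 - 3 * η / 2) * (1 - ξ / 2)) ^ (r - 1)
        < ((1 - η / 2) * (1 - 3 * ξ / 2)) ^ (r - 1) :=
      Real.rpow_lt_rpow (by positivity) key hr1'
    rw [Real.mul_rpow a3.le a2.le, Real.mul_rpow a4.le a1.le] at key2
    have p1 := Real.rpow_pos_of_pos a1 (r - 1)
    have p2 := Real.rpow_pos_of_pos a2 (r - 1)
    have p3 := Real.rpow_pos_of_pos a3 (r - 1)
    have p4 := Real.rpow_pos_of_pos a4 (r - 1)
    have hfin : 3 * (1 - 3 * η / 2) ^ (r - 1) < (1 - η / 2) ^ (r - 1) := by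
      by_contra hc
      rw [not_lt] at hc
      -- multiply
      have h1 : (1 - η / 2) ^ (r - 1) * (1 - 3 * ξ / 2) ^ (r - 1)
          ≤ 3 * (1 - 3 * η / 2) ^ (r - 1) * (1 - 3 * ξ / 2) ^ (r - 1) :=
        mul_le_mul_of_nonneg_right hc p1.le
      have h2 : (1 - 3 * η / 2) ^ (r - 1) * (3 * (1 - 3 * ξ / 2) ^ (r - 1))
          ≤ (1 - 3 * η / 2) ^ (r - 1) * (1 - ξ / 2) ^ (r - 1) :=
        mul_le_mul_of_nonneg_left hs' p3.le
      nlinarith
    have := mul_pos hr0 (sub_pos.mpr hfin)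
    linarith

/-- strict quasi-concavity -/
lemma uniu_qc {r a b c : ℝ} (hr : 1 ≤ r) (h0 : 0 ≤ a) (hab : a < b) (hbc : b < c)
    (h1 : c ≤ 1 / 2) (h : uniu r b ≤ uniu r c) : uniu r a < uniu r b := by
  by_contra hc
  rw [not_lt] at hc
  have hcont : Continuous (uniu r) :=
    continuous_iff_continuousAt.mpr (fun y => (uniu_deriv hr y).continuousAt)
  obtain ⟨ξ, hξ, e1⟩ := exists_hasDerivAt_eq_slope (uniu r) _ hab hcont.continuousOn
    (fun y _ => uniu_deriv hr y)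
  obtain ⟨η, hη, e2⟩ := exists_hasDerivAt_eq_slope (uniu r) _ hbc hcont.continuousOn
    (fun y _ => uniu_deriv hr y)
  have s1 : r / 2 * (3 * (1 - 3 * ξ / 2) ^ (r - 1) - (1 - ξ / 2) ^ (r - 1)) ≤ 0 := by
    rw [e1]
    exact div_nonpos_of_nonpos_of_nonneg (by linarith) (by linarith)
  have s2 := uniu_sign hr (by linarith [hξ.1]) (lt_trans hξ.2 hη.1) (by linarith [hη.2]) s1
  rw [e2] at s2
  have : 0 ≤ (uniu r c - uniu r b) / (c - b) := div_nonneg (by linarith) (by linarith)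
  linarith

lemma uniD_eq {r : ℝ} {j : ℕ} (hj : 1 ≤ j) :
    uniD r j = ((j : ℝ) + 1) ^ r * uniu r (1 / ((j : ℝ) + 1)) := by
  have hj' : (1 : ℝ) ≤ j := by exact_mod_cast hj
  have hp : (0 : ℝ) < (j : ℝ) + 1 := by linarith
  have e1 : 1 - 1 / ((j : ℝ) + 1) / 2 = ((j : ℝ) + 1 / 2) / ((j : ℝ) + 1) := by
    field_simp
    ring
  have e2 : 1 - 3 * (1 / ((j : ℝ) + 1)) / 2 = ((j : ℝ) - 1 / 2) / ((j : ℝ) + 1) := by
    field_simp
    ring
  unfold uniD uniu
  rw [e1, e2, Real.div_rpow (by linarith) hp.le, Real.div_rpow (by linarith) hp.le]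
  have : ((j : ℝ) + 1) ^ r ≠ 0 := (Real.rpow_pos_of_pos hp r).ne'
  field_simp

lemma uniD_pos {r : ℝ} (hr : 1 ≤ r) {j : ℕ} (hj : 1 ≤ j) : 0 < uniD r j := by
  have hj' : (1 : ℝ) ≤ j := by exact_mod_cast hj
  unfold uniD
  have := Real.rpow_lt_rpow (x := (j : ℝ) - 1 / 2) (y := (j : ℝ) + 1 / 2) (z := r)
    (by linarith) (by linarith) (by linarith)
  linarith

lemma uniU_eq {r : ℝ} (hr : 1 ≤ r) {j : ℕ} (hj : 1 ≤ j) :
    0 < uniu r (1 / ((j : ℝ) + 1)) ∧ uniU r j = 1 / uniu r (1 / ((j : ℝ) + 1)) := by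
  have hp : (0 : ℝ) < (j : ℝ) + 1 := by positivity
  have h1 := uniD_pos hr hj
  rw [uniD_eq hj] at h1
  have h2 := Real.rpow_pos_of_pos hp r
  have h3 : 0 < uniu r (1 / ((j : ℝ) + 1)) := (mul_pos_iff_of_pos_left h2).mp h1
  refine ⟨h3, ?_⟩
  unfold uniU
  rw [uniD_eq hj]
  field_simp

lemma uniU_step {r : ℝ} (hr : 1 ≤ r) {j : ℕ} (hj : 1 ≤ j) (h : uniU r j ≤ uniU r (j + 1)) :
    uniU r (j + 1) < uniU r (j + 2) := by
  obtain ⟨p1, e1⟩ := uniU_eq hr hj
  obtain ⟨p2, e2⟩ := uniU_eq (j := j + 1) hr (by omega)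
  obtain ⟨p3, e3⟩ := uniU_eq (j := j + 2) hr (by omega)
  rw [e1, e2] at h
  rw [e2, e3]
  have h' := (one_div_le_one_div p1 p2).mp h
  have hj' : (1 : ℝ) ≤ j := by exact_mod_cast hj
  refine one_div_lt_one_div_of_lt p3 (uniu_qc hr (by positivity) ?_ ?_ ?_ h')
  · apply one_div_lt_one_div_of_lt
    · positivity
    · push_cast
      linarith
  · apply one_div_lt_one_div_of_lt
    · positivity
    · push_cast
      linarith
  · apply one_div_le_one_div_of_le
    · norm_num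
    · linarith

lemma uniU_incr {r : ℝ} (hr : 1 ≤ r) {j : ℕ} (hj : 1 ≤ j) (h : uniU r j ≤ uniU r (j + 1))
    (i : ℕ) : uniU r (j + (i + 1)) < uniU r (j + (i + 1) + 1) := by
  induction i with
  | zero => exact uniU_step hr hj h
  | succ i ih => exact uniU_step (j := j + (i + 1)) hr (by omega) ih.le

lemma uniW_succ {r : ℝ} (hr : 1 ≤ r) {j : ℕ} (hj : 1 ≤ j) :
    uniW r (j + 1) = uniW r j + ((j : ℝ) + 1 / 2) ^ r * (uniU r j - uniU r (j + 1)) := by
  have hD := uniD_pos hr hj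
  have hS : S (j + 1) r = S j r + ((j : ℝ) + 1) ^ r := by
    unfold S
    rw [Finset.sum_Icc_succ_top (by omega)]
    push_cast
    rfl
  have hc : (((j + 1 : ℕ) : ℝ) - 1 / 2) = (j : ℝ) + 1 / 2 := by
    push_cast
    ring
  have hkey : ((j : ℝ) + 1) ^ r = uniU r j * uniD r j := by
    unfold uniU
    field_simp
  unfold uniW
  rw [hS, hc]
  have : uniD r j = ((j : ℝ) + 1 / 2) ^ r - ((j : ℝ) - 1 / 2) ^ r := rfl
  rw [this] at hkey
  rw [hkey]
  ring

lemma uni_S_pos (r : ℝ) {k : ℕ} (hk : 1 ≤ k) : 0 < S k r := by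
  unfold S
  refine Finset.sum_pos (fun i hi => ?_) ⟨1, by simp [hk]⟩
  have : 1 ≤ i := (Finset.mem_Icc.mp hi).1
  exact Real.rpow_pos_of_pos (by exact_mod_cast (by omega : 0 < i)) r

lemma uni_sub (r : ℝ) (hr : 1 ≤ r) {k : ℕ} (hk : 1 ≤ k) :
    (2 * (k : ℝ) - 1) ^ r * S (k + 1) r - (2 * ((k + 1 : ℕ) : ℝ) - 1) ^ r * S k r
      = - (2 ^ r * uniD r k * uniW r k) := by
  have hk' : (1 : ℝ) ≤ k := by exact_mod_cast hk
  have hS : S (k + 1) r = S k r + ((k : ℝ) + 1) ^ r := by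
    unfold S
    rw [Finset.sum_Icc_succ_top (by omega)]
    push_cast
    rfl
  have e1 : (2 * (k : ℝ) - 1) ^ r = 2 ^ r * ((k : ℝ) - 1 / 2) ^ r := by
    rw [← Real.mul_rpow (by norm_num) (by linarith)]
    congr 1
    ring
  have e2 : (2 * ((k + 1 : ℕ) : ℝ) - 1) ^ r = 2 ^ r * ((k : ℝ) + 1 / 2) ^ r := by
    rw [← Real.mul_rpow (by norm_num) (by linarith)]
    congr 1
    push_cast
    ring
  have hD := uniD_pos hr hk
  have hkey : ((k : ℝ) + 1) ^ r = uniU r k * uniD r k := by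
    unfold uniU
    field_simp
  rw [hS, e1, e2]
  unfold uniW
  have : uniD r k = ((k : ℝ) + 1 / 2) ^ r - ((k : ℝ) - 1 / 2) ^ r := rfl
  rw [this] at hkey ⊢
  rw [hkey]
  ring

lemma uni_le_iff {r : ℝ} (hr : 1 ≤ r) {k : ℕ} (hk : 1 ≤ k) :
    g (k + 1) r ≤ g k r ↔ uniW r k ≤ 0 := by
  have h1 := uni_S_pos r hk
  have h2 := uni_S_pos r (k := k + 1) (by omega)
  have hD := uniD_pos hr hk
  have h2r : (0 : ℝ) < 2 ^ r := by positivity
  have hsub := uni_sub r hr hk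
  unfold g
  rw [div_le_div_iff₀ h2 h1]
  constructor
  · intro h
    by_contra hc
    rw [not_le] at hc
    have := mul_pos (mul_pos h2r hD) hc
    linarith
  · intro h
    have := mul_nonpos_of_nonneg_of_nonpos (mul_pos h2r hD).le h
    linarith

lemma uni_lt_iff {r : ℝ} (hr : 1 ≤ r) {k : ℕ} (hk : 1 ≤ k) :
    g (k + 1) r < g k r ↔ uniW r k < 0 := by
  have h1 := uni_S_pos r hk
  have h2 := uni_S_pos r (k := k + 1) (by omega)
  have hD := uniD_pos hr hk
  have h2r : (0 : ℝ) < 2 ^ r := by positivity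
  have hsub := uni_sub r hr hk
  unfold g
  rw [div_lt_div_iff₀ h2 h1]
  constructor
  · intro h
    by_contra hc
    rw [not_lt] at hc
    have := mul_nonneg (mul_pos h2r hD).le hc
    linarith
  · intro h
    have := mul_neg_of_pos_of_neg (mul_pos h2r hD) h
    linarith

lemma uni_W_one {r : ℝ} (hr : 1 < r) : 0 < uniW r 1 := by
  have hD : 1 < uniD r 1 := by
    unfold uniD
    have h1 := one_add_mul_self_le_rpow_one_add (s := 1 / 2) (by norm_num) hr.le
    have h2 : ((1 / 2 : ℝ)) ^ r ≤ (1 / 2 : ℝ) ^ (1 : ℝ) :=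
      Real.rpow_le_rpow_of_exponent_ge (by norm_num) (by norm_num) hr.le
    rw [Real.rpow_one] at h2
    have e1 : (((1 : ℕ) : ℝ) + 1 / 2) = 1 + 1 / 2 := by norm_num
    have e2 : (((1 : ℕ) : ℝ) - 1 / 2) = 1 / 2 := by norm_num
    rw [e1, e2]
    linarith
  have hS : S 1 r = 1 := by
    unfold S
    simp
  unfold uniW uniU
  rw [hS]
  have e2 : (((1 : ℕ) : ℝ) - 1 / 2) = 1 / 2 := by norm_num
  have e3 : (((1 : ℕ) : ℝ) + 1) = 2 := by norm_num
  rw [e2, e3]
  have e4 : ((1 / 2 : ℝ)) ^ r * (2 ^ r / uniD r 1) = 1 / uniD r 1 := by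
    rw [mul_div_assoc', ← Real.mul_rpow (by norm_num) (by norm_num)]
    norm_num
  rw [e4]
  have : 1 / uniD r 1 < 1 := by
    rw [div_lt_one (by linarith)]
    exact hD
  linarith

theorem uni {k : ℕ} (hk : 1 ≤ k) {r : ℝ} (hr : 1 ≤ r) (h : g (k + 1) r ≤ g k r) :
    g (k + 2) r < g (k + 1) r := by
  rw [uni_le_iff hr hk] at h
  rw [uni_lt_iff hr (k := k + 1) (by omega)]
  have hk' : (1 : ℝ) ≤ k := by exact_mod_cast hk
  have hpos : 0 < ((k : ℝ) + 1 / 2) ^ r := Real.rpow_pos_of_pos (by linarith) r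
  rcases lt_or_ge (uniU r k) (uniU r (k + 1)) with hU | hU
  · rw [uniW_succ hr hk]
    have := mul_neg_of_pos_of_neg hpos (sub_neg.mpr hU)
    linarith
  · exfalso
    rcases eq_or_lt_of_le hr with hr1 | hr1
    · have hU1 : ∀ j : ℕ, 1 ≤ j → uniU r j = (j : ℝ) + 1 := by
        intro j _
        unfold uniU uniD
        rw [← hr1]
        simp only [Real.rpow_one]
        ring
      rw [hU1 k hk, hU1 (k + 1) (by omega)] at hU
      push_cast at hU
      linarith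
    · have hmono : ∀ i, 1 + i ≤ k → 0 < uniW r (1 + i) := by
        intro i
        induction i with
        | zero => intro _; exact uni_W_one hr1
        | succ i ih =>
          intro hi
          have h1 := ih (by omega)
          have h2 : uniU r (1 + i + 1) < uniU r (1 + i) := by
            by_contra hc
            rw [not_lt] at hc
            have h3 := uniU_incr hr (j := 1 + i) (by omega) hc (k - (1 + i) - 1)
            have h4 : 1 + i + (k - (1 + i) - 1 + 1) = k := by omega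
            rw [h4] at h3
            linarith
          have h5 := uniW_succ hr (j := 1 + i) (by omega)
          have h6 : 0 ≤ (((1 + i : ℕ) : ℝ) + 1 / 2) ^ r * (uniU r (1 + i) - uniU r (1 + i + 1)) :=
            mul_nonneg (by positivity) (by linarith)
          show 0 < uniW r (1 + i + 1)
          linarith
      have h7 := hmono (k - 1) (by omega)
      have h8 : 1 + (k - 1) = k := by omega
      rw [h8] at h7
      linarith

end GK
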