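import Pool.Agent.R963.GK.MH
import Pool.Agent.R963.GK.E12
import Pool.Agent.R963.GK.ER
import Pool.Agent.R963.GK.Ends
import Pool.Agent.R963.GK.Cross
import Pool.Agent.R963.GK.Uni
import Pool.Agent.R963.GK.GK3
import Pool.Agent.R963.GK.Maj
import Pool.Agent.R963.GK.Low
import Pool.Agent.R963.GK.Conc

/-!
The key inequality: for `r ≥ 1` every `m (2(k-m)+1)^r / S(k;r)` is at most some `g(j;r)`.
-/

set_option maxHeartbeats 400000

namespace GK

lemma A_pos {r : ℝ} (hr : 0 < r) : 0 < A r := by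
  unfold A
  apply Real.rpow_pos_of_pos
  positivity

/-- lower bound for the maximum of `g(j;r)` over `j`, `r ≥ 2.1` -/
lemma low_big {r : ℝ} (hr : 2.1 ≤ r) : ∃ j : ℕ, 1 ≤ j ∧ 1.0115 * A r ≤ g j r := by
  rcases le_total r 3 with h3 | h3
  · refine ⟨3, by norm_num, ?_⟩
    refine conc (by norm_num) (a := 21/10) (b := 3) (by norm_num) (by linarith) h3 (by norm_num)
      end3' end3''
  · obtain ⟨n, hn1, hn2⟩ : ∃ n : ℕ, (n : ℝ) ≤ r ∧ r < n + 1 :=
      ⟨⌊r⌋₊, Nat.floor_le (by linarith), Nat.lt_floor_add_one r⟩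
    have hn3 : 3 ≤ n := by
      by_contra hcon
      push Not at hcon
      have : (n : ℝ) + 1 ≤ 3 := by exact_mod_cast hcon
      linarith
    obtain ⟨h1, h2⟩ := endn hn3
    refine ⟨n + 1, by omega, ?_⟩
    have hn1' : (1 : ℝ) ≤ n := by
      have : 1 ≤ n := by omega
      exact_mod_cast this
    exact conc (by omega) hn1' hn1 hn2.le (by norm_num) h1 h2

lemma low_small {r : ℝ} (hr : 2 ≤ r) (hr2 : r ≤ 2.1) : ∃ j : ℕ, 1 ≤ j ∧ 1.008 * A r ≤ g j r := by
  rcases le_total r (41/20) with h | h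
  · exact ⟨2, by norm_num, conc (by norm_num) (by norm_num) hr h (by norm_num) end2 end2'⟩
  · refine ⟨3, by norm_num, conc (by norm_num) (by norm_num) h (b := 21/10) (by linarith)
      (by norm_num) end3 (le_trans ?_ end3')⟩
    apply mul_le_mul_of_nonneg_right (by norm_num) (A_pos (by norm_num)).le

lemma g_one_mul (k : ℕ) (hk : 1 ≤ k) (r : ℝ) : (2 * (k : ℝ) - 1) ^ r = g k r * S k r := by
  unfold g
  rw [div_mul_cancel₀ _ (S_pos hk r).ne']

lemma g_two (r : ℝ) : g 2 r = 3 ^ r / (1 + 2 ^ r) := by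
  unfold g S
  have : Finset.Icc 1 2 = {1, 2} := by decide
  rw [this, Finset.sum_insert (by decide), Finset.sum_singleton]
  norm_num

theorem key {r : ℝ} (hr : 1 ≤ r) {k m : ℕ} (hm : 1 ≤ m) (hmk : m ≤ k) :
    ∃ j : ℕ, 1 ≤ j ∧ (m : ℝ) * (2 * ((k : ℝ) - m) + 1) ^ r ≤ g j r * S k r := by
  have hk : 1 ≤ k := hm.trans hmk
  rcases Nat.lt_or_ge m 2 with h2 | h2
  · obtain rfl : m = 1 := by omega
    refine ⟨k, hk, ?_⟩
    rw [← g_one_mul k hk r]
    apply le_of_eq
    push_cast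
    rw [one_mul]
    congr 1
    ring
  · rcases le_total r 2 with hr2 | hr2
    · refine ⟨2, by norm_num, ?_⟩
      have hmain : (m:ℝ) * (2*((k:ℝ)-m)+1)^r * (1+2^r) ≤ 3^r * S k r := by
        rcases Nat.lt_or_ge (5 * m) (2 * k + 1) with h5 | h5
        · exact e12 hr hr2 h2 (by omega) (low13 (Or.inl ⟨hr, hr2⟩) k)
        · exact maj hm hmk h5 hr
      rw [g_two, div_mul_eq_mul_div, le_div_iff₀ (by positivity)]
      exact hmain
    · have hL := low2 hr2 k
      rcases le_total r 2.1 with h21 | h21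
      · obtain ⟨j, hj, hjr⟩ := low_small hr2 h21
        rcases er hr2 h2 hmk (Or.inl ⟨rfl, h21⟩) hL with h | h
        · exact ⟨k, hk, h.trans (g_one_mul k hk r).le⟩
        · exact ⟨j, hj, h.trans (mul_le_mul_of_nonneg_right hjr (S_nonneg k r))⟩
      · obtain ⟨j, hj, hjr⟩ := low_big h21
        rcases er hr2 h2 hmk (Or.inr rfl) hL with h | h
        · exact ⟨k, hk, h.trans (g_one_mul k hk r).le⟩
        · exact ⟨j, hj, h.trans (mul_le_mul_of_nonneg_right hjr (S_nonneg k r))⟩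

end GK
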