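import Pool.Agent.R963.GK.Defs

/-!
The reduction of `s(r)` to power sums.
-/

open scoped ENNReal
open Finset

set_option maxHeartbeats 400000

namespace GK

lemma S_nonneg (k : ℕ) (r : ℝ) : 0 ≤ S k r :=
  Finset.sum_nonneg fun i _ => Real.rpow_nonneg (Nat.cast_nonneg i) r

private lemma S_succ_mh (k : ℕ) (r : ℝ) : S (k + 1) r = S k r + ((k + 1 : ℕ) : ℝ) ^ r := by
  unfold S
  rw [Finset.sum_Icc_succ_top (by omega)]

private lemma S_pos_mh {k : ℕ} (hk : 1 ≤ k) (r : ℝ) : 0 < S k r := by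
  apply Finset.sum_pos
  · intro i hi
    apply Real.rpow_pos_of_pos
    have := (Finset.mem_Icc.mp hi).1
    exact_mod_cast this
  · exact ⟨1, Finset.mem_Icc.mpr ⟨le_rfl, hk⟩⟩

lemma sum_Icc_int {r : ℝ} (hr : 0 < r) (n : ℕ) :
    ∑ x ∈ Finset.Icc (-(n : ℤ)) n, |(x : ℝ)| ^ r = 2 * S n r := by
  induction n with
  | zero => simp [S, Real.zero_rpow hr.ne']
  | succ n ih =>
    have h1 : Finset.Icc (-((n + 1 : ℕ) : ℤ)) ((n + 1 : ℕ) : ℤ)
        = insert (-((n + 1 : ℕ) : ℤ)) (insert ((n + 1 : ℕ) : ℤ) (Finset.Icc (-(n : ℤ)) n)) := by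
      ext x
      simp only [Finset.mem_Icc, Finset.mem_insert]
      push_cast
      omega
    rw [h1, Finset.sum_insert, Finset.sum_insert, ih, S_succ_mh]
    · have h2 : |(((n + 1 : ℕ) : ℤ) : ℝ)| = ((n + 1 : ℕ) : ℝ) := by
        push_cast
        exact abs_of_nonneg (by positivity)
      have h3 : |((-((n + 1 : ℕ) : ℤ) : ℤ) : ℝ)| = ((n + 1 : ℕ) : ℝ) := by
        push_cast
        rw [abs_neg]
        exact abs_of_nonneg (by positivity)
      rw [h2, h3]
      ring
    · simp only [Finset.mem_Icc]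
      push_cast
      omega
    · simp only [Finset.mem_Icc, Finset.mem_insert]
      push_cast
      omega

/-- uniform target on `{-k, …, k}` -/
noncomputable def unif (k : ℕ) (x : ℤ) : ℝ := if |x| ≤ k then 1 / (2 * (k : ℝ) + 1) else 0

/-- symmetric two-point proposal at `±(2k-1)` -/
noncomputable def two (k : ℕ) (z : ℤ) : ℝ :=
  (if z = 2 * (k : ℤ) - 1 then 1 / 2 else 0) + (if z = -(2 * (k : ℤ) - 1) then 1 / 2 else 0)

lemma isTarget_unif {k : ℕ} (hk : 1 ≤ k) : IsTarget (unif k) where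
  nonneg := by
    intro x
    unfold unif
    split_ifs <;> positivity
  sum_one := by
    have h : ∑ x ∈ Finset.Icc (-(k : ℤ)) k, unif k x = 1 := by
      have : ∀ x ∈ Finset.Icc (-(k : ℤ)) k, unif k x = 1 / (2 * (k : ℝ) + 1) := by
        intro x hx
        rw [Finset.mem_Icc] at hx
        unfold unif
        rw [if_pos (abs_le.mpr hx)]
      rw [Finset.sum_congr rfl this, Finset.sum_const, Int.card_Icc]
      have h2 : ((k : ℤ) + 1 - -(k : ℤ)).toNat = 2 * k + 1 := by omega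
      rw [h2, nsmul_eq_mul]
      push_cast
      field_simp
    rw [← h]
    apply hasSum_sum_of_ne_finset_zero
    intro x hx
    rw [Finset.mem_Icc] at hx
    unfold unif
    rw [if_neg]
    rw [abs_le]
    exact hx
  symm := by
    intro x
    unfold unif
    rw [abs_neg]
  unimodal := by
    intro x y h
    unfold unif
    split_ifs with h1 h2
    · exact le_rfl
    · exact absurd (h.trans h1) h2
    · positivity
    · exact le_rfl
  nondeg := by
    unfold unif
    rw [if_pos (by simp)]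
    intro h
    have hk' : (1 : ℝ) ≤ k := by exact_mod_cast hk
    rw [div_eq_one_iff_eq (by positivity)] at h
    linarith

lemma isProposal_two (k : ℕ) : IsProposal (two k) where
  nonneg := by
    intro z
    unfold two
    split_ifs <;> norm_num
  sum_one := by
    have h1 : HasSum (fun z : ℤ => if z = 2 * (k : ℤ) - 1 then (1 / 2 : ℝ) else 0) (1 / 2) :=
      hasSum_ite_eq _ _
    have h2 : HasSum (fun z : ℤ => if z = -(2 * (k : ℤ) - 1) then (1 / 2 : ℝ) else 0) (1 / 2) :=
      hasSum_ite_eq _ _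
    have h3 := h1.add h2
    rw [show (1 / 2 + 1 / 2 : ℝ) = 1 by norm_num] at h3
    exact h3
  symm := by
    intro z
    unfold two
    have e1 : (-z = 2 * (k : ℤ) - 1) ↔ (z = -(2 * (k : ℤ) - 1)) := by
      constructor <;> intro h <;> omega
    have e2 : (-z = -(2 * (k : ℤ) - 1)) ↔ (z = 2 * (k : ℤ) - 1) := by
      constructor <;> intro h <;> omega
    simp only [e1, e2]
    ring
  even := by
    intro z hz
    unfold two
    obtain ⟨w, hw⟩ := hz
    rw [if_neg (by omega), if_neg (by omega)]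
    norm_num

lemma mom_unif {r : ℝ} (hr : 0 < r) (k : ℕ) :
    mom (unif k) r = ENNReal.ofReal (1 / (2 * (k : ℝ) + 1) * (2 * S k r)) := by
  unfold mom
  rw [tsum_eq_sum (s := Finset.Icc (-(k : ℤ)) k)]
  · rw [← ENNReal.ofReal_sum_of_nonneg]
    · rw [← sum_Icc_int hr, Finset.mul_sum]
      congr 1
      apply Finset.sum_congr rfl
      intro x hx
      rw [Finset.mem_Icc] at hx
      unfold unif
      rw [if_pos (abs_le.mpr hx)]
    · intro x _
      unfold unif
      have : 0 ≤ |(x : ℝ)| ^ r := by positivity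
      split_ifs <;> positivity
  · intro x hx
    rw [Finset.mem_Icc] at hx
    unfold unif
    rw [if_neg]
    · simp
    · rw [abs_le]
      exact hx

theorem s_ge {r : ℝ} (hr : 0 < r) {k : ℕ} (hk : 1 ≤ k) : ENNReal.ofReal (g k r) ≤ s r := by
  have hSp := S_pos_mh hk r
  have hmom := mom_unif hr k
  have hfin : mom (unif k) r < ∞ := by
    rw [hmom]; exact ENNReal.ofReal_lt_top
  have hjump : ENNReal.ofReal (2 * (2 * (k : ℝ) - 1) ^ r / (2 * (k : ℝ) + 1))
      ≤ jump (unif k) (two k) r := by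
    unfold jump
    rw [← ENNReal.tsum_prod (f := fun x z : ℤ => ENNReal.ofReal (unif k x * two k z *
      (acc (unif k) x (x + z) * |((x + z : ℤ) : ℝ) - (x : ℝ)| ^ r
        + (1 - acc (unif k) x (x + z)) * |(x : ℝ) - (x : ℝ)| ^ r)))]
    refine le_trans ?_ (ENNReal.sum_le_tsum ({(-(k : ℤ), 2 * (k : ℤ) - 1),
      (-(k : ℤ) + 1, 2 * (k : ℤ) - 1), ((k : ℤ), -(2 * (k : ℤ) - 1)),
      ((k : ℤ) - 1, -(2 * (k : ℤ) - 1))} : Finset (ℤ × ℤ)))
    have hterm : ∀ x z : ℤ, |x| ≤ k → |x + z| ≤ k →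
        (z = 2 * (k : ℤ) - 1 ∨ z = -(2 * (k : ℤ) - 1)) →
        ENNReal.ofReal (unif k x * two k z *
      (acc (unif k) x (x + z) * |((x + z : ℤ) : ℝ) - (x : ℝ)| ^ r
        + (1 - acc (unif k) x (x + z)) * |(x : ℝ) - (x : ℝ)| ^ r))
        = ENNReal.ofReal ((2 * (k : ℝ) - 1) ^ r / (2 * (2 * (k : ℝ) + 1))) := by
      intro x z hx hxz hz
      have hu : unif k x = 1 / (2 * (k : ℝ) + 1) := by unfold unif; rw [if_pos hx]
      have hu2 : unif k (x + z) = 1 / (2 * (k : ℝ) + 1) := by unfold unif; rw [if_pos hxz]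
      have ha : acc (unif k) x (x + z) = 1 := by
        unfold acc
        rw [hu, hu2, div_self (by positivity)]
        exact min_self 1
      have hk1 : (1 : ℝ) ≤ k := by exact_mod_cast hk
      have ht : two k z = 1 / 2 := by
        unfold two
        rcases hz with hz | hz
        · rw [if_pos hz, if_neg (by omega)]; norm_num
        · rw [if_neg (by omega), if_pos hz]; norm_num
      have habs : |((x + z : ℤ) : ℝ) - (x : ℝ)| = 2 * (k : ℝ) - 1 := by
        push_cast
        rw [add_sub_cancel_left]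
        rcases hz with hz | hz
        · rw [hz]; push_cast; exact abs_of_nonneg (by linarith)
        · rw [hz]; push_cast
          rw [abs_of_nonpos (by linarith)]
          ring
      rw [ha, hu, ht, habs]
      congr 1
      simp [Real.zero_rpow hr.ne']
      field_simp
    rw [Finset.sum_insert, Finset.sum_insert, Finset.sum_insert, Finset.sum_singleton]
    · rw [hterm _ _ (by rw [abs_neg]; simp) (by rw [abs_le]; omega) (Or.inl rfl),
        hterm _ _ (by rw [abs_le]; omega) (by rw [abs_le]; omega) (Or.inl rfl),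
        hterm _ _ (by simp) (by rw [abs_le]; omega) (Or.inr rfl),
        hterm _ _ (by rw [abs_le]; omega) (by rw [abs_le]; omega) (Or.inr rfl)]
      have hp : 0 ≤ (2 * (k : ℝ) - 1) ^ r / (2 * (2 * (k : ℝ) + 1)) := by
        have hk1 : (1 : ℝ) ≤ k := by exact_mod_cast hk
        have : 0 ≤ (2 * (k : ℝ) - 1) ^ r := Real.rpow_nonneg (by linarith) r
        positivity
      rw [← ENNReal.ofReal_add hp hp, ← ENNReal.ofReal_add hp (by positivity),
        ← ENNReal.ofReal_add hp (by positivity)]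
      apply ENNReal.ofReal_le_ofReal
      apply le_of_eq
      field_simp
      ring
    · simp only [Finset.mem_singleton, Prod.mk.injEq, not_and]
      intro h; omega
    · simp only [Finset.mem_insert, Finset.mem_singleton, Prod.mk.injEq, not_or, not_and]
      constructor <;> intro h <;> omega
    · simp only [Finset.mem_insert, Finset.mem_singleton, Prod.mk.injEq, not_or, not_and]
      refine ⟨fun h => ?_, fun h => ?_, fun h => ?_⟩ <;> omega
  unfold s
  refine le_trans ?_ (le_iSup_of_le (unif k) (le_iSup_of_le (two k) (le_iSup_of_le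
    (isTarget_unif hk) (le_iSup_of_le hfin (le_iSup_of_le (isProposal_two k) le_rfl)))))
  rw [hmom]
  have h2 : g k r = (2 * (2 * (k : ℝ) - 1) ^ r / (2 * (k : ℝ) + 1))
      / (1 / (2 * (k : ℝ) + 1) * (2 * S k r)) := by
    unfold g
    field_simp
  rw [h2, ENNReal.ofReal_div_of_pos (by positivity)]
  exact ENNReal.div_le_div_right hjump _

/-! ### the upper bound -/

/-- layer weights -/
noncomputable def D (p : ℤ → ℝ) (n : ℕ) : ℝ≥0∞ := ENNReal.ofReal (p n - p ((n : ℤ) + 1))

lemma layer {p : ℤ → ℝ} (hp : IsTarget p) (N : ℕ) :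
    ENNReal.ofReal (p N) = ∑' n : ℕ, if N ≤ n then D p n else 0 := by
  have hanti : ∀ n : ℕ, p ((n : ℤ) + 1) ≤ p n := by
    intro n
    apply hp.unimodal
    rw [abs_of_nonneg (by positivity), abs_of_nonneg (by positivity)]
    omega
  have htend : Filter.Tendsto (fun n : ℕ => p (n : ℤ)) Filter.atTop (nhds 0) := by
    have h1 : Summable (fun n : ℕ => p (n : ℤ)) :=
      hp.sum_one.summable.comp_injective Nat.cast_injective
    exact h1.tendsto_atTop_zero
  have hsum : HasSum (fun n : ℕ => p ((n + N : ℕ) : ℤ) - p (((n + N : ℕ) : ℤ) + 1)) (p N) := by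
    rw [hasSum_iff_tendsto_nat_of_nonneg (fun n => sub_nonneg.mpr (hanti _))]
    have h2 : ∀ M : ℕ, ∑ i ∈ Finset.range M, (p ((i + N : ℕ) : ℤ) - p (((i + N : ℕ) : ℤ) + 1))
        = p N - p ((M + N : ℕ) : ℤ) := by
      intro M
      induction M with
      | zero => simp
      | succ M ih =>
        rw [Finset.sum_range_succ, ih]
        have : (((M + N : ℕ) : ℤ) + 1) = ((M + 1 + N : ℕ) : ℤ) := by push_cast; ring
        rw [this]
        ring
    simp only [h2]
    have h3 : Filter.Tendsto (fun M : ℕ => p ((M + N : ℕ) : ℤ)) Filter.atTop (nhds 0) :=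
      htend.comp (Filter.tendsto_add_atTop_nat N)
    simpa using h3.const_sub (p N)
  have h4 : ∑' n : ℕ, (if N ≤ n then D p n else 0) = ∑' n : ℕ, D p (n + N) := by
    have h5 := Summable.sum_add_tsum_nat_add' (f := fun n : ℕ => if N ≤ n then D p n else 0)
      (k := N) ENNReal.summable
    rw [← h5]
    have h6 : ∑ i ∈ Finset.range N, (if N ≤ i then D p i else 0) = 0 := by
      apply Finset.sum_eq_zero
      intro i hi
      rw [if_neg (by have := Finset.mem_range.mp hi; omega)]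
    rw [h6, zero_add]
    apply tsum_congr
    intro n
    rw [if_pos (by omega)]
  rw [h4]
  unfold D
  rw [← ENNReal.ofReal_tsum_of_nonneg (fun n => sub_nonneg.mpr (hanti _)) hsum.summable,
    hsum.tsum_eq]

lemma p_natAbs {p : ℤ → ℝ} (hp : IsTarget p) (x : ℤ) : p x = p (x.natAbs : ℤ) := by
  apply le_antisymm <;> apply hp.unimodal <;> simp

lemma layer_min {p : ℤ → ℝ} (hp : IsTarget p) (x y : ℤ) :
    ENNReal.ofReal (min (p x) (p y))
      = ∑' n : ℕ, if (|x| ≤ n ∧ |y| ≤ n) then D p n else 0 := by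
  have h1 : min (p x) (p y) = p ((max x.natAbs y.natAbs : ℕ) : ℤ) := by
    rcases le_total |x| |y| with h | h
    · rw [min_eq_right (hp.unimodal x y h), p_natAbs hp y]
      rw [Int.abs_eq_natAbs, Int.abs_eq_natAbs] at h
      rw [max_eq_right (by omega)]
    · rw [min_eq_left (hp.unimodal y x h), p_natAbs hp x]
      rw [Int.abs_eq_natAbs, Int.abs_eq_natAbs] at h
      rw [max_eq_left (by omega)]
  rw [h1, layer hp]
  apply tsum_congr
  intro n
  have : (max x.natAbs y.natAbs ≤ n) ↔ (|x| ≤ n ∧ |y| ≤ n) := by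
    rw [max_le_iff, Int.abs_eq_natAbs, Int.abs_eq_natAbs]
    omega
  simp only [this]

lemma mom_eq {p : ℤ → ℝ} (hp : IsTarget p) {r : ℝ} (hr : 0 < r) :
    mom p r = ∑' n : ℕ, D p n * ENNReal.ofReal (2 * S n r) := by
  unfold mom
  have h1 : ∀ x : ℤ, ENNReal.ofReal (p x * |(x : ℝ)| ^ r)
      = ∑' n : ℕ, (if |x| ≤ n then D p n * ENNReal.ofReal (|(x : ℝ)| ^ r) else 0) := by
    intro x
    rw [ENNReal.ofReal_mul (hp.nonneg x)]
    have := layer_min hp x x
    rw [min_self] at this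
    rw [this, ← ENNReal.tsum_mul_right]
    apply tsum_congr
    intro n
    simp only [and_self]
    split_ifs <;> simp
  simp only [h1]
  rw [ENNReal.tsum_comm]
  apply tsum_congr
  intro n
  rw [tsum_eq_sum (s := Finset.Icc (-(n : ℤ)) n)]
  · rw [← sum_Icc_int hr, ENNReal.ofReal_sum_of_nonneg (fun i _ => by positivity),
      Finset.mul_sum]
    apply Finset.sum_congr rfl
    intro x hx
    rw [Finset.mem_Icc] at hx
    rw [if_pos (abs_le.mpr hx)]
  · intro x hx
    rw [Finset.mem_Icc] at hx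
    rw [if_neg]
    rw [abs_le]
    exact hx

lemma count_le {r C : ℝ} (hC : 0 ≤ C)
    (h : ∀ k m : ℕ, 1 ≤ m → m ≤ k → (m : ℝ) * (2 * ((k : ℝ) - m) + 1) ^ r ≤ C * S k r)
    (n : ℕ) (z : ℤ) (hz : ¬ Even z) :
    ∑' x : ℤ, (if (|x| ≤ (n : ℤ) ∧ |x + z| ≤ (n : ℤ)) then ENNReal.ofReal (|(z : ℝ)| ^ r) else 0)
      ≤ ENNReal.ofReal (C * (2 * S n r)) := by
  have h0 : ∑' x : ℤ, (if (|x| ≤ (n : ℤ) ∧ |x + z| ≤ (n : ℤ)) then ENNReal.ofReal (|(z : ℝ)| ^ r) else 0)
      = ∑ x ∈ (Finset.Icc (-(n : ℤ)) n).filter (fun x => |x + z| ≤ (n : ℤ)),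
        ENNReal.ofReal (|(z : ℝ)| ^ r) := by
    rw [tsum_eq_sum (s := (Finset.Icc (-(n : ℤ)) n).filter (fun x => |x + z| ≤ (n : ℤ)))]
    · apply Finset.sum_congr rfl
      intro x hx
      rw [Finset.mem_filter, Finset.mem_Icc] at hx
      rw [if_pos ⟨abs_le.mpr hx.1, hx.2⟩]
    · intro x hx
      rw [Finset.mem_filter, Finset.mem_Icc] at hx
      rw [if_neg]
      rw [abs_le]
      exact hx
  rw [h0, Finset.sum_const, nsmul_eq_mul]
  rw [← ENNReal.ofReal_natCast, ← ENNReal.ofReal_mul (Nat.cast_nonneg _)]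
  apply ENNReal.ofReal_le_ofReal
  have hcard : ((Finset.Icc (-(n : ℤ)) n).filter (fun x => |x + z| ≤ (n : ℤ))).card
      ≤ 2 * n + 1 - z.natAbs := by
    rcases le_total 0 z with hz0 | hz0
    · have hsub : (Finset.Icc (-(n : ℤ)) n).filter (fun x => |x + z| ≤ (n : ℤ))
          ⊆ Finset.Icc (-(n : ℤ)) (n - z) := by
        intro x hx
        rw [Finset.mem_filter, Finset.mem_Icc, abs_le] at hx
        rw [Finset.mem_Icc]
        omega
      refine (Finset.card_le_card hsub).trans ?_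
      rw [Int.card_Icc]
      omega
    · have hsub : (Finset.Icc (-(n : ℤ)) n).filter (fun x => |x + z| ≤ (n : ℤ))
          ⊆ Finset.Icc (-(n : ℤ) - z) n := by
        intro x hx
        rw [Finset.mem_filter, Finset.mem_Icc, abs_le] at hx
        rw [Finset.mem_Icc]
        omega
      refine (Finset.card_le_card hsub).trans ?_
      rw [Int.card_Icc]
      omega
  have hSn := S_nonneg n r
  have hcard' : (((Finset.Icc (-(n : ℤ)) n).filter (fun x => |x + z| ≤ (n : ℤ))).card : ℝ)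
      ≤ ((2 * n + 1 - z.natAbs : ℕ) : ℝ) := by exact_mod_cast hcard
  refine (mul_le_mul_of_nonneg_right hcard' (by positivity)).trans ?_
  have hodd : Odd z := Int.not_even_iff_odd.mp hz
  have habs : |(z : ℝ)| = ((z.natAbs : ℕ) : ℝ) := by
    rw [← Int.cast_abs, Int.abs_eq_natAbs]
    simp
  rw [habs]
  obtain ⟨y, hy⟩ : Odd z.natAbs := Int.natAbs_odd.mpr hodd
  rcases Nat.lt_or_ge y n with hyn | hyn
  · have h1 := h n (n - y) (by omega) (by omega)
    have h2 : ((n - y : ℕ) : ℝ) = (n : ℝ) - y := by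
      rw [Nat.cast_sub hyn.le]
    rw [h2] at h1
    have h3 : (2 * ((n : ℝ) - ((n : ℝ) - y)) + 1) = ((z.natAbs : ℕ) : ℝ) := by
      rw [hy]; push_cast; ring
    rw [h3] at h1
    have h4 : ((2 * n + 1 - z.natAbs : ℕ) : ℝ) = 2 * ((n : ℝ) - y) := by
      rw [hy, show 2 * n + 1 - (2 * y + 1) = 2 * (n - y) by omega]
      push_cast [hyn.le]
      ring
    rw [h4]
    nlinarith [h1]
  · have h4 : 2 * n + 1 - z.natAbs = 0 := by omega
    rw [h4]
    simp only [Nat.cast_zero, zero_mul]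
    positivity

theorem s_le {r : ℝ} (hr : 0 < r) {C : ℝ} (hC : 0 ≤ C)
    (h : ∀ k m : ℕ, 1 ≤ m → m ≤ k → (m : ℝ) * (2 * ((k : ℝ) - m) + 1) ^ r ≤ C * S k r) :
    s r ≤ ENNReal.ofReal C := by
  unfold s
  refine iSup_le fun p => iSup_le fun q => iSup_le fun hp => iSup_le fun hm => iSup_le fun hq => ?_
  apply ENNReal.div_le_of_le_mul
  have hterm : ∀ x z : ℤ, ENNReal.ofReal (p x * q z *
      (acc p x (x + z) * |((x + z : ℤ) : ℝ) - (x : ℝ)| ^ r
        + (1 - acc p x (x + z)) * |(x : ℝ) - (x : ℝ)| ^ r))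
      = ∑' n : ℕ, ENNReal.ofReal (q z) * (D p n *
        (if (|x| ≤ (n : ℤ) ∧ |x + z| ≤ (n : ℤ)) then ENNReal.ofReal (|(z : ℝ)| ^ r) else 0)) := by
    intro x z
    have e1 : p x * q z *
      (acc p x (x + z) * |((x + z : ℤ) : ℝ) - (x : ℝ)| ^ r
        + (1 - acc p x (x + z)) * |(x : ℝ) - (x : ℝ)| ^ r)
        = q z * (min (p x) (p (x + z)) * |(z : ℝ)| ^ r) := by
      have e2 : p x * acc p x (x + z) = min (p x) (p (x + z)) := by
        unfold acc
        rcases eq_or_lt_of_le (hp.nonneg x) with h0 | h0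
        · rw [← h0]
          simp [min_eq_left (hp.nonneg (x + z))]
        · rw [mul_min_of_nonneg _ _ h0.le, mul_one, mul_div_cancel₀ _ h0.ne']
      have e3 : |((x + z : ℤ) : ℝ) - (x : ℝ)| = |(z : ℝ)| := by
        push_cast; rw [add_sub_cancel_left]
      rw [e3, sub_self, abs_zero, Real.zero_rpow hr.ne', mul_zero, add_zero, ← e2]
      ring
    rw [e1, ENNReal.ofReal_mul (hq.nonneg z), ENNReal.ofReal_mul
      (le_min (hp.nonneg _) (hp.nonneg _)), layer_min hp, ← ENNReal.tsum_mul_right,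
      ← ENNReal.tsum_mul_left]
    apply tsum_congr
    intro n
    congr 1
    split_ifs <;> simp
  unfold jump
  simp only [hterm]
  have hstep : ∑' (x : ℤ) (z : ℤ) (n : ℕ), ENNReal.ofReal (q z) * (D p n *
        (if (|x| ≤ (n : ℤ) ∧ |x + z| ≤ (n : ℤ)) then ENNReal.ofReal (|(z : ℝ)| ^ r) else 0))
      = ∑' (n : ℕ), D p n * ∑' (z : ℤ), ENNReal.ofReal (q z) * ∑' (x : ℤ),
        (if (|x| ≤ (n : ℤ) ∧ |x + z| ≤ (n : ℤ)) then ENNReal.ofReal (|(z : ℝ)| ^ r) else 0) := by
    rw [ENNReal.tsum_comm]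
    have e1 : ∀ z : ℤ, ∑' (x : ℤ) (n : ℕ), ENNReal.ofReal (q z) * (D p n *
        (if (|x| ≤ (n : ℤ) ∧ |x + z| ≤ (n : ℤ)) then ENNReal.ofReal (|(z : ℝ)| ^ r) else 0))
        = ∑' (n : ℕ), D p n * (ENNReal.ofReal (q z) * ∑' (x : ℤ),
        (if (|x| ≤ (n : ℤ) ∧ |x + z| ≤ (n : ℤ)) then ENNReal.ofReal (|(z : ℝ)| ^ r) else 0)) := by
      intro z
      rw [ENNReal.tsum_comm]
      apply tsum_congr
      intro n
      rw [← ENNReal.tsum_mul_left, ← ENNReal.tsum_mul_left]
      apply tsum_congr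
      intro x
      ring
    simp only [e1]
    rw [ENNReal.tsum_comm]
    apply tsum_congr
    intro n
    rw [← ENNReal.tsum_mul_left]
  rw [hstep, mom_eq hp hr, ← ENNReal.tsum_mul_left]
  apply ENNReal.tsum_le_tsum
  intro n
  have hz : ∀ z : ℤ, ENNReal.ofReal (q z) * ∑' (x : ℤ),
        (if (|x| ≤ (n : ℤ) ∧ |x + z| ≤ (n : ℤ)) then ENNReal.ofReal (|(z : ℝ)| ^ r) else 0)
      ≤ ENNReal.ofReal (q z) * ENNReal.ofReal (C * (2 * S n r)) := by
    intro z
    by_cases hev : Even z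
    · rw [hq.even z hev]
      simp
    · exact mul_le_mul_right (count_le hC h n z hev) _
  have hqs : ∑' z : ℤ, ENNReal.ofReal (q z) = 1 := by
    rw [← ENNReal.ofReal_tsum_of_nonneg hq.nonneg hq.sum_one.summable, hq.sum_one.tsum_eq,
      ENNReal.ofReal_one]
  calc D p n * ∑' (z : ℤ), ENNReal.ofReal (q z) * ∑' (x : ℤ),
        (if (|x| ≤ (n : ℤ) ∧ |x + z| ≤ (n : ℤ)) then ENNReal.ofReal (|(z : ℝ)| ^ r) else 0)
      ≤ D p n * ∑' (z : ℤ), ENNReal.ofReal (q z) * ENNReal.ofReal (C * (2 * S n r)) :=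
        mul_le_mul_right (ENNReal.tsum_le_tsum hz) _
    _ = D p n * ENNReal.ofReal (C * (2 * S n r)) := by
        rw [ENNReal.tsum_mul_right, hqs, one_mul]
    _ = ENNReal.ofReal C * (D p n * ENNReal.ofReal (2 * S n r)) := by
        rw [ENNReal.ofReal_mul hC]; ring

end GK
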